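import Mathlib

/-! Definitions and small tools. -/

set_option autoImplicit false
set_option linter.unusedSectionVars false

namespace Pool.Agent.P.MP_246241_nt.BV

open Finset
open scoped Classical MatrixGroups

/-! ### Functions on a finite set -/

section sums
variable {ι : Type} [Fintype ι]

/-- Inner product. -/
def ip (f g : ι → ℝ) : ℝ := ∑ y, f y * g y
/-- Square of the norm. -/
def nn (f : ι → ℝ) : ℝ := ∑ y, f y ^ 2

theorem nn_eq (f : ι → ℝ) : nn f = ip f f := by simp [nn, ip, sq]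
theorem nn_nonneg (f : ι → ℝ) : 0 ≤ nn f := sum_nonneg fun _ _ => sq_nonneg _
theorem ip_comm (f g : ι → ℝ) : ip f g = ip g f := by simp [ip, mul_comm]
theorem ip_sq_le (f g : ι → ℝ) : ip f g ^ 2 ≤ nn f * nn g := sum_mul_sq_le_sq_mul_sq _ _ _
theorem nn_add (f g : ι → ℝ) : nn (f + g) = nn f + 2 * ip f g + nn g := by
  simp only [nn, ip, mul_sum, ← sum_add_distrib, Pi.add_apply]
  exact sum_congr rfl fun _ _ => by ring
theorem nn_zero : nn (0 : ι → ℝ) = 0 := by simp [nn]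
theorem ip_zero (f : ι → ℝ) : ip f 0 = 0 := by simp [ip]
theorem nn_mono {f g : ι → ℝ} (h0 : ∀ y, 0 ≤ f y) (h : ∀ y, f y ≤ g y) : nn f ≤ nn g :=
  sum_le_sum fun y _ => pow_le_pow_left₀ (h0 y) (h y) 2
theorem nn_mul (c : ℝ) (f : ι → ℝ) : nn (fun y => c * f y) = c ^ 2 * nn f := by
  simp only [nn, mul_pow, mul_sum]

end sums

/-! ### Translations and averages on a finite group -/

section group
variable {G : Type} [Group G]

/-- Right translation. -/
def rt (z : G) : Module.End ℝ (G → ℝ) := LinearMap.funLeft ℝ ℝ (· * z)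
/-- Left translation. -/
def lt (z : G) : Module.End ℝ (G → ℝ) := LinearMap.funLeft ℝ ℝ (z * ·)
/-- A sum of right translations. -/
noncomputable def cv {ι : Type} (s : Finset ι) (π : ι → G) : Module.End ℝ (G → ℝ) :=
  ∑ i ∈ s, rt (π i)
/-- The indicator function of a subgroup. -/
noncomputable def ind (K : Subgroup G) : G → ℝ := fun y => if y ∈ K then 1 else 0

@[simp] theorem rt_apply (z : G) (f : G → ℝ) (y : G) : rt z f y = f (y * z) := rfl
@[simp] theorem lt_apply (z : G) (f : G → ℝ) (y : G) : lt z f y = f (z * y) := rfl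
theorem cv_apply {ι : Type} (s : Finset ι) (π : ι → G) (f : G → ℝ) (y : G) :
    cv s π f y = ∑ i ∈ s, f (y * π i) := by
  simp [cv, LinearMap.sum_apply, Finset.sum_apply]
theorem lt_cv {ι : Type} (s : Finset ι) (π : ι → G) (z : G) : Commute (lt z) (cv s π) :=
  LinearMap.ext fun f => funext fun y => by simp [cv_apply, mul_assoc]

variable [Fintype G]

theorem sum_mul_right (f : G → ℝ) (z : G) : ∑ y, f (y * z) = ∑ y, f y :=
  Equiv.sum_comp (Equiv.mulRight z) f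
theorem sum_mul_left (f : G → ℝ) (z : G) : ∑ y, f (z * y) = ∑ y, f y :=
  Equiv.sum_comp (Equiv.mulLeft z) f
theorem ip_rt (z : G) (f g : G → ℝ) : ip (rt z f) g = ip f (rt z⁻¹ g) := by
  rw [ip, ip, ← sum_mul_right _ z⁻¹]; simp

/-- The elements of a subgroup. -/
noncomputable def el (K : Subgroup G) : Finset G := univ.filter (· ∈ K)
theorem mem_el {K : Subgroup G} {y : G} : y ∈ el K ↔ y ∈ K := by simp [el]
theorem card_el_pos (K : Subgroup G) : (0 : ℝ) < #(el K) :=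
  Nat.cast_pos.2 (card_pos.2 ⟨1, mem_el.2 K.one_mem⟩)
theorem card_el (K : Subgroup G) : #(el K) = Nat.card K := by
  rw [el, Nat.card_eq_fintype_card, Fintype.card_subtype]

/-- The average over a subgroup. -/
noncomputable def EE (K : Subgroup G) : Module.End ℝ (G → ℝ) := (#(el K) : ℝ)⁻¹ • cv (el K) id

theorem EE_apply (K : Subgroup G) (f : G → ℝ) (y : G) :
    EE K f y = (#(el K) : ℝ)⁻¹ * ∑ κ ∈ el K, f (y * κ) := by
  simp [EE, cv_apply]

theorem sum_el (K : Subgroup G) (f : G → ℝ) (e : G ≃ G) (h : ∀ y, y ∈ K ↔ e y ∈ K) :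
    ∑ κ ∈ el K, f (e κ) = ∑ κ ∈ el K, f κ :=
  sum_equiv e (fun y => by rw [mem_el, mem_el, h]) fun _ _ => rfl

theorem EE_mul {K : Subgroup G} (f : G → ℝ) (y : G) {κ : G} (h : κ ∈ K) :
    EE K f (y * κ) = EE K f y := by
  rw [EE_apply, EE_apply, ← sum_el K (fun x => f (y * x)) (Equiv.mulLeft κ)
    fun x => (K.mul_mem_cancel_left h).symm]
  simp [mul_assoc]

theorem EE_of_inv {K : Subgroup G} {f : G → ℝ} (h : ∀ y, ∀ κ ∈ K, f (y * κ) = f y) :
    EE K f = f := funext fun y => by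
  rw [EE_apply, sum_congr rfl fun κ hκ => h y κ (mem_el.1 hκ), sum_const, nsmul_eq_mul,
    inv_mul_cancel_left₀ (card_el_pos K).ne']

theorem EE_bot (f : G → ℝ) : EE ⊥ f = f :=
  EE_of_inv fun y κ h => by rw [Subgroup.mem_bot.1 h, mul_one]

theorem ip_EE (K : Subgroup G) (f g : G → ℝ) : ip (EE K f) g = ip f (EE K g) := by
  have : ∀ f g : G → ℝ, ip (EE K f) g = (#(el K) : ℝ)⁻¹ * ∑ κ ∈ el K, ip (rt κ f) g := by
    intro f g
    simp only [ip, EE_apply, rt_apply, mul_assoc, ← mul_sum, sum_mul]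
    rw [sum_comm]
  rw [this, ip_comm f, this, ← sum_el K _ (Equiv.inv G) fun x => K.inv_mem_iff.symm]
  simp only [ip_rt _ f, ip_comm f, Equiv.inv_apply, inv_inv]

theorem EE_EE {K K' : Subgroup G} (h : K' ≤ K) (f : G → ℝ) : EE K' (EE K f) = EE K f :=
  EE_of_inv fun y _ hκ => EE_mul f y (h hκ)

theorem EE_EE' {K K' : Subgroup G} (h : K' ≤ K) (f : G → ℝ) : EE K (EE K' f) = EE K f := by
  have : ∀ g, ip (EE K (EE K' f)) g = ip (EE K f) g := fun g => by
    rw [ip_EE, ip_EE, EE_EE h, ip_EE]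
  funext y
  simpa [ip, Pi.single_apply] using this (Pi.single y 1)

theorem EE_rt (K : Subgroup G) [h : K.Normal] (z : G) : Commute (EE K) (rt z) :=
  LinearMap.ext fun f => funext fun y => by
    rw [Module.End.mul_apply, Module.End.mul_apply, rt_apply, EE_apply, EE_apply,
      ← sum_el K _ (MulAut.conj z).toEquiv fun x => ⟨fun hx => h.conj_mem x hx z, fun hx => by
        simpa [mul_assoc] using h.conj_mem _ hx z⁻¹⟩]
    simp [mul_assoc]

theorem EE_cv {ι : Type} (K : Subgroup G) [K.Normal] (s : Finset ι) (π : ι → G) :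
    Commute (EE K) (cv s π) := Commute.sum_right _ _ _ fun _ _ => EE_rt K _

theorem lt_EE (K : Subgroup G) (z : G) : Commute (lt z) (EE K) := (lt_cv _ _ z).smul_right _

end group

/-! ### Special matrices -/

section mat
variable {R : Type} [CommRing R]

/-- Lower unipotent matrix. -/
def LL (u : R) : SL(2, R) := ⟨!![1, 0; u, 1], by simp [Matrix.det_fin_two]⟩
/-- Diagonal matrix. -/
def DD (a : Rˣ) : SL(2, R) := ⟨!![(a : R), 0; 0, (a⁻¹ : Rˣ)], by simp [Matrix.det_fin_two]⟩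
/-- The Weyl element. -/
def WW (R : Type) [CommRing R] : SL(2, R) := ⟨!![0, -1; 1, 0], by simp [Matrix.det_fin_two]⟩

theorem mul_ent (x y : SL(2, R)) (r c : Fin 2) : (x * y) r c = x r 0 * y 0 c + x r 1 * y 1 c := by
  simp [Matrix.mul_apply, Fin.sum_univ_two]
theorem det_ent (x : SL(2, R)) : x 0 0 * x 1 1 - x 0 1 * x 1 0 = 1 := by
  rw [← Matrix.det_fin_two]; exact x.det_coe
theorem inv_ent (x : SL(2, R)) :
    x⁻¹ 0 0 = x 1 1 ∧ x⁻¹ 0 1 = -x 0 1 ∧ x⁻¹ 1 0 = -x 1 0 ∧ x⁻¹ 1 1 = x 0 0 := by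
  simp [Matrix.SpecialLinearGroup.SL2_inv_expl]
theorem one_ent : (1 : SL(2, R)) 0 0 = 1 ∧ (1 : SL(2, R)) 0 1 = 0 ∧ (1 : SL(2, R)) 1 0 = 0 ∧
    (1 : SL(2, R)) 1 1 = 1 := by simp
theorem LL_ent (u : R) : LL u 0 0 = 1 ∧ LL u 0 1 = 0 ∧ LL u 1 0 = u ∧ LL u 1 1 = 1 :=
  ⟨rfl, rfl, rfl, rfl⟩
theorem DD_ent (a : Rˣ) : DD a 0 0 = a ∧ DD a 0 1 = 0 ∧ DD a 1 0 = 0 ∧ DD a 1 1 = (a⁻¹ : Rˣ) :=
  ⟨rfl, rfl, rfl, rfl⟩
theorem WW_ent : WW R 0 0 = 0 ∧ WW R 0 1 = -1 ∧ WW R 1 0 = 1 ∧ WW R 1 1 = 0 :=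
  ⟨rfl, rfl, rfl, rfl⟩
theorem sl_ext {x y : SL(2, R)} (h0 : x 0 0 = y 0 0) (h1 : x 0 1 = y 0 1) (h2 : x 1 0 = y 1 0)
    (h3 : x 1 1 = y 1 1) : x = y := by
  ext r c
  fin_cases r <;> fin_cases c <;> assumption
theorem LL_mul (u v : R) : LL u * LL v = LL (u + v) := by
  refine sl_ext ?_ ?_ ?_ ?_ <;> simp [mul_ent, LL_ent]
theorem LL_zero : LL (0 : R) = 1 := sl_ext rfl rfl rfl rfl
theorem LL_DD (u : R) (a : Rˣ) : LL u * DD a = DD a * LL (a ^ 2 * u) := by
  refine sl_ext ?_ ?_ ?_ ?_ <;> simp [mul_ent, LL_ent, DD_ent, sq, mul_assoc, mul_comm u]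

/-- Invariance under the upper triangular matrices on the left. -/
def Inv (f : SL(2, R) → ℝ) : Prop := ∀ b y : SL(2, R), b 1 0 = 0 → f (b * y) = f y

theorem Inv.sub {f g : SL(2, R) → ℝ} (hf : Inv f) (hg : Inv g) : Inv (f - g) :=
  fun b y h => by rw [Pi.sub_apply, Pi.sub_apply, hf b y h, hg b y h]
theorem Inv.cv {ι : Type} {f : SL(2, R) → ℝ} (hf : Inv f) (s : Finset ι) (π : ι → SL(2, R)) :
    Inv (cv s π f) := fun b y h => by simp only [cv_apply, mul_assoc, hf b _ h]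
theorem Inv.pow {ι : Type} {f : SL(2, R) → ℝ} (hf : Inv f) (s : Finset ι) (π : ι → SL(2, R))
    (k : ℕ) : Inv ((BV.cv s π ^ k) f) := by
  induction k with
  | zero => exact hf
  | succ k ih => rw [pow_succ']; exact ih.cv s π
theorem Inv.EE [Fintype R] {f : SL(2, R) → ℝ} (hf : Inv f) (K : Subgroup SL(2, R)) :
    Inv (EE K f) := fun b y h => by simp only [EE_apply, mul_assoc, hf b _ h]

/-- In the big cell the value only depends on the slope of the last row. -/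
theorem Inv.cell {f : SL(2, R) → ℝ} (hf : Inv f) (x : SL(2, R)) {v : R} (h : x 1 0 = v * x 1 1)
    (z : SL(2, R)) : f (x * z) = f (LL v * z) := by
  have : x * z = x * LL (-v) * (LL v * z) := by
    rw [mul_assoc, ← mul_assoc (LL _), LL_mul, neg_add_cancel, LL_zero, one_mul]
  rw [this]
  exact hf _ _ (by rw [mul_ent, h]; simp [LL_ent, mul_comm])

/-- The principal congruence subgroup of level `a`. -/
def KK (a : R) : Subgroup SL(2, R) :=
  (Matrix.SpecialLinearGroup.map (n := Fin 2) (Ideal.Quotient.mk (Ideal.span {a}))).ker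

instance (a : R) : (KK a).Normal := MonoidHom.normal_ker _

theorem mem_KK {a : R} {y : SL(2, R)} : y ∈ KK a ↔
    a ∣ y 0 0 - 1 ∧ a ∣ y 0 1 ∧ a ∣ y 1 0 ∧ a ∣ y 1 1 - 1 := by
  simp only [← Ideal.mem_span_singleton, ← Ideal.Quotient.eq_zero_iff_mem, map_sub, map_one,
    sub_eq_zero]
  exact ⟨fun h => ⟨congrArg (· 0 0) h, congrArg (· 0 1) h, congrArg (· 1 0) h, congrArg (· 1 1) h⟩,
    fun h => sl_ext h.1 h.2.1 h.2.2.1 h.2.2.2⟩

theorem KK_mono {a b : R} (h : a ∣ b) : KK b ≤ KK a := fun _ hy =>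
  have := mem_KK.1 hy
  mem_KK.2 ⟨h.trans this.1, h.trans this.2.1, h.trans this.2.2.1, h.trans this.2.2.2⟩

theorem KK_zero : KK (0 : R) = ⊥ := eq_bot_iff.2 fun _ hy => by
  simp only [mem_KK, zero_dvd_iff, sub_eq_zero] at hy
  exact sl_ext hy.1 hy.2.1 hy.2.2.1 hy.2.2.2

end mat

/-! ### Integer matrices -/

/-- The modular group. -/
abbrev Ga : Type := SL(2, ℤ)

/-- The largest entry. -/
def nm (g : Ga) : ℕ :=
  max (max (g 0 0).natAbs (g 0 1).natAbs) (max (g 1 0).natAbs (g 1 1).natAbs)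

theorem nm_le {g : Ga} {X : ℕ} : nm g ≤ X ↔ ∀ r c, |g r c| ≤ X := by
  simp only [nm, max_le_iff, Fin.forall_fin_two, Int.abs_eq_natAbs, Nat.cast_le, and_assoc]
theorem le_nm (g : Ga) (r c : Fin 2) : |g r c| ≤ nm g := nm_le.1 le_rfl r c
theorem exists_nm (g : Ga) : ∃ r c, |g r c| = nm g := by
  simp only [nm, Fin.exists_fin_two, Int.abs_eq_natAbs, Nat.cast_inj]
  omega
theorem nm_inv (g : Ga) : nm g⁻¹ = nm g := by
  simp only [nm, inv_ent, Int.natAbs_neg]
  omega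
theorem nm_one : nm 1 = 1 := by simp [nm]
theorem nm_mul (g h : Ga) : nm (g * h) ≤ 2 * nm g * nm h := nm_le.2 fun r c => by
  rw [mul_ent]
  refine (abs_add_le _ _).trans ?_
  rw [abs_mul, abs_mul]
  have a := mul_le_mul (le_nm g r 0) (le_nm h 0 c) (abs_nonneg _) (Nat.cast_nonneg _)
  have b := mul_le_mul (le_nm g r 1) (le_nm h 1 c) (abs_nonneg _) (Nat.cast_nonneg _)
  push_cast
  linarith
theorem nm_pos (g : Ga) : 1 ≤ nm g := by
  have := nm_mul g g⁻¹
  rw [mul_inv_cancel, nm_one] at this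
  exact Nat.pos_of_ne_zero fun h => by simp [h] at this

theorem exists_ball (X : ℕ) : ∃ s : Finset Ga, (∀ g, g ∈ s ↔ nm g ≤ X) ∧ #s ≤ (2 * X + 1) ^ 4 := by
  let t := Fintype.piFinset fun _ : Fin 2 => Fintype.piFinset fun _ : Fin 2 => Icc (-X : ℤ) X
  have i : Function.Injective fun (g : Ga) (r c : Fin 2) => g r c := fun g h e => by
    ext r c; exact congrFun (congrFun e r) c
  refine ⟨t.preimage _ i.injOn, fun g => ?_, ?_⟩
  · simp only [nm_le, mem_preimage, t, Fintype.mem_piFinset, mem_Icc, abs_le]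
  · refine (card_le_card_of_injOn _ (fun g hg => mem_preimage.1 hg) i.injOn).trans_eq ?_
    simp only [t, Fintype.card_piFinset, Int.card_Icc, prod_const, card_univ, Fintype.card_fin]
    rw [← pow_mul]
    congr 1
    omega

/-- The matrices with entries at most `X`. -/
noncomputable def ball (X : ℕ) : Finset Ga := (exists_ball X).choose
theorem mem_ball {X : ℕ} {g : Ga} : g ∈ ball X ↔ nm g ≤ X := (exists_ball X).choose_spec.1 g
theorem card_ball (X : ℕ) : #(ball X) ≤ (2 * X + 1) ^ 4 := (exists_ball X).choose_spec.2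

/-! ### Residues modulo a prime power -/

/-- The residue ring. -/
abbrev RR (p j : ℕ) : Type := ZMod (p ^ j)
/-- The finite group. -/
abbrev GG (p j : ℕ) : Type := SL(2, RR p j)

section res
variable {p : ℕ} [hp : Fact p.Prime] {j : ℕ}

instance : NeZero (p ^ j) := ⟨pow_ne_zero _ hp.out.ne_zero⟩

theorem two_le : 2 ≤ p := hp.out.two_le
theorem two_le' : (2 : ℝ) ≤ p := mod_cast hp.out.two_le
theorem card_RR : Fintype.card (RR p j) = p ^ j := ZMod.card _
theorem pow_eq_zero' {i : ℕ} (h : j ≤ i) : (p : RR p j) ^ i = 0 := by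
  rw [← Nat.cast_pow, ZMod.natCast_eq_zero_iff]; exact pow_dvd_pow _ h
theorem unit_one_add (t : RR p j) : IsUnit (1 + p * t) :=
  IsNilpotent.isUnit_one_add ⟨j, by rw [mul_pow, pow_eq_zero' le_rfl, zero_mul]⟩
theorem unit_or_dvd (x : RR p j) : IsUnit x ∨ (p : RR p j) ∣ x := by
  obtain ⟨n, rfl⟩ := ZMod.natCast_zmod_surjective x
  by_cases h : p ∣ n
  · exact Or.inr (Nat.cast_dvd_cast h)
  · exact Or.inl ((ZMod.isUnit_iff_coprime _ _).2
      (((Nat.Prime.coprime_iff_not_dvd hp.out).2 h).symm.pow_right _))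
theorem unit_or_unit (y : GG p j) : IsUnit (y 1 1) ∨ IsUnit (y 1 0) := by
  rcases unit_or_dvd (y 1 1) with h | ⟨a, ha⟩
  · exact Or.inl h
  rcases unit_or_dvd (y 1 0) with h | ⟨b, hb⟩
  · exact Or.inr h
  have h := unit_one_add (y 0 1 * b - y 0 0 * a)
  have h2 : 1 + p * (y 0 1 * b - y 0 0 * a) = 0 := by
    have := det_ent y
    rw [ha, hb] at this
    linear_combination -this
  rw [h2, isUnit_zero_iff] at h
  have := subsingleton_of_zero_eq_one h
  exact Or.inl (isUnit_of_subsingleton _)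
theorem dvd_or_dvd (w : RR p j) (n : ℕ) : (p : RR p j) ^ (n + 1) ∣ w ∨ w ∣ (p : RR p j) ^ n := by
  induction n generalizing w with
  | zero => simpa [isUnit_iff_dvd_one] using (unit_or_dvd w).symm
  | succ n ih =>
    rcases unit_or_dvd w with h | ⟨v, rfl⟩
    · exact Or.inr h.dvd
    · rw [pow_succ' _ (n + 1), pow_succ' _ n]
      exact (ih v).imp (by rw [← pow_succ']; exact mul_dvd_mul_left _) (mul_dvd_mul_left _)
theorem four_dvd : (4 : RR p j) ∣ (p : RR p j) ^ 2 := by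
  rcases hp.out.eq_two_or_odd' with rfl | h
  · norm_num
  · refine IsUnit.dvd ?_
    have : IsUnit ((2 ^ 2 : ℕ) : RR p j) := (ZMod.isUnit_iff_coprime _ _).2
      (Nat.Coprime.pow _ _ (Nat.coprime_two_left.2 h))
    simpa using this
theorem int_dvd_iff {i : ℕ} (h : i ≤ j) (n : ℤ) :
    (p : RR p j) ^ i ∣ (n : RR p j) ↔ (p : ℤ) ^ i ∣ n := by
  refine ⟨fun ⟨z, hz⟩ => ?_, fun ⟨z, hz⟩ => ⟨z, by rw [hz]; push_cast; rfl⟩⟩
  obtain ⟨z, rfl⟩ := ZMod.intCast_surjective z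
  have : ((n - p ^ i * z : ℤ) : RR p j) = 0 := by push_cast; rw [hz, sub_self]
  rw [ZMod.intCast_zmod_eq_zero_iff_dvd, Nat.cast_pow] at this
  simpa using dvd_add ((pow_dvd_pow _ h).trans this) (dvd_mul_right ((p : ℤ) ^ i) z)
theorem card_mult {e : ℕ} (h : e ≤ j) : #{w : RR p j | (p : RR p j) ^ e ∣ w} * p ^ e ≤ p ^ j := by
  rw [← card_range (p ^ e), ← card_product]
  refine le_trans (card_le_card_of_injOn (t := univ) (fun x => x.1 + (x.2 : RR p j))
    (fun _ _ => mem_univ _) ?_) (by rw [card_univ, card_RR])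
  rintro ⟨a, r⟩ ha ⟨b, s⟩ hb (e1 : a + r = b + s)
  simp only [coe_product, Set.mem_prod, mem_coe, mem_filter, mem_range] at ha hb
  have h1 : (p : RR p j) ^ e ∣ (((r : ℤ) - s : ℤ) : RR p j) := by
    push_cast
    rw [show (r : RR p j) - s = b - a by linear_combination e1]
    exact dvd_sub hb.1.2 ha.1.2
  have h2 := Int.eq_zero_of_abs_lt_dvd ((int_dvd_iff h _).1 h1) (by
    have a1 : (r : ℤ) < p ^ e := mod_cast ha.2
    have a2 : (s : ℤ) < p ^ e := mod_cast hb.2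
    rw [abs_lt]; omega)
  obtain rfl : r = s := by omega
  rw [add_right_cancel e1]

/-- Reduction. -/
def red (p j : ℕ) : Ga →* GG p j := Matrix.SpecialLinearGroup.map (Int.castRingHom _)
theorem red_ent (g : Ga) (r c : Fin 2) : red p j g r c = (g r c : RR p j) := rfl

/-- The sum over the ball. -/
noncomputable def AA (p j X : ℕ) : Module.End ℝ (GG p j → ℝ) := cv (ball X) (red p j)
theorem AA_apply (X : ℕ) (f : GG p j → ℝ) (y : GG p j) :
    AA p j X f y = ∑ γ ∈ ball X, f (y * red p j γ) := cv_apply _ _ _ _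
theorem ip_AA (X : ℕ) (f g : GG p j → ℝ) : ip (AA p j X f) g = ip f (AA p j X g) := by
  have : ∀ f g : GG p j → ℝ, ip (AA p j X f) g = ∑ γ ∈ ball X, ip (rt (red p j γ) f) g := by
    intro f g
    simp only [ip, AA_apply, rt_apply, sum_mul]
    rw [sum_comm]
  rw [this, ip_comm f, this]
  exact sum_equiv (Equiv.inv Ga) (fun γ => by simp [mem_ball, nm_inv]) fun γ _ => by
    rw [ip_rt, ip_comm, Equiv.inv_apply, map_inv]

/-- The congruence subgroups. -/
def KP (p j i : ℕ) : Subgroup (GG p j) := KK ((p : RR p j) ^ i)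
instance (i : ℕ) : (KP p j i).Normal := inferInstanceAs (KK _).Normal
theorem KP_anti : Antitone (KP p j) := fun _ _ h => KK_mono (pow_dvd_pow _ h)
theorem KP_bot {i : ℕ} (h : j ≤ i) : KP p j i = ⊥ := by rw [KP, pow_eq_zero' h, KK_zero]

/-- The order of the group. -/
noncomputable def oG (p j : ℕ) [Fact p.Prime] : ℝ := Fintype.card (GG p j)
/-- The number of upper triangular elements. -/
noncomputable def oB (p j : ℕ) [Fact p.Prime] : ℝ := #{y : GG p j | y 1 0 = 0}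
theorem oG_pos : 0 < oG p j := Nat.cast_pos.2 Fintype.card_pos
theorem oB_pos : 0 < oB p j := Nat.cast_pos.2 (card_pos.2 ⟨1, by simp⟩)

end res

/-- The matrix is congruent to the identity. -/
def Cg (N : ℕ) (g : Ga) : Prop :=
  (N : ℤ) ∣ g 0 0 - 1 ∧ (N : ℤ) ∣ g 0 1 ∧ (N : ℤ) ∣ g 1 0 ∧ (N : ℤ) ∣ g 1 1 - 1

theorem red_mem {p j i : ℕ} [Fact p.Prime] (h : i ≤ j) (g : Ga) :
    red p j g ∈ KP p j i ↔ Cg (p ^ i) g := by
  simp only [KP, mem_KK, Cg, Nat.cast_pow, ← int_dvd_iff h, red_ent, Int.cast_sub, Int.cast_one]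

/-! ### Lattices attached to strings of digits -/

/-- There is a short vector at level `l`. -/
def Short (p H l a : ℕ) : Prop :=
  ∃ q r : ℤ, (q ≠ 0 ∨ r ≠ 0) ∧ H * (q * a - r * p ^ l) ^ 2 ≤ p ^ l ∧ H * q ^ 2 ≤ p ^ l

theorem Short.mono {p H H' l a : ℕ} (h : Short p H' l a) (hH : H ≤ H') : Short p H l a := by
  obtain ⟨q, r, h0, h1, h2⟩ := h
  have : (H : ℤ) ≤ H' := mod_cast hH
  exact ⟨q, r, h0, (mul_le_mul_of_nonneg_right this (sq_nonneg _)).trans h1,
    (mul_le_mul_of_nonneg_right this (sq_nonneg _)).trans h2⟩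

theorem Short.le {p H l a : ℕ} (hp : 0 < p) (h : Short p H l a) : H ≤ p ^ l := by
  obtain ⟨q, r, h0, h1, h2⟩ := h
  have key : ∀ x : ℤ, x ≠ 0 → H * x ^ 2 ≤ p ^ l → H ≤ p ^ l := fun x hx h => by
    have := mul_le_mul_of_nonneg_left (Int.add_one_le_of_lt (sq_pos_of_ne_zero hx))
      (Nat.cast_nonneg (α := ℤ) H)
    zify
    linarith
  by_cases hq : q = 0
  · refine key _ ?_ h1
    rw [hq, zero_mul, zero_sub, neg_ne_zero]
    exact mul_ne_zero (h0.resolve_left (not_not.2 hq)) (by positivity)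
  · exact key q hq h2

/-- The columns `(q, r)` of `g` are a reduced basis. -/
def Frame (p H l a : ℕ) (g : Ga) : Prop :=
  ∀ k : Fin 2, g 0 k ^ 2 ≤ 4 * p ^ l * H ∧ (g 0 k * a - g 1 k * p ^ l) ^ 2 ≤ 4 * p ^ l * H

/-- A chosen reduced basis. -/
noncomputable def fr (p H l a : ℕ) : Ga := if h : ∃ g, Frame p H l a g then h.choose else 1

theorem fr_spec {p H l a : ℕ} (h : ∃ g, Frame p H l a g) : Frame p H l a (fr p H l a) := by
  rw [fr, dif_pos h]; exact h.choose_spec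

/-- The distribution of the reduced bases. -/
noncomputable def FF (p j H l : ℕ) (S : Finset ℕ) (y : GG p j) : ℝ :=
  #{a ∈ S | (y * (red p j (fr p H l a))⁻¹) 1 0 = 0}

theorem FF_nonneg (p j H l : ℕ) (S : Finset ℕ) (y : GG p j) : 0 ≤ FF p j H l S y :=
  Nat.cast_nonneg _

/-- A chain of sets of strings. -/
def Chain (p : ℕ) (good : ℕ → ℕ → Prop) (C : ℕ → Finset ℕ) (t : ℕ) : Prop :=
  ∀ u < t, (∀ a ∈ C (u + 1), a / p ∈ C u ∧ good u (a / p)) ∧ 383 * p * #(C u) ≤ 384 * #(C (u + 1))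

theorem Chain.mono {p t : ℕ} {good good' : ℕ → ℕ → Prop} {C : ℕ → Finset ℕ} (h : Chain p good C t)
    (hg : ∀ u < t, ∀ a, good u a → good' u a) : Chain p good' C t :=
  fun u hu => ⟨fun a ha => ((h u hu).1 a ha).imp id (hg u hu _), (h u hu).2⟩

theorem Chain.anc {p t : ℕ} {good : ℕ → ℕ → Prop} {C : ℕ → Finset ℕ} (h : Chain p good C t)
    (u b : ℕ) (hb : u + (b + 1) ≤ t) :
    ∀ a ∈ C (u + (b + 1)), a / p ^ (b + 1) ∈ C u ∧ good u (a / p ^ (b + 1)) := by
  induction b with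
  | zero => simpa using (h u (by omega)).1
  | succ b ih =>
    intro a ha
    rw [pow_succ', ← Nat.div_div_eq_div_mul]
    exact ih (by omega) _ ((h (u + (b + 1)) (by omega)).1 a ha).1

theorem Chain.grow {p t : ℕ} {good : ℕ → ℕ → Prop} {C : ℕ → Finset ℕ} (h : Chain p good C t)
    (u b : ℕ) (hb : u + b ≤ t) : (383 * p) ^ b * #(C u) ≤ 384 ^ b * #(C (u + b)) := by
  induction b with
  | zero => simp
  | succ b ih =>
    calc _ = 383 * p * ((383 * p) ^ b * #(C u)) := by ring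
      _ ≤ 383 * p * (384 ^ b * #(C (u + b))) := Nat.mul_le_mul_left _ (ih (by omega))
      _ = 384 ^ b * (383 * p * #(C (u + b))) := by ring
      _ ≤ 384 ^ b * (384 * #(C (u + b + 1))) := Nat.mul_le_mul_left _ (h _ (by omega)).2
      _ = _ := by rw [add_assoc]; ring

/-- No short vector for the level that starts at time `m`. -/
def lev (p H m u a : ℕ) : Prop := m ≤ u → ¬ Short p H (u - m) a

/-- The base levels of scale `s` that are active at time `t`. -/
def II (Λ t s : ℕ) : Finset ℕ := {m ∈ range (t + 1) | Λ ^ s ∣ m ∧ t - m ≤ 49 * Λ ^ (s + 1)}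

/-- The threshold for the base levels of scale `s` at time `t`. -/
def th (p Λ η t s : ℕ) : ℕ := p ^ (2 * (η + (Nat.log Λ (t + 1) - s)) + 4)

/-- The rule. -/
def good (p Λ η c t a : ℕ) : Prop :=
  (∀ l ≤ t, ¬ Short p (c * (t + 1)) l a) ∧ ∀ s, ∀ m ∈ II Λ t s, ¬ Short p (th p Λ η t s) (t - m) a

/-- The set of the theorem. -/
def Mad (p : ℕ) : Set ℝ := {α | ∃ c : ℝ, 0 < c ∧ ∀ k : ℕ, 2 ≤ k →
  c ≤ (k : ℝ) * ((padicNorm p (k : ℚ) : ℚ) : ℝ) * Real.log k *
    |(k : ℝ) * α - ((round ((k : ℝ) * α) : ℤ) : ℝ)|}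

end Pool.Agent.P.MP_246241_nt.BV
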