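import Pool.Agent.P.MP_246241_nt.BV.Base

/-! The statements of the steps. -/

set_option autoImplicit false

namespace Pool.Agent.P.MP_246241_nt.BV

open Finset
open scoped Classical MatrixGroups

-- deps:
def S_ORTH : Prop :=
  ∀ (G : Type) [Group G] [Fintype G] (K : ℕ → Subgroup G) (A : Module.End ℝ (G → ℝ))
    (P : (G → ℝ) → Prop) (lam : ℝ) (i₀ : ℕ), Antitone K → (∀ i, Commute (EE (K i)) A) →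
    (∀ f g, P f → P g → P (f - g)) → (∀ i f, P f → P (EE (K i) f)) → 0 ≤ lam →
    (∀ e f, i₀ ≤ e → P f → EE (K (e + 1)) f = f → EE (K e) f = 0 → nn (A f) ≤ lam * nn f) →
    ∀ n f, P f → EE (K (i₀ + n)) f = f → nn (A f) ≤ lam * nn f + nn (A (EE (K i₀) f))

-- deps:
def S_LOGC : Prop :=
  ∀ (ι : Type) [Fintype ι] (A : Module.End ℝ (ι → ℝ)) (f : ι → ℝ) (B : ℝ) (k : ℕ),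
    (∀ f g, ip (A f) g = ip f (A g)) → 1 ≤ k → nn ((A ^ k) f) ≤ B * nn f →
    nn (A f) ^ k ≤ B * nn f ^ k

-- deps:
def S_CS : Prop :=
  ∀ (G : Type) [Group G] [Fintype G] (K : Subgroup G) [K.Normal] (A : Module.End ℝ (G → ℝ))
    (f g : G → ℝ) (k : ℕ), (∀ f g, ip (A f) g = ip f (A g)) → (∀ z, Commute (lt z) A) →
    EE K f = f → (#(el K) : ℝ) * ip ((A ^ k) f) g ^ 2 ≤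
      (A ^ (2 * k)) (ind K) 1 * nn fun y => ∑ x, f (x * y) * g x

-- deps:
def S_LOW : Prop :=
  ∀ (G ι : Type) [Group G] [Fintype G] (K : Subgroup G) (s : Finset ι) (π : ι → G) (F : G → ℝ),
    (∀ y, 0 ≤ F y) → (#(el K) : ℝ) * nn (cv s π (EE K F)) ≤ (#s : ℝ) ^ 2 * (∑ y, F y) ^ 2

-- deps:
def S_IDX : Prop :=
  ∀ (p j : ℕ) [Fact p.Prime],
    (∀ i, oG p j ≤ (p : ℝ) ^ (3 * i) * #(el (KP p j i))) ∧ oG p j ≤ 2 * (p : ℝ) ^ j * oB p j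

-- deps:
def S_CH : Prop :=
  ∀ (p j : ℕ) [Fact p.Prime], ∃ M : ℝ, 0 ≤ M ∧ ∀ h : GG p j → ℝ, Inv h →
    ∑ x ∈ univ.filter (fun x : GG p j => IsUnit (x 1 1)), h x = M * ∑ u, h (LL u)

-- deps:
def S_AFF : Prop :=
  ∀ (p j : ℕ) [Fact p.Prime] (e : ℕ) (φ ψ : RR p j → ℝ), e ≤ j →
    (∀ y, ∑ s, φ (y + (p : RR p j) ^ e * s) = 0) →
    (p : ℝ) ^ e * ∑ t : RR p j, ∑ b, (∑ u, φ ((1 + p * (2 * t)) ^ 2 * u + b) * ψ u) ^ 2 ≤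
      (p : ℝ) ^ 2 * ((p : ℝ) ^ j) ^ 2 * nn φ * nn ψ

-- deps: CH AFF
def S_SCH : Prop :=
  ∀ (p j : ℕ) [Fact p.Prime] (e : ℕ) (f g : GG p j → ℝ), e ≤ j → Inv f → Inv g →
    (∀ z y, ∑ s, f (LL (y + (p : RR p j) ^ e * s) * z) = 0) →
    (p : ℝ) ^ e * nn (fun y => ∑ x, f (x * y) * g x) ≤ 4 * (p : ℝ) ^ 2 * oG p j * nn f * nn g

-- deps:
def S_LINE : Prop :=
  ∀ (p j : ℕ) [Fact p.Prime] (e : ℕ) (f : GG p j → ℝ), 1 ≤ e → Inv f → EE (KP p j e) f = 0 →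
    ∀ z y, ∑ s, f (LL (y + (p : RR p j) ^ e * s) * z) = 0

-- deps:
def S_STRIP : Prop :=
  ∀ (a b c d : ℝ) (S : Finset Ga), a * d - b * c ≠ 0 →
    (∀ γ ∈ S, ∀ k : Fin 2, |a * γ 0 k + b * γ 1 k| ≤ 1 ∧ |c * γ 0 k + d * γ 1 k| ≤ 1) →
    (#S : ℝ) * |a * d - b * c| ≤ 144

-- deps:
def S_DY : Prop :=
  ∀ (ι : Type) (L : ℕ) (s : Finset ι) (y : ι → ℝ) (y₀ κ : ℝ), 0 < y₀ → 0 ≤ κ →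
    (∀ i ∈ s, y₀ ≤ y i ∧ y i ≤ 2 ^ L * y₀) →
    (∀ Z, y₀ ≤ Z → (#{i ∈ s | y i ≤ Z} : ℝ) ≤ κ * Z) → ∑ i ∈ s, 1 / y i ≤ 2 * κ * (L + 1)

-- deps: STRIP DY
def S_SUPER : Prop :=
  ∀ (Y : ℕ) (g : Ga), 1 ≤ Y →
    ∑ γ ∈ ball (Y ^ 24), 1 / (nm (g * γ) : ℝ) ≤ 15000 * (Y : ℝ) ^ 25 * (1 / (nm g : ℝ))

-- deps:
def S_DIV : Prop :=
  ∃ C : ℝ, ∀ N : ℕ, 1 ≤ N → ∃ d : ℕ, (d : ℝ) ^ 4 ≤ C * N ∧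
    ∀ n : ℕ, n ≠ 0 → n ≤ 2 * N ^ 6 → #n.divisors ≤ d

-- deps:
def S_CNT : Prop :=
  ∀ N d T : ℕ, 1 ≤ N → 1 ≤ T → T ≤ N ^ 3 → (∀ n : ℕ, n ≠ 0 → n ≤ 2 * N ^ 6 → #n.divisors ≤ d) →
    #{γ ∈ ball T | Cg N γ} ≤ (30 * d + 12) * T

-- deps: DIV CNT DY
def S_HAR : Prop :=
  ∃ C : ℝ, 0 ≤ C ∧ ∀ N T : ℕ, 1 ≤ N → T ≤ N ^ 3 →
    (∑ γ ∈ ball T with Cg N γ, 1 / (nm γ : ℝ)) ^ 2 ≤ C * N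

-- deps: SUPER
def S_ZB : Prop :=
  ∀ (p j : ℕ) [Fact p.Prime] (i Y n : ℕ), i ≤ j → 1 ≤ Y →
    0 ≤ (AA p j (Y ^ 24) ^ n) (ind (KP p j i)) 1 ∧
    (AA p j (Y ^ 24) ^ n) (ind (KP p j i)) 1 ≤ (15000 * (Y : ℝ) ^ 25) ^ n *
      ∑ γ ∈ ball ((2 * Y ^ 24) ^ n) with Cg (p ^ i) γ, 1 / (nm γ : ℝ)

-- deps:
def S_NUM : Prop :=
  ∀ C₁ C₂ : ℝ, 0 ≤ C₁ → 0 ≤ C₂ → ∃ C : ℝ, 0 ≤ C ∧ ∀ (N Y : ℕ), 1 ≤ Y → (2 * Y ^ 24) ^ 7 ≤ N →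
    ∃ k : ℕ, 1 ≤ k ∧ (2 * Y ^ 24) ^ (2 * k) ≤ N ^ 3 ∧ ∀ σ : ℝ, 0 ≤ σ → σ ^ 2 ≤ C₂ * N →
      C₁ * (N : ℝ) ^ 2 * ((15000 * (Y : ℝ) ^ 25) ^ (2 * k) * σ) ≤ (C * (Y : ℝ) ^ 94) ^ k

-- deps: CS SCH LINE IDX ZB HAR NUM LOGC
def S_NEW : Prop :=
  ∀ (p : ℕ) [Fact p.Prime], ∃ C : ℝ, 0 ≤ C ∧ ∀ (j e Y : ℕ) (f : GG p j → ℝ), 1 ≤ Y →
    (2 * Y ^ 24) ^ 7 ≤ p ^ e → e + 1 ≤ j → Inv f → EE (KP p j (e + 1)) f = f →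
    EE (KP p j e) f = 0 → nn (AA p j (Y ^ 24) f) ≤ C * (Y : ℝ) ^ 94 * nn f

-- deps: NEW ORTH LOW IDX
def S_GAP : Prop :=
  ∀ (p : ℕ) [Fact p.Prime], ∃ C : ℝ, 0 ≤ C ∧ ∀ (j Y : ℕ) (F : GG p j → ℝ), 1 ≤ Y → Inv F →
    (∀ y, 0 ≤ F y) → nn (AA p j (Y ^ 24) F) * oG p j ≤
      C * (Y : ℝ) ^ 94 * (nn F * oG p j) + C * (Y : ℝ) ^ 700 * (∑ y, F y) ^ 2

-- deps:
def S_FRAME : Prop :=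
  ∀ p H l a : ℕ, 0 < p → 1 ≤ H → ¬ Short p H l a → ∃ g, Frame p H l a g

-- deps:
def S_STEP : Prop :=
  ∀ (p H l b a : ℕ) (g g' : Ga), 0 < p → Frame p H l (a / p ^ (2 * b)) g →
    Frame p H (l + 2 * b) a g' → nm (g'⁻¹ * g) ≤ 8 * H * p ^ b

-- deps:
def S_MULT : Prop :=
  ∀ (p H l : ℕ) (g : Ga) (S : Finset ℕ), 0 < p → 1 ≤ H → (∀ a ∈ S, Frame p H l a g) → #S ≤ 33 * H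

-- deps:
def S_FFB : Prop :=
  ∀ (p j : ℕ) [Fact p.Prime] (H l : ℕ) (S : Finset ℕ), Inv (FF p j H l S) ∧
    ∑ y, FF p j H l S y = oB p j * #S ∧ nn (FF p j H l S) ≤ oB p j * (#S : ℝ) ^ 2

-- deps: FRAME STEP MULT
def S_DOM : Prop :=
  ∀ (p j : ℕ) [Fact p.Prime] (H l b X : ℕ) (S S' : Finset ℕ), 1 ≤ H → 8 * H * p ^ b ≤ X →
    (∀ a ∈ S', a / p ^ (2 * b) ∈ S) → (∀ a ∈ S, ¬ Short p H l a) →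
    (∀ a ∈ S', ¬ Short p H (l + 2 * b) a) →
    ∀ y, FF p j H (l + 2 * b) S' y ≤ 33 * H * AA p j X (FF p j H l S) y

-- deps:
def S_EDEN : Prop :=
  ∀ (p j : ℕ) [Fact p.Prime] (i : ℕ) (w₀ w₁ : ℤ), 1 ≤ i → i ≤ j →
    ¬ ((p : ℤ) ∣ w₀ ∧ (p : ℤ) ∣ w₁) →
    (#{y : GG p j | (p : RR p j) ^ i ∣ y 1 0 * w₀ + y 1 1 * w₁} : ℝ) * (p : ℝ) ^ i ≤ oG p j

-- deps:
def S_VEC : Prop :=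
  ∀ (p H₀ H l i a : ℕ) (g : Ga), p.Prime → 16 * H₀ < H → Frame p H₀ l a g → Short p H (l + i) a →
    ∃ (i' : ℕ) (w₀ w₁ : ℤ), 1 ≤ i' ∧ i' ≤ i ∧ ¬ ((p : ℤ) ∣ w₀ ∧ (p : ℤ) ∣ w₁) ∧
      H * w₀ ^ 2 ≤ 16 * H₀ * p ^ i' ∧ H * w₁ ^ 2 ≤ 16 * H₀ * p ^ i' ∧
      (p : ℤ) ^ i' ∣ g 1 0 * w₀ + g 1 1 * w₁

-- deps: EDEN
def S_ESET : Prop :=
  ∀ (p j : ℕ) [Fact p.Prime] (H₀ H : ℕ), 1 ≤ H → ∃ E : Finset (GG p j),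
    (H : ℝ) * #E ≤ 144 * j * H₀ * oG p j ∧
    ∀ (y : GG p j) (i : ℕ) (w₀ w₁ : ℤ), 1 ≤ i → i ≤ j → ¬ ((p : ℤ) ∣ w₀ ∧ (p : ℤ) ∣ w₁) →
      H * w₀ ^ 2 ≤ 16 * H₀ * p ^ i → H * w₁ ^ 2 ≤ 16 * H₀ * p ^ i →
      (p : RR p j) ^ i ∣ y 1 0 * w₀ + y 1 1 * w₁ → y ∈ E

-- deps: FRAME VEC ESET FFB
def S_WIN : Prop :=
  ∀ (p j : ℕ) [Fact p.Prime] (H₀ H l : ℕ) (S : Finset ℕ), 1 ≤ H₀ → 16 * H₀ < H →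
    (∀ a ∈ S, ¬ Short p H₀ l a ∧ ∃ i ≤ j, Short p H (l + i) a) →
    (H : ℝ) * (oB p j * #S) ^ 2 ≤ 144 * j * H₀ * (nn (FF p j H₀ l S) * oG p j)

-- deps:
def S_CRU1 : Prop :=
  ∀ (p η l a₀ : ℕ) (S : Finset ℕ), 2 ≤ p → 1 ≤ η → ¬ Short p (p ^ (2 * η + 4)) l a₀ →
    (∀ a ∈ S, a / p ^ (2 * η) = a₀ ∧ Short p (p ^ (2 * η + 4)) (l + 2 * η) a) → #S ≤ 9 * p ^ η

-- deps: CRU1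
def S_CRU : Prop :=
  ∀ (p η m t : ℕ) (C : ℕ → Finset ℕ), 2 ≤ p → 1 ≤ η → m ≤ t →
    Chain p (lev p (p ^ (2 * η + 4)) m) C t →
    (#{a ∈ C t | Short p (p ^ (2 * η + 4)) (t - m) a} : ℝ) ≤ 9 * (2 / 3) ^ η * #(C t)

-- deps: GAP DOM FFB
def S_BLK : Prop :=
  ∀ (p : ℕ) [Fact p.Prime], ∃ h₀ : ℕ, 1 ≤ h₀ ∧ ∀ (h j m t u : ℕ) (C : ℕ → Finset ℕ) (ν : ℝ),
    h₀ ≤ h → Chain p (lev p (p ^ h) m) C t → m ≤ u → u + 9408 * h ≤ t → 0 ≤ ν →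
    (∀ S ⊆ C u, (∀ a ∈ S, ¬ Short p (p ^ h) (u - m) a) →
      nn (FF p j (p ^ h) (u - m) S) * oG p j ≤ ν * (oB p j * #(C u)) ^ 2) →
    ∀ S ⊆ C (u + 9408 * h), (∀ a ∈ S, ¬ Short p (p ^ h) (u + 9408 * h - m) a) →
      nn (FF p j (p ^ h) (u + 9408 * h - m) S) * oG p j ≤
        (ν / (p : ℝ) ^ (196 * h) + (p : ℝ) ^ (138000 * h)) * (oB p j * #(C (u + 9408 * h))) ^ 2

-- deps: BLK FFB IDX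
def S_REC : Prop :=
  ∀ (p : ℕ) [Fact p.Prime], ∃ h₀ : ℕ, 1 ≤ h₀ ∧ ∀ (h j m t : ℕ) (C : ℕ → Finset ℕ), h₀ ≤ h →
    Chain p (lev p (p ^ h) m) C t → m + 48 * j ≤ t →
    ∀ S ⊆ C t, (∀ a ∈ S, ¬ Short p (p ^ h) (t - m) a) →
      nn (FF p j (p ^ h) (t - m) S) * oG p j ≤ (p : ℝ) ^ (139000 * h) * (oB p j * #(C t)) ^ 2

-- deps: REC WIN
def S_WK : Prop :=
  ∀ (p : ℕ) [Fact p.Prime], ∃ h₀ : ℕ, ∀ (h j m t H : ℕ) (C : ℕ → Finset ℕ), h₀ ≤ h → 1 ≤ j →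
    Chain p (lev p (p ^ h) m) C t → m + 48 * j ≤ t →
    ∀ S ⊆ C t, (∀ a ∈ S, ¬ Short p (p ^ h) (t - m) a ∧ ∃ i ≤ j, Short p H (t - m + i) a) →
      (H : ℝ) * (#S : ℝ) ^ 2 ≤ j * (p : ℝ) ^ (140000 * h) * (#(C t) : ℝ) ^ 2

-- deps:
def S_COV : Prop :=
  ∀ p Λ η c t : ℕ, 2 ≤ p → 2 ≤ Λ → p ^ 49 < c →
    (∀ s, #(II Λ t s) ≤ 49 * Λ + 1) ∧
    (∀ s, ∀ m ∈ II Λ t s, ∀ u < t, ∀ a, good p Λ η c u a → lev p (th p Λ η t s) m u a) ∧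
    ∀ a, ¬ good p Λ η c t a → ∃ s ≤ Nat.log Λ (t + 1), ∃ m ∈ II Λ t s,
      Short p (th p Λ η t s) (t - m) a ∨ (¬ Short p (th p Λ η t s) (t - m) a ∧
        m + 48 * Λ ^ s ≤ t ∧ ∃ i ≤ Λ ^ s, Short p (c * (t + 1)) (t - m + i) a)

-- deps: COV CRU WK
def S_CORE : Prop :=
  ∀ (p : ℕ) [Fact p.Prime] (ε : ℝ), 0 < ε → ∃ Λ η c : ℕ, 1 ≤ c ∧ ∀ (t : ℕ) (C : ℕ → Finset ℕ),
    Chain p (good p Λ η c) C t → (#{a ∈ C t | ¬ good p Λ η c t a} : ℝ) ≤ ε * #(C t)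

-- deps:
def S_BUILD : Prop :=
  ∀ (p : ℕ) (ε : ℝ) (g : ℕ → ℕ → Prop) (Z : ℕ → Finset ℕ), 2 ≤ p → 0 < ε → ε ≤ 1 / 768 →
    (∀ t C, Chain p g C t → (#{a ∈ C t | ¬ g t a} : ℝ) ≤ ε * #(C t)) →
    (∀ t, (#(Z t) : ℝ) ≤ ε * ((1 - 2 * ε) * p) ^ t) →
    ∃ C : ℕ → Finset ℕ, ∀ t, (C t).Nonempty ∧ (∀ a ∈ C t, g t a ∧ a ∉ Z t) ∧
      ∀ a ∈ C (t + 1), a / p ∈ C t

-- deps: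
def S_LIM : Prop :=
  ∀ (p : ℕ) (C : ℕ → Finset ℕ), 2 ≤ p → (∀ t, (C t).Nonempty ∧ ∀ a ∈ C (t + 1), a / p ∈ C t) →
    ∃ α : ℝ, ∀ t, ∃ a ∈ C t, |(p : ℝ) ^ t * α - a| ≤ 1

-- deps:
def S_FIN : Prop :=
  ∀ (p c : ℕ) (α : ℝ), p.Prime → 1 ≤ c →
    (∀ t, ∃ a : ℕ, |(p : ℝ) ^ t * α - a| ≤ 1 ∧ ∀ l ≤ t, ¬ Short p (c * (t + 1)) l a) → α ∈ Mad p

-- deps:
def S_LEV : Prop :=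
  ∀ (p : ℕ) (M : Set ℝ) (s η : ℝ), 2 ≤ p → 0 < s → s ≤ 1 → 0 < η →
    MeasureTheory.Measure.hausdorffMeasure s M = 0 →
    ∃ (x : ℕ → ℝ) (τ : ℕ → ℕ), (∀ α ∈ M, ∃ n, |α - x n| ≤ 1 / (p : ℝ) ^ τ n) ∧
      ∀ F : Finset ℕ, ∑ n ∈ F, 1 / ((p : ℝ) ^ s) ^ τ n ≤ η

-- deps: LEV
def S_DIM : Prop :=
  ∀ (p : ℕ) (M : Set ℝ), 2 ≤ p →
    (∀ ε : ℝ, 0 < ε → ε ≤ 1 / 768 → ∀ Z : ℕ → Finset ℕ,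
      (∀ t, (#(Z t) : ℝ) ≤ ε * ((1 - 2 * ε) * p) ^ t) →
      ∃ α ∈ M, ∀ t, ∃ a : ℕ, a ∉ Z t ∧ |(p : ℝ) ^ t * α - a| ≤ 1) → dimH M = 1

theorem assemble (hCORE : S_CORE) (hBUILD : S_BUILD) (hLIM : S_LIM) (hFIN : S_FIN) (hDIM : S_DIM)
    (p : ℕ) (hp : p.Prime) : dimH (Mad p) = 1 := by
  have : Fact p.Prime := ⟨hp⟩
  refine hDIM p _ hp.two_le fun ε h0 h1 Z hZ => ?_
  obtain ⟨Λ, η, c, hc, h⟩ := hCORE p ε h0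
  obtain ⟨C, hC⟩ := hBUILD p ε _ Z hp.two_le h0 h1 h hZ
  obtain ⟨α, hα⟩ := hLIM p C hp.two_le fun t => ⟨(hC t).1, (hC t).2.2⟩
  refine ⟨α, hFIN p c α hp hc fun t => ?_, fun t => ?_⟩
  · obtain ⟨a, ha, e⟩ := hα t
    exact ⟨a, e, ((hC t).2.1 a ha).1.1⟩
  · obtain ⟨a, ha, e⟩ := hα t
    exact ⟨a, ((hC t).2.1 a ha).2, e⟩

end Pool.Agent.P.MP_246241_nt.BV
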