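import Pool.Agent.P.MP_246241_nt.BV.Iface

/-! Step AFF. -/

set_option autoImplicit false
set_option linter.unusedSectionVars false

namespace Pool.Agent.P.MP_246241_nt.BV

open Finset
open scoped Classical MatrixGroups

namespace AFFx

section
variable {A : Type} [CommRing A] [Fintype A]

/-- The autocorrelation. -/
def ac (φ : A → ℝ) (w : A) : ℝ := ∑ b, φ (b + w) * φ b

theorem abs_ac (φ : A → ℝ) (w : A) : |ac φ w| ≤ nn φ := by
  have h := ip_sq_le (fun b => φ (b + w)) φ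
  have e : nn (fun b => φ (b + w)) = nn φ := Equiv.sum_comp (Equiv.addRight w) fun b => φ b ^ 2
  rw [e, ← sq] at h
  exact abs_le_of_sq_le_sq h (nn_nonneg φ)

theorem expand (φ ψ : A → ℝ) (a : A) : ∑ b, (∑ u, φ (a * u + b) * ψ u) ^ 2 =
    ∑ u, ∑ v, ψ u * ψ v * ac φ (a * (u - v)) := by
  simp only [sq, sum_mul_sum]
  rw [sum_comm]
  refine sum_congr rfl fun u _ => ?_
  rw [sum_comm]
  refine sum_congr rfl fun v _ => ?_
  rw [ac, mul_sum, ← Equiv.sum_comp (Equiv.addLeft (a * v))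
    fun b => ψ u * ψ v * (φ (b + a * (u - v)) * φ b)]
  refine sum_congr rfl fun b _ => ?_
  rw [Equiv.coe_addLeft, show a * v + b + a * (u - v) = a * u + b by ring]
  ring

theorem vanish (φ : A → ℝ) {q c v : A} (h : ∀ y, ∑ s, φ (y + q * s) = 0) (hv : q = c * v) (y : A) :
    ∑ s, φ (y + c * s) = 0 := by
  have h1 : ∀ s', ∑ s, φ (y + c * s) = ∑ s, φ (y + c * s + q * s') := fun s' => by
    rw [← Equiv.sum_comp (Equiv.addRight (v * s')) fun s => φ (y + c * s)]
    refine sum_congr rfl fun s _ => ?_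
    rw [Equiv.coe_addRight, hv]
    congr 1
    ring
  have h2 : ∑ _s' : A, ∑ s, φ (y + c * s) = 0 := by
    rw [sum_congr rfl fun s' _ => h1 s', sum_comm]
    exact sum_eq_zero fun s _ => h _
  rw [sum_const, nsmul_eq_mul, card_univ] at h2
  exact (mul_eq_zero.1 h2).resolve_left (Nat.cast_ne_zero.2 Fintype.card_ne_zero)

theorem pairs (ψ : A → ℝ) (T : A → ℝ) (q : A) [DecidablePred fun w => q ∣ w] (c : ℝ)
    (h1 : ∀ w, |T w| ≤ c) (h2 : ∀ w, ¬ q ∣ w → T w = 0) :
    ∑ u, ∑ v, ψ u * ψ v * T (u - v) ≤ c * #{w : A | q ∣ w} * nn ψ := by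
  set I : A → ℝ := fun w => if q ∣ w then 1 else 0 with hI
  have hM : ∑ w, I w = #{w : A | q ∣ w} := by simp [hI]
  have e1 : ∀ u, ∑ v, I (u - v) = #{w : A | q ∣ w} := fun u =>
    (Equiv.sum_comp (Equiv.subLeft u) I).trans hM
  have e2 : ∀ v, ∑ u, I (u - v) = #{w : A | q ∣ w} := fun v =>
    (Equiv.sum_comp (Equiv.subRight v) I).trans hM
  calc _ ≤ ∑ u, ∑ v, (c / 2 * ψ u ^ 2 * I (u - v) + c / 2 * ψ v ^ 2 * I (u - v)) := by
        refine sum_le_sum fun u _ => sum_le_sum fun v _ => ?_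
        by_cases h : q ∣ u - v
        · have := abs_le.1 (h1 (u - v))
          simp only [hI, if_pos h]
          nlinarith [mul_nonneg (sub_nonneg.2 this.2) (sq_nonneg (ψ u + ψ v)),
            mul_nonneg (sub_nonneg.2 this.1) (sq_nonneg (ψ u - ψ v))]
        · simp [hI, h, h2 _ h]
    _ = _ := by
        simp only [sum_add_distrib]
        rw [sum_comm (f := fun u v => c / 2 * ψ v ^ 2 * I (u - v))]
        simp only [← mul_sum, e1, e2, ← sum_mul, nn]
        ring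

end

theorem reparam {p j : ℕ} [Fact p.Prime] (F : RR p j → ℝ) (w : RR p j) :
    ∑ t : RR p j, F ((1 + p * (2 * t)) ^ 2 * w) = ∑ s, F (w + 4 * p * w * s) := by
  have hi : Function.Injective fun t : RR p j => t + p * t ^ 2 := fun t t' h => by
    have h' : t + p * t ^ 2 = t' + p * t' ^ 2 := h
    rw [← sub_eq_zero, ← (unit_one_add (t + t')).mul_right_eq_zero]
    linear_combination h'
  rw [← (Finite.injective_iff_bijective.1 hi).sum_comp fun s => F (w + 4 * p * w * s)]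
  refine sum_congr rfl fun t _ => ?_
  congr 1
  ring

end AFFx

open AFFx in
theorem p_AFF :
    S_AFF := by
  intro p j _ e φ ψ he hφ
  have hp : (0 : ℝ) < p := lt_of_lt_of_le two_pos two_le'
  have key := pairs ψ (fun w => ∑ t : RR p j, ac φ ((1 + p * (2 * t)) ^ 2 * w))
    ((p : RR p j) ^ (e - 2)) ((p : ℝ) ^ j * nn φ) (fun w => by
      refine (abs_sum_le_sum_abs _ _).trans ((sum_le_sum fun t _ => abs_ac φ _).trans_eq ?_)
      rw [sum_const, nsmul_eq_mul, card_univ, card_RR, Nat.cast_pow]) fun w hw => by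
      obtain ⟨n, hn⟩ : ∃ n, e = n + 3 := by
        refine ⟨e - 3, ?_⟩
        by_contra hc
        exact hw (by rw [show e - 2 = 0 by omega, pow_zero]; exact one_dvd _)
      subst hn
      obtain ⟨v, hv⟩ := (dvd_or_dvd w n).resolve_left hw
      obtain ⟨v', hv'⟩ := four_dvd (p := p) (j := j)
      have hq : (p : RR p j) ^ (n + 3) = 4 * p * w * (v * v') := by
        rw [show (p : RR p j) ^ (n + 3) = p ^ n * p ^ 2 * p by ring, hv, hv']
        ring
      show ∑ t : RR p j, ac φ ((1 + p * (2 * t)) ^ 2 * w) = 0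
      rw [reparam (ac φ) w]
      simp only [ac]
      rw [sum_comm]
      refine sum_eq_zero fun b _ => ?_
      simp only [← sum_mul, ← add_assoc, vanish φ hφ hq, zero_mul]
  have e1 : ∑ t : RR p j, ∑ b, (∑ u, φ ((1 + p * (2 * t)) ^ 2 * u + b) * ψ u) ^ 2 =
      ∑ u, ∑ v, ψ u * ψ v * ∑ t : RR p j, ac φ ((1 + p * (2 * t)) ^ 2 * (u - v)) := by
    simp only [expand, mul_sum]
    rw [sum_comm]
    exact sum_congr rfl fun u _ => sum_comm
  have h1 : (#{w : RR p j | (p : RR p j) ^ (e - 2) ∣ w} : ℝ) * (p : ℝ) ^ (e - 2) ≤ (p : ℝ) ^ j := by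
    exact_mod_cast card_mult (p := p) (j := j) (e := e - 2) (by omega)
  have h2 : (p : ℝ) ^ e ≤ (p : ℝ) ^ 2 * (p : ℝ) ^ (e - 2) := by
    rw [← pow_add]
    exact pow_le_pow_right₀ (le_trans one_le_two two_le') (by omega)
  have h3 := mul_nonneg (nn_nonneg φ) (nn_nonneg ψ)
  rw [e1]
  refine (mul_le_mul_of_nonneg_left key (by positivity)).trans ?_
  generalize (#{w : RR p j | (p : RR p j) ^ (e - 2) ∣ w} : ℕ) = M at h1
  calc _ = (p : ℝ) ^ e * (M * ((p : ℝ) ^ j * (nn φ * nn ψ))) := by ring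
    _ ≤ (p : ℝ) ^ 2 * (p : ℝ) ^ (e - 2) * (M * ((p : ℝ) ^ j * (nn φ * nn ψ))) := by gcongr
    _ = (p : ℝ) ^ 2 * (M * (p : ℝ) ^ (e - 2) * ((p : ℝ) ^ j * (nn φ * nn ψ))) := by ring
    _ ≤ (p : ℝ) ^ 2 * ((p : ℝ) ^ j * ((p : ℝ) ^ j * (nn φ * nn ψ))) := by gcongr
    _ = _ := by ring

end Pool.Agent.P.MP_246241_nt.BV
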