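import Pool.Agent.P.MP_246241_nt.BV.Iface

/-! Step BLK. -/

set_option autoImplicit false
set_option linter.unusedSectionVars false

namespace Pool.Agent.P.MP_246241_nt.BV

open Finset
open scoped Classical MatrixGroups

namespace BLKx

theorem arith {K A B Q T Z ν x y s c0 c1 : ℝ} (hK : 0 ≤ K) (hA : 0 ≤ A) (hB : 0 ≤ B) (hQ : 0 < Q)
    (hν : 0 ≤ ν) (hT : 1 ≤ T) (hs : 0 ≤ s) (hx : x ≤ K * A * y + K * B * s ^ 2)
    (hy : y ≤ ν * c0 ^ 2) (hsc : s ≤ c0) (hc : T * c0 ≤ c1) (h1 : K * A * Q ≤ T ^ 2)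
    (h2 : K * B ≤ Z) : x ≤ (ν / Q + Z) * c1 ^ 2 := by
  have h0 : 0 ≤ c0 := hs.trans hsc
  have h01 : c0 ≤ c1 := le_trans (le_mul_of_one_le_left h0 hT) hc
  have e1 : K * A * y ≤ ν / Q * c1 ^ 2 :=
    calc K * A * y ≤ K * A * (ν * c0 ^ 2) := mul_le_mul_of_nonneg_left hy (mul_nonneg hK hA)
      _ = ν / Q * (K * A * Q * c0 ^ 2) := by field_simp
      _ ≤ ν / Q * (T ^ 2 * c0 ^ 2) := by gcongr
      _ = ν / Q * (T * c0) ^ 2 := by ring
      _ ≤ ν / Q * c1 ^ 2 := by gcongr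
  have e2 : K * B * s ^ 2 ≤ Z * c1 ^ 2 :=
    mul_le_mul h2 (pow_le_pow_left₀ hs (hsc.trans h01) 2) (sq_nonneg _)
      ((mul_nonneg hK hB).trans h2)
  linarith

theorem grow {p h c0 c1 : ℕ} (hp : 2 ≤ p) (n k : ℕ)
    (hg : (383 * p) ^ (192 * k) * c0 ≤ 384 ^ (192 * k) * c1) (e : 192 * k = n * h + k) :
    (p ^ h) ^ n * c0 ≤ c1 := by
  have h1 : 384 ^ (192 * k) ≤ p ^ k * 383 ^ (192 * k) := by
    rw [pow_mul, pow_mul, ← mul_pow]
    refine Nat.pow_le_pow_left (le_trans ?_ (Nat.mul_le_mul_right _ hp)) k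
    norm_num
  have h2 : (383 * p) ^ (192 * k) = p ^ k * 383 ^ (192 * k) * (p ^ h) ^ n := by
    rw [mul_pow, ← pow_mul, mul_comm h n, mul_right_comm, ← pow_add, add_comm k, ← e, mul_comm]
  rw [h2, mul_assoc] at hg
  exact Nat.le_of_mul_le_mul_left (hg.trans (Nat.mul_le_mul_right _ h1)) (by positivity)

theorem pw (P : ℝ) (hP : 1 ≤ P) (a b c d e : ℕ) (h : a + b * c + d ≤ e) :
    P ^ a * (P ^ b) ^ c * P ^ d ≤ P ^ e := by
  rw [← pow_mul, ← pow_add, ← pow_add]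
  exact pow_le_pow_right₀ hP h

end BLKx

theorem p_BLK (hGAP : S_GAP) (hDOM : S_DOM) (hFFB : S_FFB) :
    S_BLK := by
  intro p hp
  obtain ⟨C₀, hC0, hG⟩ := hGAP p
  obtain ⟨n, hn⟩ := pow_unbounded_of_one_lt (1089 * C₀) (one_lt_two (α := ℝ))
  refine ⟨n + 1, by omega, fun h j m t u C ν hh hch hmu hut hν hS0 S hS hns => ?_⟩
  have hp2 : 2 ≤ p := two_le
  have hp0 : 0 < p := by omega
  obtain ⟨b, hb⟩ : ∃ b, b = 4704 * h := ⟨_, rfl⟩
  obtain ⟨b', hb'⟩ : ∃ b', 2 * b = b' + 1 := ⟨2 * b - 1, by omega⟩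
  have e1 : u + 9408 * h - m = u - m + 2 * b := by omega
  have e2 : 9408 * h = b' + 1 := by omega
  set S0 : Finset ℕ := (C u).filter fun a => ¬ Short p (p ^ h) (u - m) a with hS0d
  have hsub : S0 ⊆ C u := filter_subset _ _
  have hn0 : ∀ a ∈ S0, ¬ Short p (p ^ h) (u - m) a := fun a ha => (mem_filter.1 ha).2
  have hanc : ∀ a ∈ S, a / p ^ (2 * b) ∈ S0 := fun a ha => by
    have := hch.anc u b' (by omega) a (e2 ▸ hS ha)
    rw [hb']
    exact mem_filter.2 ⟨this.1, this.2 hmu⟩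
  have hX : 8 * p ^ h * p ^ b ≤ ((p ^ h) ^ 197) ^ 24 := by
    have h8 : 8 ≤ p ^ 3 := le_trans (by norm_num) (Nat.pow_le_pow_left hp2 3)
    refine le_trans (Nat.mul_le_mul_right _ (Nat.mul_le_mul_right _ h8)) ?_
    rw [← pow_mul, ← pow_mul, ← pow_add, ← pow_add]
    exact Nat.pow_le_pow_right hp0 (by omega)
  have hH : 1 ≤ p ^ h := Nat.one_le_pow _ _ hp0
  rw [e1] at hns ⊢
  have hD := hDOM p j (p ^ h) (u - m) b _ S0 S hH hX hanc hn0 hns
  have hN := nn_mono (FF_nonneg p j (p ^ h) (u - m + 2 * b) S) hD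
  rw [nn_mul] at hN
  obtain ⟨hI, hsum, -⟩ := hFFB p j (p ^ h) (u - m) S0
  have hGa := hG j ((p ^ h) ^ 197) _ (Nat.one_le_pow _ _ hH) hI (FF_nonneg p j _ _ _)
  rw [hsum] at hGa
  have hy := hS0 S0 hsub hn0
  have hgr : (p ^ h) ^ 9359 * #(C u) ≤ #(C (u + 9408 * h)) := by
    refine BLKx.grow hp2 9359 (49 * h) ?_ (by omega)
    rw [show 192 * (49 * h) = 9408 * h by omega]
    exact hch.grow u _ hut
  have hgr' : ((p : ℝ) ^ h) ^ 9359 * #(C u) ≤ #(C (u + 9408 * h)) := by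
    rw [← Nat.cast_pow, ← Nat.cast_pow, ← Nat.cast_mul]
    exact Nat.cast_le.2 hgr
  have hCP : 1089 * C₀ ≤ (p : ℝ) ^ h :=
    hn.le.trans ((pow_le_pow_right₀ one_le_two (by omega)).trans
      (pow_le_pow_left₀ zero_le_two two_le' h))
  have hP1 : 1 ≤ (p : ℝ) ^ h := one_le_pow₀ (one_le_two.trans two_le')
  rw [mul_comm 196 h, mul_comm 138000 h, pow_mul, pow_mul]
  simp only [Nat.cast_pow] at hN hGa
  generalize (p : ℝ) ^ h = P at *
  have hP0 : 0 < P := one_pos.trans_le hP1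
  have hK : (33 * P) ^ 2 * C₀ ≤ P ^ 3 :=
    calc (33 * P) ^ 2 * C₀ = P ^ 2 * (1089 * C₀) := by ring
      _ ≤ P ^ 2 * P := mul_le_mul_of_nonneg_left hCP (sq_nonneg _)
      _ = P ^ 3 := by ring
  have hB := oB_pos (p := p) (j := j)
  have hO := oG_pos (p := p) (j := j)
  refine BLKx.arith (K := (33 * P) ^ 2 * C₀) (A := (P ^ 197) ^ 94) (B := (P ^ 197) ^ 700)
    (T := P ^ 9359) (s := oB p j * #S0) (mul_nonneg (sq_nonneg _) hC0) (by positivity)
    (by positivity) (by positivity) hν (one_le_pow₀ hP1) (by positivity) ?_ hy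
    (mul_le_mul_of_nonneg_left (Nat.cast_le.2 (card_le_card hsub)) hB.le) ?_ ?_ ?_
  · refine (mul_le_mul_of_nonneg_right hN hO.le).trans ?_
    rw [mul_assoc]
    refine (mul_le_mul_of_nonneg_left hGa (sq_nonneg _)).trans_eq ?_
    rw [mul_add]
    simp only [mul_assoc]
  · rw [mul_left_comm]
    exact mul_le_mul_of_nonneg_left hgr' hB.le
  · refine le_trans (mul_le_mul_of_nonneg_right (mul_le_mul_of_nonneg_right hK (by positivity))
      (by positivity)) ?_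
    rw [← pow_mul P 9359]
    exact BLKx.pw P hP1 3 197 94 196 _ (by norm_num)
  · refine le_trans (mul_le_mul_of_nonneg_right hK (by positivity)) ?_
    have := BLKx.pw P hP1 3 197 700 0 138000 (by norm_num)
    rwa [pow_zero, mul_one] at this

end Pool.Agent.P.MP_246241_nt.BV
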