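import Pool.Agent.P.MP_246241_nt.BV.Iface

/-! Step BUILD. -/

set_option autoImplicit false
set_option linter.unusedSectionVars false

namespace Pool.Agent.P.MP_246241_nt.BV

open Finset
open scoped Classical MatrixGroups

namespace BUILDx

/-- All one-digit extensions. -/
def ext (p : ℕ) (G : Finset ℕ) : Finset ℕ := (G ×ˢ range p).image fun z => p * z.1 + z.2

theorem div_mem {p : ℕ} {G : Finset ℕ} {a : ℕ} (h : a ∈ ext p G) : a / p ∈ G := by
  obtain ⟨⟨b, d⟩, hz, rfl⟩ := mem_image.1 h
  obtain ⟨h1, h2⟩ := mem_product.1 hz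
  have h3 : d < p := mem_range.1 h2
  show (p * b + d) / p ∈ G
  rwa [Nat.mul_add_div (by omega), Nat.div_eq_of_lt h3, add_zero]

theorem card_ext (p : ℕ) (G : Finset ℕ) : #(ext p G) = p * #G := by
  rw [ext, card_image_of_injOn, card_product, card_range, mul_comm]
  rintro ⟨a, d⟩ h ⟨a', d'⟩ h' e
  have h1 : d < p := mem_range.1 (mem_product.1 (mem_coe.1 h)).2
  have h2 : d' < p := mem_range.1 (mem_product.1 (mem_coe.1 h')).2
  have e' : p * a + d = p * a' + d' := e
  have h3 := congrArg (· % p) e'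
  simp only [Nat.mul_add_mod, Nat.mod_eq_of_lt h1, Nat.mod_eq_of_lt h2] at h3
  subst h3
  have h4 : a = a' := Nat.eq_of_mul_eq_mul_left (by omega) (Nat.add_right_cancel e')
  rw [h4]

/-- The candidates at each level. -/
noncomputable def DD' (p : ℕ) (q : ℕ → ℕ → Prop) : ℕ → Finset ℕ
  | 0 => {0}
  | t + 1 => ext p ((DD' p q t).filter (q t))

end BUILDx

open BUILDx in
theorem p_BUILD :
    S_BUILD := by
  intro p ε g Z hp h0 h1 hg hZ
  obtain ⟨q, hq⟩ : ∃ q : ℕ → ℕ → Prop, ∀ t a, q t a ↔ g t a ∧ a ∉ Z t := ⟨_, fun _ _ => Iff.rfl⟩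
  have hp' : (2 : ℝ) ≤ p := by exact_mod_cast hp
  have step : ∀ t, Chain p g (DD' p q) t → ((1 - 2 * ε) * p) ^ t ≤ (#(DD' p q t) : ℝ) →
      (1 - 2 * ε) * #(DD' p q t) ≤ (#((DD' p q t).filter (q t)) : ℝ) := fun t hc hl => by
    have a1 := hg t _ hc
    have a2 := (hZ t).trans (mul_le_mul_of_nonneg_left hl h0.le)
    have a3 : DD' p q t ⊆ ((DD' p q t).filter (q t) ∪ {a ∈ DD' p q t | ¬ g t a}) ∪ Z t := by
      intro a ha
      simp only [mem_union, mem_filter, hq]
      tauto
    have a4 := (card_le_card a3).trans ((card_union_le _ _).trans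
      (Nat.add_le_add_right (card_union_le _ _) _))
    have a5 : (#(DD' p q t) : ℝ) ≤ #((DD' p q t).filter (q t)) + #{a ∈ DD' p q t | ¬ g t a} +
        #(Z t) := by exact_mod_cast a4
    linarith
  have key : ∀ t, Chain p g (DD' p q) t ∧ ((1 - 2 * ε) * p) ^ t ≤ (#(DD' p q t) : ℝ) := by
    intro t
    induction t with
    | zero => exact ⟨fun u hu => absurd hu (Nat.not_lt_zero u), by simp [DD']⟩
    | succ t ih =>
      have hs := step t ih.1 ih.2
      have hc : (#(DD' p q (t + 1)) : ℝ) = p * #((DD' p q t).filter (q t)) := by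
        rw [DD', card_ext, Nat.cast_mul]
      have hn : (0 : ℝ) ≤ #(DD' p q t) := Nat.cast_nonneg _
      refine ⟨fun u hu => ?_, ?_⟩
      · rcases Nat.lt_succ_iff_lt_or_eq.1 hu with h | rfl
        · exact ih.1 u h
        · refine ⟨fun a ha => ?_, ?_⟩
          · have := mem_filter.1 (div_mem ha)
            exact ⟨this.1, ((hq _ _).1 this.2).1⟩
          · have : (383 : ℝ) * p * #(DD' p q u) ≤ 384 * #(DD' p q (u + 1)) := by
              rw [hc]
              have h3 : (383 : ℝ) * #(DD' p q u) ≤ 384 * #((DD' p q u).filter (q u)) := by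
                nlinarith
              nlinarith
            exact_mod_cast this
      · rw [hc, pow_succ]
        have h3 := mul_le_mul_of_nonneg_left ih.2 (by linarith : (0 : ℝ) ≤ 1 - 2 * ε)
        nlinarith
  refine ⟨fun t => (DD' p q t).filter (q t), fun t => ⟨?_, fun a ha => (hq _ _).1 (mem_filter.1 ha).2,
    fun a ha => div_mem (mem_filter.1 ha).1⟩⟩
  have hs := step t (key t).1 (key t).2
  have h2 : (0 : ℝ) < 1 - 2 * ε := by linarith
  have h3 := (pow_pos (mul_pos h2 (by linarith : (0 : ℝ) < p)) t).trans_le (key t).2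
  have h4 := (mul_pos h2 h3).trans_le hs
  exact card_pos.1 (by exact_mod_cast h4)

end Pool.Agent.P.MP_246241_nt.BV
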