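import Pool.Agent.P.MP_246241_nt.BV.Iface

/-! Step CH. -/

set_option autoImplicit false
set_option linter.unusedSectionVars false

namespace Pool.Agent.P.MP_246241_nt.BV

open Finset
open scoped Classical MatrixGroups

theorem p_CH :
    S_CH := by
  intro p j _
  let C := univ.filter (fun x : GG p j => IsUnit (x 1 1))
  have hp : (0 : ℝ) < Fintype.card (RR p j) := Nat.cast_pos.2 Fintype.card_pos
  refine ⟨#C / Fintype.card (RR p j), by positivity, fun h hh => ?_⟩
  have h1 : ∀ u : RR p j, ∑ x ∈ C, h (x * LL u) = ∑ x ∈ C, h x := fun u =>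
    sum_equiv (Equiv.mulRight (LL u)) (fun x => by simp [C, mul_ent, LL_ent]) fun _ _ => rfl
  have h2 : ∀ x ∈ C, ∑ u : RR p j, h (x * LL u) = ∑ u, h (LL u) := fun x hx => by
    obtain ⟨a, ha⟩ := (mem_filter.1 hx).2
    have e : x 1 0 = x 1 0 * (a⁻¹ : (RR p j)ˣ) * x 1 1 := by rw [← ha]; simp
    simp only [hh.cell x e, LL_mul]
    exact Equiv.sum_comp (Equiv.addLeft _) fun u => h (LL u)
  have h3 := sum_congr rfl h2
  rw [sum_comm, sum_congr rfl fun u _ => h1 u, sum_const, sum_const, card_univ, nsmul_eq_mul,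
    nsmul_eq_mul] at h3
  rw [div_mul_eq_mul_div, eq_div_iff hp.ne', mul_comm, h3]

end Pool.Agent.P.MP_246241_nt.BV
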