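import Pool.Agent.P.MP_246241_nt.BV.Iface

/-! Step CNT. -/

set_option autoImplicit false
set_option linter.unusedSectionVars false

namespace Pool.Agent.P.MP_246241_nt.BV

open Finset
open scoped Classical MatrixGroups

namespace CNTx

theorem cls (T M : ℕ) (hM : 1 ≤ M) (r : ℤ) :
    #{x ∈ Icc (-T : ℤ) T | (M : ℤ) ∣ x - r} ≤ 2 * T / M + 1 := by
  have hM' : (0 : ℤ) < M := by exact_mod_cast hM
  refine (card_le_card_of_injOn (t := Icc (0 : ℤ) (2 * T / M : ℕ)) (fun x => (x + T) / M)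
    (fun x hx => ?_) fun x hx y hy e => ?_).trans_eq
    (by rw [Int.card_Icc]; generalize 2 * T / M = k; omega)
  · obtain ⟨h, -⟩ := mem_filter.1 (mem_coe.1 hx)
    rw [mem_Icc] at h
    refine mem_coe.2 (mem_Icc.2 ⟨Int.ediv_nonneg (by omega) hM'.le, ?_⟩)
    push_cast
    exact Int.ediv_le_ediv hM' (by omega)
  · have h1 := (mem_filter.1 (mem_coe.1 hx)).2
    have h2 := (mem_filter.1 (mem_coe.1 hy)).2
    have h3 : (x + T) % M = (y + T) % M :=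
      Int.modEq_iff_dvd.2 (by
        have := h2.sub h1
        rwa [show y - r - (x - r) = y + T - (x + T) by ring] at this)
    have h4 := Int.emod_add_mul_ediv (x + T) M
    have h5 := Int.emod_add_mul_ediv (y + T) M
    simp only at e
    rw [h3, e] at h4
    omega

theorem arith {N T A B : ℕ} (hN : 1 ≤ N) (h1 : 1 ≤ T) (hT : T ≤ N ^ 3) (hA : A * N ≤ 2 * T)
    (hB : B * N ^ 2 ≤ 2 * T) : (B + 1) * (A + 1) ≤ 9 * T := by
  have h2 : A * B * N ^ 3 ≤ 4 * T * N ^ 3 :=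
    calc A * B * N ^ 3 = A * N * (B * N ^ 2) := by ring
      _ ≤ 2 * T * (2 * T) := Nat.mul_le_mul hA hB
      _ = 4 * T * T := by ring
      _ ≤ _ := Nat.mul_le_mul_left _ hT
  have h3 := Nat.le_of_mul_le_mul_right h2 (by positivity)
  have h4 : A ≤ A * N := Nat.le_mul_of_pos_right _ hN
  have h5 : B ≤ B * N ^ 2 := Nat.le_mul_of_pos_right _ (by positivity)
  nlinarith

theorem ent {T : ℕ} {γ : Ga} (h : γ ∈ ball T) (r c : Fin 2) : γ r c ∈ Icc (-T : ℤ) T :=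
  mem_Icc.2 (abs_le.1 (nm_le.1 (mem_ball.1 h) r c))

theorem one (T : ℕ) (h1 : 1 ≤ T) : #{γ ∈ ball T | γ 0 0 * γ 1 1 = 1} ≤ 12 * T := by
  have key : ∀ γ : Ga, γ 0 0 * γ 1 1 = 1 → (γ 0 1 = 0 ∨ γ 1 0 = 0) ∧
      (γ 0 0 = 1 ∧ γ 1 1 = 1 ∨ γ 0 0 = -1 ∧ γ 1 1 = -1) := fun γ h =>
    ⟨mul_eq_zero.1 (by linear_combination h - det_ent γ), Int.eq_one_or_neg_one_of_mul_eq_one' h⟩
  refine (card_le_card_of_injOn (t := ({1, -1} : Finset ℤ) ×ˢ (univ : Finset Bool) ×ˢ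
    Icc (-T : ℤ) T) (fun γ => (γ 0 0, decide (γ 0 1 = 0), γ 0 1 + γ 1 0))
    (fun γ hγ => ?_) fun γ hγ δ hδ e => ?_).trans ?_
  · obtain ⟨h, h'⟩ := mem_filter.1 (mem_coe.1 hγ)
    obtain ⟨a, b⟩ := key γ h'
    have c := mem_Icc.1 (ent h 0 1)
    have d := mem_Icc.1 (ent h 1 0)
    simp only [coe_product, Set.mem_prod, mem_coe, mem_insert, mem_singleton, mem_univ, mem_Icc,
      true_and]
    omega
  · obtain ⟨a, b⟩ := key γ (mem_filter.1 (mem_coe.1 hγ)).2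
    obtain ⟨c, d⟩ := key δ (mem_filter.1 (mem_coe.1 hδ)).2
    simp only [Prod.mk.injEq, decide_eq_decide] at e
    refine sl_ext ?_ ?_ ?_ ?_ <;> omega
  · rw [card_product, card_product, Int.card_Icc, card_pair (by norm_num), card_univ,
      Fintype.card_bool]
    omega

theorem fib {n : ℤ} (hn : n ≠ 0) (a x : ℤ) (s : Finset Ga)
    (h : ∀ γ ∈ s, γ 0 0 = a ∧ γ 1 1 = x ∧ γ 0 1 * γ 1 0 = n) : #s ≤ 2 * #n.natAbs.divisors := by
  refine (card_le_card_of_injOn (t := (univ : Finset Bool) ×ˢ n.natAbs.divisors)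
    (fun γ => (decide (0 ≤ γ 0 1), (γ 0 1).natAbs)) (fun γ hγ => ?_)
    fun γ hγ δ hδ e => ?_).trans_eq (by rw [card_product, card_univ, Fintype.card_bool])
  · refine mem_coe.2 (mem_product.2 ⟨mem_univ _, Nat.mem_divisors.2
      ⟨Int.natAbs_dvd_natAbs.2 ⟨_, (h γ hγ).2.2.symm⟩, Int.natAbs_ne_zero.2 hn⟩⟩)
  · obtain ⟨a1, a2, a3⟩ := h γ hγ
    obtain ⟨b1, b2, b3⟩ := h δ hδ
    simp only [Prod.mk.injEq, decide_eq_decide] at e
    have e1 : γ 0 1 = δ 0 1 := by omega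
    refine sl_ext (a1.trans b1.symm) e1 ?_ (a2.trans b2.symm)
    rw [← e1, ← a3] at b3
    exact (mul_left_cancel₀ (fun z => hn (by rw [← a3, z, zero_mul])) b3).symm

end CNTx

open CNTx in
theorem p_CNT :
    S_CNT := by
  intro N d T hN h1 hT hd
  have h2 : #{γ ∈ ball T | Cg N γ ∧ γ 0 0 * γ 1 1 ≠ 1} ≤
      2 * d * (2 * T / N ^ 2 + 1) * (2 * T / N + 1) := by
    refine (card_le_mul_card_image_of_maps_to (f := fun γ : Ga => γ 0 0)
      (t := {x ∈ Icc (-T : ℤ) T | (N : ℤ) ∣ x - 1}) (fun γ hγ => ?_) _ fun a _ => ?_).trans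
      (Nat.mul_le_mul_left _ (cls T N hN 1))
    · exact mem_filter.2 ⟨ent (mem_filter.1 hγ).1 0 0, (mem_filter.1 hγ).2.1.1⟩
    refine (card_le_mul_card_image_of_maps_to (f := fun γ : Ga => γ 1 1)
      (t := {x ∈ Icc (-T : ℤ) T | ((N ^ 2 : ℕ) : ℤ) ∣ x - (2 - a)}) (fun γ hγ => ?_) _
      fun x _ => ?_).trans (Nat.mul_le_mul_left _ (cls T _ (Nat.one_le_pow _ _ hN) _))
    · obtain ⟨h, rfl⟩ := mem_filter.1 hγ
      obtain ⟨h, ⟨c1, c2, c3, c4⟩, -⟩ := mem_filter.1 h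
      refine mem_filter.2 ⟨ent h 1 1, ?_⟩
      have := (mul_dvd_mul c2 c3).sub (mul_dvd_mul c1 c4)
      rw [show γ 0 1 * γ 1 0 - (γ 0 0 - 1) * (γ 1 1 - 1) = γ 1 1 - (2 - γ 0 0) by
        linear_combination -det_ent γ] at this
      rwa [Nat.cast_pow, sq]
    rcases eq_empty_or_nonempty {γ ∈ {γ ∈ {γ ∈ ball T | Cg N γ ∧ γ 0 0 * γ 1 1 ≠ 1} | γ 0 0 = a} |
      γ 1 1 = x} with e | ⟨γ, hγ⟩
    · rw [e]; simp
    simp only [mem_filter] at hγ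
    obtain ⟨⟨⟨hb, -, hne⟩, rfl⟩, rfl⟩ := hγ
    have hn : γ 0 0 * γ 1 1 - 1 ≠ 0 := sub_ne_zero.2 hne
    refine (fib hn (γ 0 0) (γ 1 1) _ fun δ hδ => ?_).trans
      (Nat.mul_le_mul_left _ (hd _ (Int.natAbs_ne_zero.2 hn) ?_))
    · simp only [mem_filter] at hδ
      refine ⟨hδ.1.2, hδ.2, ?_⟩
      rw [← hδ.1.2, ← hδ.2]
      linear_combination -det_ent δ
    · have a1 := nm_le.1 (mem_ball.1 hb) 0 0
      have a2 := nm_le.1 (mem_ball.1 hb) 1 1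
      have a3 := mul_le_mul a1 a2 (abs_nonneg _) (Nat.cast_nonneg _)
      have a4 := abs_sub (γ 0 0 * γ 1 1) 1
      have a5 : T * T ≤ N ^ 6 := (Nat.mul_le_mul hT hT).trans_eq (by ring)
      have a6 : 1 ≤ N ^ 6 := Nat.one_le_pow _ _ hN
      rw [abs_mul, abs_one] at a4
      zify at a5 a6 ⊢
      linarith
  have h3 := arith hN h1 hT (Nat.div_mul_le_self (2 * T) N) (Nat.div_mul_le_self (2 * T) (N ^ 2))
  have h4 : #{γ ∈ ball T | Cg N γ} ≤ #{γ ∈ ball T | Cg N γ ∧ γ 0 0 * γ 1 1 ≠ 1} +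
      #{γ ∈ ball T | γ 0 0 * γ 1 1 = 1} :=
    (card_le_card fun γ hγ => by
      simp only [mem_union, mem_filter] at hγ ⊢
      tauto).trans (card_union_le _ _)
  have h5 := one T h1
  have h6 := Nat.mul_le_mul_left (2 * d) h3
  rw [← mul_assoc] at h6
  nlinarith

end Pool.Agent.P.MP_246241_nt.BV
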