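import Pool.Agent.P.MP_246241_nt.BV.Iface

/-! Step COV. -/

set_option autoImplicit false
set_option linter.unusedSectionVars false

namespace Pool.Agent.P.MP_246241_nt.BV

open Finset
open scoped Classical MatrixGroups

namespace COVx

theorem mem {Λ t s m : ℕ} : m ∈ II Λ t s ↔ m ≤ t ∧ Λ ^ s ∣ m ∧ t - m ≤ 49 * (Λ ^ s * Λ) := by
  rw [II, mem_filter, mem_range, Nat.lt_succ_iff, pow_succ]

theorem card {Λ : ℕ} (h : 2 ≤ Λ) (t s : ℕ) : #(II Λ t s) ≤ 49 * Λ + 1 := by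
  have hJ : 0 < Λ ^ s := by positivity
  rw [← card_range (49 * Λ + 1)]
  refine card_le_card_of_injOn (fun m => (t - m) / Λ ^ s) (fun m hm => ?_) fun m hm m' hm' e => ?_
  · refine mem_coe.2 (mem_range.2 (Nat.lt_succ_of_le (Nat.div_le_of_le_mul ?_)))
    exact (mem.1 hm).2.2.trans_eq (by ring)
  · obtain ⟨a1, ⟨a, rfl⟩, -⟩ := mem.1 hm
    obtain ⟨b1, ⟨b, rfl⟩, -⟩ := mem.1 hm'
    simp only [Nat.sub_mul_div] at e
    rw [mul_comm, ← Nat.le_div_iff_mul_le hJ] at a1 b1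
    rw [show a = b by omega]

theorem ceil (x : ℕ) {J : ℕ} (h : 0 < J) : ∃ m, J ∣ m ∧ x ≤ m ∧ m < x + J := by
  refine ⟨J * ((x + J - 1) / J), dvd_mul_right _ _, ?_, ?_⟩
  · have := Nat.lt_mul_div_succ (x + J - 1) h
    rw [mul_add] at this
    omega
  · have := Nat.mul_div_le (x + J - 1) J
    omega

end COVx

open COVx in
theorem p_COV :
    S_COV := by
  intro p Λ η c t hp hΛ hc
  refine ⟨card hΛ t, fun s m hm u hu a hg hmu hs => ?_, fun a hg => ?_⟩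
  · obtain ⟨-, a2, a3⟩ := mem.1 hm
    refine hg.2 s m (mem.2 ⟨hmu, a2, by omega⟩) (hs.mono (Nat.pow_le_pow_right (by omega) ?_))
    have := Nat.log_mono_right (b := Λ) (show u + 1 ≤ t + 1 by omega)
    omega
  by_cases h2 : ∀ s, ∀ m ∈ II Λ t s, ¬ Short p (th p Λ η t s) (t - m) a
  · have h1 : ¬ ∀ l ≤ t, ¬ Short p (c * (t + 1)) l a := fun h => hg ⟨h, h2⟩
    push Not at h1
    obtain ⟨l, hl, hs⟩ := h1
    have a1 : 49 < l := (Nat.pow_lt_pow_iff_right (by omega : 1 < p)).1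
      (hc.trans_le ((Nat.le_mul_of_pos_right c t.succ_pos).trans (hs.le (by omega))))
    have a2 := Nat.pow_log_le_self Λ (show l / 49 ≠ 0 by omega)
    have a3 := Nat.lt_pow_succ_log_self (by omega : 1 < Λ) (l / 49)
    generalize Nat.log Λ (l / 49) = s at a2 a3
    rw [pow_succ] at a3
    obtain ⟨m, b1, b2, b3⟩ := ceil (t - l) (show 0 < Λ ^ s by positivity)
    have hm : m ∈ II Λ t s := mem.2 ⟨by omega, b1, by omega⟩
    refine ⟨s, Nat.le_log_of_pow_le (by omega) (by omega), m, hm,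
      Or.inr ⟨h2 s m hm, by omega, m - (t - l), by omega, ?_⟩⟩
    rwa [show t - m + (m - (t - l)) = l by omega]
  · push Not at h2
    obtain ⟨s, m, hm, hs⟩ := h2
    by_cases e : s ≤ Nat.log Λ (t + 1)
    · exact ⟨s, e, m, hm, Or.inl hs⟩
    have a1 := Nat.lt_pow_succ_log_self (by omega : 1 < Λ) (t + 1)
    have a2 : Λ ^ (Nat.log Λ (t + 1)).succ ≤ Λ ^ s := Nat.pow_le_pow_right (by omega) (by omega)
    obtain ⟨b1, b2, -⟩ := mem.1 hm
    obtain rfl : m = 0 := Nat.eq_zero_of_dvd_of_lt b2 (by omega)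
    rw [pow_succ] at a1
    refine ⟨_, le_rfl, 0, mem.2 ⟨b1, dvd_zero _, by omega⟩, Or.inl ?_⟩
    rw [th, show Nat.log Λ (t + 1) - s = 0 by omega] at hs
    rwa [th, Nat.sub_self]

end Pool.Agent.P.MP_246241_nt.BV
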