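import Pool.Agent.P.MP_246241_nt.BV.Iface

/-! Step CRU. -/

set_option autoImplicit false
set_option linter.unusedSectionVars false

namespace Pool.Agent.P.MP_246241_nt.BV

open Finset
open scoped Classical MatrixGroups

theorem p_CRU (hCRU1 : S_CRU1) :
    S_CRU := by
  intro p η m t C hp hη hm hC
  by_cases h0 : t - m < 2 * η + 4
  · rw [filter_eq_empty_iff.2 fun a _ hs => ?_]
    · simp only [card_empty, Nat.cast_zero]; positivity
    · exact absurd ((Nat.pow_le_pow_iff_right (by omega)).1 (hs.le (by omega))) (by omega)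
  obtain ⟨u, rfl⟩ : ∃ u, t = u + 2 * η := ⟨t - 2 * η, by omega⟩
  have hu : m ≤ u := by omega
  have e : 2 * η - 1 + 1 = 2 * η := by omega
  have ha := hC.anc u (2 * η - 1) (by omega)
  rw [e] at ha
  have h1 : #{a ∈ C (u + 2 * η) | Short p (p ^ (2 * η + 4)) (u + 2 * η - m) a} ≤
      9 * p ^ η * #(C u) := by
    refine card_le_mul_card_image_of_maps_to (f := fun a => a / p ^ (2 * η))
      (fun a h => (ha a (mem_filter.1 h).1).1) _ fun b _ => ?_
    rcases eq_empty_or_nonempty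
      {a ∈ {a ∈ C (u + 2 * η) | Short p (p ^ (2 * η + 4)) (u + 2 * η - m) a} |
        a / p ^ (2 * η) = b} with h | ⟨a, h⟩
    · rw [h]; simp
    · have h2 := mem_filter.1 h
      refine hCRU1 p η (u - m) b _ hp hη (h2.2 ▸ (ha a (mem_filter.1 h2.1).1).2 hu) fun x hx => ?_
      have h3 := mem_filter.1 hx
      refine ⟨h3.2, ?_⟩
      rw [show u - m + 2 * η = u + 2 * η - m by omega]
      exact (mem_filter.1 h3.1).2
  have h2 : ((383 * p : ℝ)) ^ (2 * η) * #(C u) ≤ 384 ^ (2 * η) * #(C (u + 2 * η)) := by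
    exact_mod_cast hC.grow u (2 * η) le_rfl
  have hp' : (2 : ℝ) ≤ p := by exact_mod_cast hp
  have h3 : ((p : ℝ) * 384 ^ 2) ^ η ≤ (2 / 3 * (383 * p) ^ 2) ^ η :=
    pow_le_pow_left₀ (by positivity) (by nlinarith) _
  rw [mul_pow, mul_pow, ← pow_mul, ← pow_mul] at h3
  have h4 : (0 : ℝ) < (383 * p) ^ (2 * η) := by positivity
  have h5 : (p : ℝ) ^ η * #(C u) ≤ (2 / 3) ^ η * #(C (u + 2 * η)) := by
    refine le_of_mul_le_mul_left ?_ h4
    calc _ = (p : ℝ) ^ η * ((383 * p) ^ (2 * η) * #(C u)) := by ring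
      _ ≤ (p : ℝ) ^ η * (384 ^ (2 * η) * #(C (u + 2 * η))) := by gcongr
      _ = ((p : ℝ) ^ η * 384 ^ (2 * η)) * #(C (u + 2 * η)) := by ring
      _ ≤ ((2 / 3) ^ η * (383 * p) ^ (2 * η)) * #(C (u + 2 * η)) := by gcongr
      _ = _ := by ring
  have h6 : (#{a ∈ C (u + 2 * η) | Short p (p ^ (2 * η + 4)) (u + 2 * η - m) a} : ℝ) ≤
      9 * p ^ η * #(C u) := by exact_mod_cast h1
  linarith

end Pool.Agent.P.MP_246241_nt.BV
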