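import Pool.Agent.P.MP_246241_nt.BV.Iface

/-! Step CRU1. -/

set_option autoImplicit false
set_option linter.unusedSectionVars false

namespace Pool.Agent.P.MP_246241_nt.BV

open Finset
open scoped Classical MatrixGroups

namespace CRU1x

theorem one {E W x0 q D : ℝ} (hE : 2 ≤ E) (hD0 : 0 ≤ D) (hD : D + 1 ≤ E ^ 2)
    (h1 : |E ^ 2 * x0 + q * D| ≤ W) (h2 : |q| ≤ W) (h3 : W < E * |x0| ∨ W < E * |q|) :
    |x0| ≤ W ∧ W < 2 * E * |q| := by
  have hq := abs_nonneg q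
  have hx := abs_nonneg x0
  have hW : 0 ≤ W := hq.trans h2
  have h4 : E ^ 2 * |x0| ≤ W + |q| * D := by
    have e : E ^ 2 * x0 = (E ^ 2 * x0 + q * D) - q * D := by ring
    have := abs_sub (E ^ 2 * x0 + q * D) (q * D)
    rw [← e, abs_mul, abs_mul, abs_of_nonneg hD0, abs_of_nonneg (sq_nonneg E)] at this
    linarith
  refine ⟨?_, lt_of_not_ge fun h5 => ?_⟩
  · have h6 : |q| * D ≤ W * D := mul_le_mul_of_nonneg_right h2 hD0
    have h7 : W * (D + 1) ≤ W * E ^ 2 := mul_le_mul_of_nonneg_left hD hW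
    exact le_of_mul_le_mul_left (a := E ^ 2) (by linarith) (by positivity)
  · have h6 : |q| * D ≤ |q| * E ^ 2 := mul_le_mul_of_nonneg_left (by linarith) hq
    have h7 : E * (2 * E * |q|) ≤ E * W := mul_le_mul_of_nonneg_left h5 (by linarith)
    have h8 : 2 * W ≤ E * W := mul_le_mul_of_nonneg_right hE hW
    have h9 : E * |x0| ≤ W := le_of_mul_le_mul_left (a := E) (by nlinarith) (by linarith)
    have h10 : 0 ≤ E * |q| := by positivity
    rcases h3 with h | h <;> linarith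

theorem two {E W x0 x0' q q' D D' : ℝ} (h0 : x0 * q' = x0' * q)
    (h1 : |E ^ 2 * x0 + q * D| ≤ W) (h1' : |E ^ 2 * x0' + q' * D'| ≤ W) (hW : 0 < W) (hE : 0 < E)
    (h2 : W < 2 * E * |q|) (h2' : W < 2 * E * |q'|) : |D - D'| < 4 * E := by
  have hq : 0 < |q| := by
    by_contra h
    nlinarith [abs_nonneg q]
  have hq' : 0 < |q'| := by
    by_contra h
    nlinarith [abs_nonneg q']
  have e : q * q' * (D - D') = q' * (E ^ 2 * x0 + q * D) - q * (E ^ 2 * x0' + q' * D') := by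
    linear_combination (-E ^ 2) * h0
  have h3 := abs_sub (q' * (E ^ 2 * x0 + q * D)) (q * (E ^ 2 * x0' + q' * D'))
  rw [← e, abs_mul, abs_mul, abs_mul, abs_mul] at h3
  have h4 := mul_le_mul_of_nonneg_left h1 hq'.le
  have h5 := mul_le_mul_of_nonneg_left h1' hq.le
  have h6 := mul_lt_mul_of_pos_left h2 hq'
  have h7 := mul_lt_mul_of_pos_left h2' hq
  exact lt_of_mul_lt_mul_left (a := |q| * |q'|) (by linarith) (by positivity)

end CRU1x

theorem p_CRU1 :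
    S_CRU1 := by
  intro p η l a₀ S hp hη hn hS
  have hp' : (2 : ℝ) ≤ p := mod_cast hp
  obtain ⟨E, hE⟩ : ∃ E : ℝ, E = (p : ℝ) ^ η := ⟨_, rfl⟩
  obtain ⟨P, hP⟩ : ∃ P : ℝ, P = (p : ℝ) ^ l := ⟨_, rfl⟩
  obtain ⟨T, hT⟩ : ∃ T : ℝ, T = (p : ℝ) ^ 4 := ⟨_, rfl⟩
  have E2 : 2 ≤ E := hE ▸ hp'.trans (le_self_pow₀ (by linarith) (by omega))
  have P0 : 0 < P := by rw [hP]; positivity
  have T2 : 2 < T := by
    have : (2 : ℝ) ^ 4 ≤ (p : ℝ) ^ 4 := pow_le_pow_left₀ (by norm_num) hp' 4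
    rw [hT]; linarith
  obtain ⟨W, W0, hW⟩ : ∃ W : ℝ, 0 < W ∧ T * W ^ 2 = P :=
    ⟨√(P / T), Real.sqrt_pos.2 (by positivity), by
      rw [Real.sq_sqrt (by positivity)]; field_simp⟩
  have eH : (p : ℝ) ^ (2 * η + 4) = E ^ 2 * T := by rw [hE, hT]; ring
  have eL : (p : ℝ) ^ (l + 2 * η) = P * E ^ 2 := by rw [hE, hP]; ring
  have e2 : (p : ℝ) ^ (2 * η) = E ^ 2 := by rw [hE]; ring
  have sq1 : ∀ y : ℝ, E ^ 2 * T * y ^ 2 ≤ P * E ^ 2 → |y| ≤ W := fun y h => by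
    refine abs_le_of_sq_le_sq' ?_ W0.le |> abs_le.2
    refine le_of_mul_le_mul_left (a := E ^ 2 * T) ?_ (by positivity)
    rw [← hW] at h
    linarith
  have sq2 : ∀ y : ℝ, E * |y| ≤ W → E ^ 2 * T * y ^ 2 ≤ P := fun y h => by
    have h1 := pow_le_pow_left₀ (by positivity) h 2
    rw [mul_pow, sq_abs] at h1
    have h2 := mul_le_mul_of_nonneg_left h1 (by linarith : 0 ≤ T)
    linarith
  have key : ∀ a ∈ S, ∃ (q r : ℤ) (D : ℝ), (a : ℝ) = E ^ 2 * a₀ + D ∧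
      |E ^ 2 * (q * a₀ - r * P) + q * D| ≤ W ∧ |(q : ℝ)| ≤ W ∧ |q * a₀ - r * P| ≤ W ∧
      W < 2 * E * |(q : ℝ)| := fun a ha => by
    obtain ⟨h1, q, r, h0, h2, h3⟩ := hS a ha
    have ea : (a : ℝ) = E ^ 2 * a₀ + (a % p ^ (2 * η) : ℕ) := by
      rw [← e2, ← h1]
      exact_mod_cast (Nat.div_add_mod a _).symm
    have hD : ((a % p ^ (2 * η) : ℕ) : ℝ) + 1 ≤ E ^ 2 := by
      rw [← e2]
      exact_mod_cast Nat.mod_lt a (by positivity)
    have h2' : (p : ℝ) ^ (2 * η + 4) * (q * a - r * (p : ℝ) ^ (l + 2 * η)) ^ 2 ≤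
      (p : ℝ) ^ (l + 2 * η) := by exact_mod_cast h2
    have h3' : (p : ℝ) ^ (2 * η + 4) * (q : ℝ) ^ 2 ≤ (p : ℝ) ^ (l + 2 * η) := by exact_mod_cast h3
    rw [eH, eL] at h2' h3'
    have h4 := sq1 _ h2'
    have h5 := sq1 _ h3'
    rw [show q * (a : ℝ) - r * (P * E ^ 2) = E ^ 2 * (q * a₀ - r * P) + q * (a % p ^ (2 * η) : ℕ) by
      linear_combination q * ea] at h4
    refine ⟨q, r, _, ea, h4, h5, CRU1x.one E2 (Nat.cast_nonneg _) hD h4 h5 ?_⟩
    by_contra hc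
    rw [not_or, not_lt, not_lt] at hc
    have h6 := sq2 _ hc.1
    have h7 := sq2 _ hc.2
    rw [← eH, hP] at h6 h7
    exact hn ⟨q, r, h0, by exact_mod_cast h6, by exact_mod_cast h7⟩
  rcases S.eq_empty_or_nonempty with rfl | ⟨a, ha⟩
  · simp
  have hsub : S ⊆ Icc (a - 4 * p ^ η) (a + 4 * p ^ η) := fun b hb => by
    obtain ⟨q, r, D, ea, h1, h2, h3, h4⟩ := key a ha
    obtain ⟨q', r', D', eb, h1', h2', h3', h4'⟩ := key b hb
    have e : (q * a₀ - r * P) * q' - (q' * a₀ - r' * P) * q = P * ((r' * q - r * q' : ℤ) : ℝ) := by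
      push_cast; ring
    have h5 := abs_sub ((q * a₀ - r * P) * q') ((q' * a₀ - r' * P) * q)
    rw [e, abs_mul, abs_mul, abs_mul, abs_of_pos P0] at h5
    have h6 := mul_le_mul h3 h2' (abs_nonneg _) W0.le
    have h7 := mul_le_mul h3' h2 (abs_nonneg _) W0.le
    have h8 : |((r' * q - r * q' : ℤ) : ℝ)| < 1 :=
      lt_of_mul_lt_mul_left (a := P) (by nlinarith [mul_pos W0 W0]) P0.le
    have h9 : r' * q - r * q' = 0 := Int.abs_lt_one_iff.1 (by exact_mod_cast h8)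
    rw [h9, Int.cast_zero, mul_zero, sub_eq_zero] at e
    have h10 := abs_lt.1 (CRU1x.two e h1 h1' W0 (by linarith) h4 h4')
    have h11 : (a : ℝ) ≤ b + 4 * p ^ η := by rw [← hE]; linarith
    have h12 : (b : ℝ) ≤ a + 4 * p ^ η := by rw [← hE]; linarith
    have h13 : a ≤ b + 4 * p ^ η := by exact_mod_cast h11
    have h14 : b ≤ a + 4 * p ^ η := by exact_mod_cast h12
    exact mem_Icc.2 ⟨by omega, h14⟩
  have := card_le_card hsub
  rw [Nat.card_Icc] at this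
  have h1 : 1 ≤ p ^ η := Nat.one_le_pow _ _ (by omega)
  omega

end Pool.Agent.P.MP_246241_nt.BV
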