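import Pool.Agent.P.MP_246241_nt.BV.Iface

/-! Step CS. -/

set_option autoImplicit false
set_option linter.unusedSectionVars false

namespace Pool.Agent.P.MP_246241_nt.BV

open Finset
open scoped Classical MatrixGroups

namespace CSx

variable {G : Type} [Group G] [Fintype G]

theorem adj {A : Module.End ℝ (G → ℝ)} (h : ∀ f g, ip (A f) g = ip f (A g)) (k : ℕ) :
    ∀ f g, ip ((A ^ k) f) g = ip f ((A ^ k) g) := by
  induction k with
  | zero => intro f g; rfl
  | succ k ih =>
    intro f g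
    conv_lhs => rw [pow_succ']
    conv_rhs => rw [pow_succ]
    rw [Module.End.mul_apply, Module.End.mul_apply, h, ih]

theorem val {B : Module.End ℝ (G → ℝ)} (hB : ∀ z, Commute (lt z) B) (h : G → ℝ) (z : G) :
    B h z = B (lt z h) 1 := by
  have := congrArg (fun T : Module.End ℝ (G → ℝ) => T h 1) (hB z).eq
  simpa only [Module.End.mul_apply, lt_apply, mul_one] using this

theorem ip_ind {K : Subgroup G} {B : Module.End ℝ (G → ℝ)} (hB : ∀ z, Commute (lt z) B)
    {h : G → ℝ} (hh : ∀ κ ∈ K, lt κ h = h) : ip (B h) (ind K) = #(el K) * B h 1 := by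
  have : ∀ y, B h y * ind K y = if y ∈ K then B h 1 else 0 := fun y => by
    unfold ind
    split_ifs with hy
    · rw [mul_one, val hB h y, hh y hy]
    · rw [mul_zero]
  rw [ip, sum_congr rfl fun y _ => this y, ← sum_filter, sum_const, nsmul_eq_mul]
  rfl

end CSx

theorem p_CS :
    S_CS := by
  intro G _ _ K hK A f g k hA hc hf
  have hp : ∀ m z, Commute (lt z) (A ^ m) := fun m z => (hc z).pow_right m
  set c : G → ℝ := fun y => ∑ x, f (x * y) * g x with hcd
  have h1 : c = ∑ x, g x • lt x f := by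
    funext y
    simp only [hcd, Finset.sum_apply, Pi.smul_apply, lt_apply, smul_eq_mul, mul_comm]
  have h2 : (A ^ k) c 1 = ip ((A ^ k) f) g := by
    rw [h1, map_sum, Finset.sum_apply, ip]
    refine sum_congr rfl fun x _ => ?_
    rw [map_smul, Pi.smul_apply, smul_eq_mul, ← CSx.val (hp k), mul_comm]
  have h3 : ∀ y, ∀ κ ∈ K, f (y * κ) = f y := fun y κ hκ => by
    rw [← hf, EE_mul _ _ hκ]
  have h4 : ∀ κ ∈ K, lt κ c = c := fun κ hκ => by
    funext y
    simp only [lt_apply, hcd]
    refine sum_congr rfl fun x _ => ?_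
    have := h3 (x * y) (y⁻¹ * κ * y⁻¹⁻¹) (hK.conj_mem κ hκ y⁻¹)
    rw [← this]
    congr 2
    group
  have h5 : ∀ κ ∈ K, lt κ (ind K) = ind K := fun κ hκ => by
    funext y
    simp only [lt_apply, ind, K.mul_mem_cancel_left hκ]
  have h6 : (#(el K) : ℝ) * ip ((A ^ k) f) g = ip c ((A ^ k) (ind K)) := by
    rw [← h2, ← CSx.ip_ind (hp k) h4, CSx.adj hA]
  have h7 : nn ((A ^ k) (ind K)) = #(el K) * (A ^ (2 * k)) (ind K) 1 := by
    rw [nn_eq, ← CSx.adj hA, ← Module.End.mul_apply, ← pow_add, ← two_mul,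
      CSx.ip_ind (hp _) h5]
  have h8 := ip_sq_le c ((A ^ k) (ind K))
  rw [← h6, h7] at h8
  refine le_of_mul_le_mul_left ?_ (card_el_pos K)
  linarith

end Pool.Agent.P.MP_246241_nt.BV
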