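import Pool.Agent.P.MP_246241_nt.BV.Iface

/-! Step DIM. -/

set_option autoImplicit false
set_option linter.unusedSectionVars false

namespace Pool.Agent.P.MP_246241_nt.BV

open Finset
open scoped Classical MatrixGroups

theorem p_DIM (hLEV : S_LEV) :
    S_DIM := by
  intro p M hp H
  refine le_antisymm ((dimH_mono (Set.subset_univ M)).trans Real.dimH_univ.le) ?_
  refine le_of_forall_lt_imp_le_of_dense fun a ha => ?_
  rcases eq_or_ne a 0 with rfl | a0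
  · exact zero_le
  lift a to NNReal using ha.ne_top with s
  have s0 : (0 : ℝ) < s := by exact_mod_cast pos_iff_ne_zero.2 (ENNReal.coe_ne_zero.1 a0)
  have s1 : (s : ℝ) < 1 := by exact_mod_cast ha
  refine le_dimH_of_hausdorffMeasure_ne_zero fun h0 => ?_
  have p1 : (1 : ℝ) < p := by exact_mod_cast hp
  have p0 : (0 : ℝ) < p := one_pos.trans p1
  have q0 : 0 < (p : ℝ) ^ (s : ℝ) := Real.rpow_pos_of_pos p0 _
  have q1 : (p : ℝ) ^ (s : ℝ) < p := by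
    simpa using Real.rpow_lt_rpow_of_exponent_lt p1 s1
  obtain ⟨ε, e0, e1, e2⟩ : ∃ ε : ℝ, 0 < ε ∧ ε ≤ 1 / 768 ∧ (p : ℝ) ^ (s : ℝ) ≤ (1 - 2 * ε) * p := by
    have := (div_lt_one p0).2 q1
    refine ⟨min (1 / 768) ((1 - (p : ℝ) ^ (s : ℝ) / p) / 2), lt_min (by norm_num) (by linarith),
      min_le_left _ _, (div_le_iff₀ p0).1 ?_⟩
    linarith [min_le_right (1 / 768 : ℝ) ((1 - (p : ℝ) ^ (s : ℝ) / p) / 2)]
  obtain ⟨x, τ, h1, h2⟩ := hLEV p M s (ε / 5) hp s0 s1.le (by positivity) h0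
  generalize (p : ℝ) ^ (s : ℝ) = q at *
  have h3 : ∀ t (F : Finset ℕ), (↑F ⊆ {n | τ n = t}) → (#F : ℝ) ≤ ε / 5 * q ^ t := fun t F hF => by
    have := h2 F
    rwa [sum_congr rfl fun n hn => by rw [show τ n = t from hF hn], sum_const, nsmul_eq_mul,
      mul_one_div, div_le_iff₀ (pow_pos q0 t)] at this
  have h4 : ∀ t, {n | τ n = t}.Finite := fun t => by
    by_contra hi
    obtain ⟨F, hF, hc⟩ := Set.Infinite.exists_subset_card_eq hi (⌊ε / 5 * q ^ t⌋₊ + 1)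
    have := h3 t F hF
    rw [hc] at this
    exact absurd (Nat.lt_floor_add_one (ε / 5 * q ^ t)) (by push_cast at this; linarith)
  obtain ⟨α, hα, h5⟩ := H ε e0 e1 (fun t => (h4 t).toFinset.biUnion fun n =>
    Icc ⌈(p : ℝ) ^ t * x n - 2⌉₊ (⌈(p : ℝ) ^ t * x n - 2⌉₊ + 4)) fun t => by
      have a1 := card_biUnion_le_card_mul (h4 t).toFinset (fun n =>
        Icc ⌈(p : ℝ) ^ t * x n - 2⌉₊ (⌈(p : ℝ) ^ t * x n - 2⌉₊ + 4)) 5 fun n _ => by
          rw [Nat.card_Icc]; omega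
      have a2 := h3 t (h4 t).toFinset (by simp)
      have a3 := mul_le_mul_of_nonneg_left (pow_le_pow_left₀ q0.le e2 t) e0.le
      refine le_trans (by exact_mod_cast a1 : _ ≤ (#(h4 t).toFinset : ℝ) * 5) (by linarith)
  obtain ⟨n, hn⟩ := h1 α hα
  obtain ⟨a, ha1, ha2⟩ := h5 (τ n)
  refine ha1 (mem_biUnion.2 ⟨n, by simp, ?_⟩)
  have b1 : |(p : ℝ) ^ τ n * α - p ^ τ n * x n| ≤ 1 := by
    rw [← mul_sub, abs_mul, abs_of_pos (pow_pos p0 _), mul_comm, ← le_div_iff₀ (pow_pos p0 _)]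
    exact hn
  obtain ⟨b2, b3⟩ := abs_le.1 b1
  obtain ⟨b4, b5⟩ := abs_le.1 ha2
  refine mem_Icc.2 ⟨Nat.ceil_le.2 (by linarith), ?_⟩
  have := Nat.le_ceil ((p : ℝ) ^ τ n * x n - 2)
  exact_mod_cast (by linarith : (a : ℝ) ≤ ⌈(p : ℝ) ^ τ n * x n - 2⌉₊ + 4)

end Pool.Agent.P.MP_246241_nt.BV
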