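import Pool.Agent.P.MP_246241_nt.BV.Iface

/-! Step DIV. -/

set_option autoImplicit false
set_option linter.unusedSectionVars false

namespace Pool.Agent.P.MP_246241_nt.BV

open Finset
open scoped Classical MatrixGroups

namespace DIVx

theorem succ_pow_le (B a : ℕ) (hB : 1 ≤ B) : (a + 1) ^ B ≤ B ^ B * 2 ^ a := by
  have h2 : a / B + 1 ≤ 2 ^ (a / B) := Nat.lt_two_pow_self
  calc (a + 1) ^ B ≤ (B * 2 ^ (a / B)) ^ B :=
        Nat.pow_le_pow_left ((Nat.lt_mul_div_succ a hB).trans_le (Nat.mul_le_mul_left _ h2)) _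
    _ ≤ _ := by
      rw [mul_pow, ← pow_mul]
      exact Nat.mul_le_mul_left _ (Nat.pow_le_pow_right two_pos (Nat.div_mul_le_self _ _))

theorem pow_le (B : ℕ) (hB : 1 ≤ B) (n : ℕ) (hn : n ≠ 0) :
    #n.divisors ^ B ≤ (B ^ 2 ^ B) ^ B * n := by
  have hBB : 1 ≤ B ^ B := Nat.one_le_pow _ _ hB
  rw [Nat.card_divisors hn, ← prod_pow]
  calc _ ≤ ∏ p ∈ n.primeFactors, ((if p ∈ range (2 ^ B) then B ^ B else 1) *
        p ^ n.factorization p) := prod_le_prod' fun p hp => by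
        have p2 := (Nat.prime_of_mem_primeFactors hp).two_le
        split_ifs with h
        · exact (succ_pow_le B _ hB).trans (by gcongr)
        · rw [mem_range, not_lt] at h
          calc _ ≤ (2 ^ n.factorization p) ^ B := Nat.pow_le_pow_left Nat.lt_two_pow_self _
            _ ≤ _ := by rw [← pow_mul, mul_comm, pow_mul, one_mul]; gcongr
    _ ≤ _ := by
      rw [prod_mul_distrib, prod_ite_mem, prod_const, ← pow_mul B (2 ^ B), mul_comm (2 ^ B), pow_mul]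
      refine Nat.mul_le_mul (Nat.pow_le_pow_right hBB
        ((card_le_card inter_subset_right).trans (card_range _).le)) (le_of_eq ?_)
      exact Nat.prod_factorization_pow_eq_self hn

theorem exists_C (B : ℕ) (hB : 1 ≤ B) :
    ∃ C : ℕ, 1 ≤ C ∧ ∀ n : ℕ, n ≠ 0 → #n.divisors ^ B ≤ C * n :=
  ⟨_, Nat.one_le_pow _ _ (Nat.one_le_pow _ _ hB), pow_le B hB⟩

end DIVx

theorem p_DIV :
    S_DIV := by
  obtain ⟨C, hC1, hC⟩ := DIVx.exists_C 24 (by norm_num)
  refine ⟨((2 * C : ℕ) : ℝ), fun N hN => ?_⟩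
  obtain ⟨n₀, h0, hmax⟩ := exists_max_image (range (2 * N ^ 6 + 1)) (fun n => #n.divisors)
    ⟨0, mem_range.2 (Nat.succ_pos _)⟩
  refine ⟨#n₀.divisors, ?_, fun n _ hn => hmax n (mem_range.2 (Nat.lt_succ_of_le hn))⟩
  have h1 : #n₀.divisors ^ 4 ≤ 2 * C * N := by
    rcases eq_or_ne n₀ 0 with rfl | hne
    · simp
    · refine le_of_pow_le_pow_left₀ (n := 6) (by norm_num) (Nat.zero_le _) ?_
      have h2 : n₀ ≤ 2 * N ^ 6 := Nat.lt_succ_iff.1 (mem_range.1 h0)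
      have h3 : 2 * C ≤ (2 * C) ^ 6 := Nat.le_self_pow (by norm_num) _
      calc (#n₀.divisors ^ 4) ^ 6 = #n₀.divisors ^ 24 := by rw [← pow_mul]
        _ ≤ C * n₀ := hC n₀ hne
        _ ≤ C * (2 * N ^ 6) := Nat.mul_le_mul_left _ h2
        _ = 2 * C * N ^ 6 := by ring
        _ ≤ (2 * C) ^ 6 * N ^ 6 := Nat.mul_le_mul_right _ h3
        _ = (2 * C * N) ^ 6 := (mul_pow _ _ _).symm
  exact_mod_cast h1

end Pool.Agent.P.MP_246241_nt.BV
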