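import Pool.Agent.P.MP_246241_nt.BV.Iface

/-! Step DOM. -/

set_option autoImplicit false
set_option linter.unusedSectionVars false

namespace Pool.Agent.P.MP_246241_nt.BV

open Finset
open scoped Classical MatrixGroups

theorem p_DOM (hFRAME : S_FRAME) (hSTEP : S_STEP) (hMULT : S_MULT) :
    S_DOM := by
  intro p j hp H l b X S S' hH hX h1 h2 h3 y
  have p0 : 0 < p := hp.out.pos
  have f1 : ∀ a ∈ S, Frame p H l a (fr p H l a) := fun a ha =>
    fr_spec (hFRAME p H l a p0 hH (h2 a ha))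
  have f2 : ∀ a ∈ S', Frame p H (l + 2 * b) a (fr p H (l + 2 * b) a) := fun a ha =>
    fr_spec (hFRAME p H _ a p0 hH (h3 a ha))
  have key := card_le_mul_card_image_of_maps_to
    (s := {a ∈ S' | (y * (red p j (fr p H (l + 2 * b) a))⁻¹) 1 0 = 0})
    (t := {x ∈ ball X ×ˢ S | (y * red p j x.1 * (red p j (fr p H l x.2))⁻¹) 1 0 = 0})
    (f := fun a => ((fr p H (l + 2 * b) a)⁻¹ * fr p H l (a / p ^ (2 * b)), a / p ^ (2 * b)))
    (fun a ha => by
      obtain ⟨ha, e⟩ := mem_filter.1 ha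
      refine mem_filter.2 ⟨mem_product.2 ⟨mem_ball.2
        ((hSTEP p H l b a _ _ p0 (f1 _ (h1 a ha)) (f2 a ha)).trans hX), h1 a ha⟩, ?_⟩
      rwa [map_mul, map_inv, ← mul_assoc, mul_inv_cancel_right])
    (33 * H) fun x _ => hMULT p H (l + 2 * b) (fr p H l x.2 * x.1⁻¹) _ p0 hH fun a ha => by
      obtain ⟨hb, e⟩ := mem_filter.1 ha
      rw [← e, mul_inv_rev, inv_inv, mul_inv_cancel_left]
      exact f2 a (mem_filter.1 hb).1
  rw [card_filter _ (ball X ×ˢ S), sum_product] at key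
  simp only [← card_filter] at key
  rw [AA_apply]
  unfold FF
  exact_mod_cast key

end Pool.Agent.P.MP_246241_nt.BV
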