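import Pool.Agent.P.MP_246241_nt.BV.Iface

/-! Step EDEN. -/

set_option autoImplicit false
set_option linter.unusedSectionVars false

namespace Pool.Agent.P.MP_246241_nt.BV

open Finset
open scoped Classical MatrixGroups

namespace EDENx

variable {p : ℕ} [Fact p.Prime] {j i : ℕ}

theorem not_unit (hj : 1 ≤ j) : ¬ IsUnit (p : RR p j) := fun h => by
  have h1 := h.pow j
  rw [pow_eq_zero' le_rfl, isUnit_zero_iff] at h1
  have h2 := (int_dvd_iff (p := p) hj 1).1 (by rw [Int.cast_one, ← h1]; exact dvd_zero _)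
  have h3 := Int.le_of_dvd one_pos h2
  have : (2 : ℤ) ≤ p := mod_cast two_le
  rw [pow_one] at h3
  omega

theorem key (h1 : 1 ≤ i) (h2 : i ≤ j) (w₀ w₁ : RR p j) (hw : IsUnit w₀) :
    (#{y : GG p j | (p : RR p j) ^ i ∣ y 1 0 * w₀ + y 1 1 * w₁} : ℝ) * (p : ℝ) ^ i ≤ oG p j := by
  have a : ∀ y : GG p j, #{u : RR p j | (p : RR p j) ^ i ∣
      (y * LL u) 1 0 * w₀ + (y * LL u) 1 1 * w₁} ≤ #{w : RR p j | (p : RR p j) ^ i ∣ w} := by
    intro y
    simp only [mul_ent, LL_ent, mul_one, mul_zero, zero_add]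
    by_cases hy : IsUnit (y 1 1)
    · refine card_le_card_of_injOn (fun u => (y 1 0 + y 1 1 * u) * w₀ + y 1 1 * w₁)
        (fun u hu => by simpa using hu) fun u _ v _ e => ?_
      exact hy.mul_left_cancel (add_left_cancel (hw.mul_right_cancel (add_right_cancel e)))
    · rw [filter_eq_empty_iff.2 fun u _ hu => not_unit (p := p) (h1.trans h2) ?_, card_empty]
      · exact Nat.zero_le _
      obtain ⟨z, hz⟩ := (unit_or_dvd (y 1 1)).resolve_left hy
      refine isUnit_of_dvd_unit ?_ (((unit_or_unit y).resolve_left hy).mul hw)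
      have := dvd_sub ((dvd_pow_self _ (by omega)).trans hu) (dvd_mul_right _ (z * (u * w₀ + w₁)))
      convert this using 1
      rw [hz]; ring
  have b : p ^ j * #{y : GG p j | (p : RR p j) ^ i ∣ y 1 0 * w₀ + y 1 1 * w₁} ≤
      Fintype.card (GG p j) * #{w : RR p j | (p : RR p j) ^ i ∣ w} := by
    refine le_trans (le_of_eq ?_) ((sum_le_sum fun y _ => a y).trans_eq (by
      rw [sum_const, card_univ, smul_eq_mul]))
    simp only [card_filter]
    rw [sum_comm]
    refine Eq.symm ((sum_congr rfl fun u _ => Equiv.sum_comp (Equiv.mulRight (LL u))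
      fun y : GG p j => if (p : RR p j) ^ i ∣ y 1 0 * w₀ + y 1 1 * w₁ then 1 else 0).trans ?_)
    rw [sum_const, card_univ, card_RR, smul_eq_mul]
  have c := (Nat.mul_le_mul_right (p ^ i) b).trans
    ((mul_assoc _ _ _).trans_le (Nat.mul_le_mul_left _ (card_mult h2)))
  rw [mul_assoc, mul_comm (Fintype.card _)] at c
  have d := Nat.le_of_mul_le_mul_left c (NeZero.pos _)
  rw [oG]
  exact_mod_cast d

theorem unit (h : 1 ≤ j) {w : ℤ} (hw : ¬ (p : ℤ) ∣ w) : IsUnit (w : RR p j) :=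
  (unit_or_dvd _).resolve_right fun e => hw (by
    simpa using (int_dvd_iff h w).1 (by simpa using e))

end EDENx

theorem p_EDEN :
    S_EDEN := by
  intro p j _ i w₀ w₁ h1 h2 hw
  by_cases h : (p : ℤ) ∣ w₀
  · refine le_trans (le_of_eq ?_) (EDENx.key h1 h2 (w₁ : RR p j) (-w₀)
      (EDENx.unit (h1.trans h2) fun e => hw ⟨h, e⟩))
    congr 2
    refine card_equiv (Equiv.mulRight (WW _)) fun y => ?_
    simp [mul_ent, WW_ent, add_comm]
  · exact EDENx.key h1 h2 _ _ (EDENx.unit (h1.trans h2) h)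

end Pool.Agent.P.MP_246241_nt.BV
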