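import Pool.Agent.P.MP_246241_nt.BV.Iface

/-! Step ESET. -/

set_option autoImplicit false
set_option linter.unusedSectionVars false

namespace Pool.Agent.P.MP_246241_nt.BV

open Finset
open scoped Classical MatrixGroups

namespace ESETx

/-- The admissible vectors in a box. -/
noncomputable def box (p om : ℕ) : Finset (ℤ × ℤ) :=
  (Icc (-(om : ℤ)) om ×ˢ Icc (-(om : ℤ)) om).filter fun w => ¬ ((p : ℤ) ∣ w.1 ∧ (p : ℤ) ∣ w.2)

theorem card_box (p om : ℕ) : #(box p om) ≤ 9 * om ^ 2 := by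
  rcases Nat.eq_zero_or_pos om with rfl | h
  · have : box p 0 = ∅ := by
      refine filter_eq_empty_iff.2 fun w hw => not_not.2 ?_
      simp only [Nat.cast_zero, neg_zero, Icc_self, mem_product, mem_singleton] at hw
      rw [hw.1, hw.2]
      exact ⟨dvd_zero _, dvd_zero _⟩
    rw [this]; simp
  · refine (card_filter_le _ _).trans ?_
    rw [card_product, Int.card_Icc, show ((om : ℤ) + 1 - -(om : ℤ)).toNat = 2 * om + 1 by omega]
    nlinarith

theorem mem_Icc_of {H N : ℕ} (hH : 1 ≤ H) {w : ℤ} (h : H * w ^ 2 ≤ (N : ℤ)) :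
    w ∈ Icc (-(Nat.sqrt (N / H) : ℤ)) (Nat.sqrt (N / H)) := by
  have h1 : w.natAbs ^ 2 * H ≤ N := by
    have : ((w.natAbs ^ 2 * H : ℕ) : ℤ) ≤ N := by
      push_cast
      rw [sq_abs, mul_comm]; exact h
    exact_mod_cast this
  have h2 : w.natAbs ≤ Nat.sqrt (N / H) := Nat.le_sqrt'.2 ((Nat.le_div_iff_mul_le hH).2 h1)
  rw [mem_Icc]
  omega

theorem mul_card (p H N : ℕ) : H * #(box p (Nat.sqrt (N / H))) ≤ 9 * N := by
  have h1 := card_box p (Nat.sqrt (N / H))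
  have h2 : Nat.sqrt (N / H) ^ 2 ≤ N / H := Nat.sqrt_le' _
  have h3 : H * (N / H) ≤ N := Nat.mul_div_le _ _
  calc H * #(box p (Nat.sqrt (N / H))) ≤ H * (9 * (N / H)) :=
        Nat.mul_le_mul_left _ (h1.trans (Nat.mul_le_mul_left _ h2))
    _ = 9 * (H * (N / H)) := by ring
    _ ≤ 9 * N := Nat.mul_le_mul_left _ h3

end ESETx

open ESETx in
theorem p_ESET (hEDEN : S_EDEN) :
    S_ESET := by
  intro p j _ H₀ H hH
  refine ⟨(Icc 1 j).biUnion fun i => (box p (Nat.sqrt (16 * H₀ * p ^ i / H))).biUnion fun w =>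
    {y : GG p j | (p : RR p j) ^ i ∣ y 1 0 * w.1 + y 1 1 * w.2}, ?_, ?_⟩
  · have hp : (0 : ℝ) < p := lt_of_lt_of_le (by norm_num) (two_le' (p := p))
    have key : ∀ i ∈ Icc 1 j, (H : ℝ) * #((box p (Nat.sqrt (16 * H₀ * p ^ i / H))).biUnion fun w =>
        ({y : GG p j | (p : RR p j) ^ i ∣ y 1 0 * w.1 + y 1 1 * w.2} : Finset (GG p j))) ≤
        144 * H₀ * oG p j := by
      intro i hi
      rw [mem_Icc] at hi
      have hpi : (0 : ℝ) < (p : ℝ) ^ i := pow_pos hp i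
      have h1 : (#((box p (Nat.sqrt (16 * H₀ * p ^ i / H))).biUnion fun w =>
          ({y : GG p j | (p : RR p j) ^ i ∣ y 1 0 * w.1 + y 1 1 * w.2} : Finset (GG p j))) : ℝ) ≤
          #(box p (Nat.sqrt (16 * H₀ * p ^ i / H))) * (oG p j / (p : ℝ) ^ i) := by
        refine (Nat.cast_le.2 card_biUnion_le).trans ?_
        rw [Nat.cast_sum, ← nsmul_eq_mul]
        refine sum_le_card_nsmul _ _ _ fun w hw => ?_
        rw [le_div_iff₀ hpi]
        exact hEDEN p j i w.1 w.2 hi.1 hi.2 (mem_filter.1 hw).2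
      have h2 : (H : ℝ) * #(box p (Nat.sqrt (16 * H₀ * p ^ i / H))) ≤ 9 * (16 * H₀ * p ^ i) := by
        exact_mod_cast mul_card p H (16 * H₀ * p ^ i)
      have h3 : 0 ≤ oG p j / (p : ℝ) ^ i := div_nonneg oG_pos.le hpi.le
      refine (mul_le_mul_of_nonneg_left h1 (Nat.cast_nonneg H)).trans ?_
      rw [← mul_assoc]
      refine (mul_le_mul_of_nonneg_right h2 h3).trans (le_of_eq ?_)
      field_simp
      ring
    refine (mul_le_mul_of_nonneg_left (Nat.cast_le.2 card_biUnion_le) (Nat.cast_nonneg H)).trans ?_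
    rw [Nat.cast_sum, mul_sum]
    refine (sum_le_card_nsmul _ _ _ key).trans (le_of_eq ?_)
    rw [Nat.card_Icc, nsmul_eq_mul, Nat.add_sub_cancel]
    ring
  · intro y i w₀ w₁ h1 h2 h3 h4 h5 h6
    refine mem_biUnion.2 ⟨i, mem_Icc.2 ⟨h1, h2⟩, mem_biUnion.2 ⟨(w₀, w₁), mem_filter.2
      ⟨mem_product.2 ⟨mem_Icc_of hH (by exact_mod_cast h4), mem_Icc_of hH (by exact_mod_cast h5)⟩,
        h3⟩, mem_filter.2 ⟨mem_univ _, h6⟩⟩⟩

end Pool.Agent.P.MP_246241_nt.BV
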