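import Pool.Agent.P.MP_246241_nt.BV.Iface

/-! Step FFB. -/

set_option autoImplicit false
set_option linter.unusedSectionVars false

namespace Pool.Agent.P.MP_246241_nt.BV

open Finset
open scoped Classical MatrixGroups

namespace FFBx

theorem low {R : Type} [CommRing R] (b z : SL(2, R)) (h : b 1 0 = 0) :
    (b * z) 1 0 = 0 ↔ z 1 0 = 0 := by
  have d := det_ent b
  rw [h, mul_zero, sub_zero] at d
  rw [mul_ent, h, zero_mul, zero_add]
  exact ⟨fun e => by linear_combination b 0 0 * e - z 1 0 * d, fun e => by rw [e, mul_zero]⟩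

end FFBx

theorem p_FFB :
    S_FFB := by
  intro p j _ H l S
  have hs : ∑ y, FF p j H l S y = oB p j * #S := by
    simp only [FF, card_filter, Nat.cast_sum, Nat.cast_ite, Nat.cast_one, Nat.cast_zero]
    rw [sum_comm, sum_congr rfl fun a _ => sum_mul_right
      (fun y : GG p j => if y 1 0 = 0 then (1 : ℝ) else 0) (red p j (fr p H l a))⁻¹, sum_const,
      nsmul_eq_mul, mul_comm, oB, card_filter]
    simp
  refine ⟨fun b y h => ?_, hs, ?_⟩
  · simp only [FF, mul_assoc, FFBx.low b _ h]
  · have h1 : nn (FF p j H l S) ≤ ∑ y, (#S : ℝ) * FF p j H l S y := by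
      refine sum_le_sum fun y _ => ?_
      rw [sq]
      exact mul_le_mul_of_nonneg_right (Nat.cast_le.2 (card_filter_le _ _)) (FF_nonneg _ _ _ _ _ _)
    rw [← mul_sum, hs] at h1
    exact h1.trans_eq (by ring)

end Pool.Agent.P.MP_246241_nt.BV
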