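import Pool.Agent.P.MP_246241_nt.BV.Iface

/-! Step FIN. -/

set_option autoImplicit false
set_option linter.unusedSectionVars false

namespace Pool.Agent.P.MP_246241_nt.BV

open Finset
open scoped Classical MatrixGroups

namespace FINx

theorem exists_v (c : ℕ) : ∃ v, 4 * c * (v + 4) ≤ 2 ^ v := by
  refine ⟨20 * c + 20 * c, ?_⟩
  have h : 20 * c + 1 ≤ 2 ^ (20 * c) := Nat.lt_two_pow_self
  rw [pow_add]
  refine le_trans ?_ (Nat.mul_le_mul h h)
  nlinarith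

theorem exists_l {p c v m q L : ℕ} (hp : 2 ≤ p) (hc : 1 ≤ c) (hv : 4 * c * (v + 4) ≤ 2 ^ v)
    (hq : 1 ≤ q) (hqL : q < 2 ^ L) (hm : m < L) : ∃ l, 4 * q ^ 2 * (c * (m + l + 1)) ≤ p ^ l ∧
      p ^ l ≤ p * (4 * q ^ 2 * (c * ((v + 4) * L))) := by
  have h0 : 4 * q ^ 2 * (c * (m + (v + 3) * L + 1)) ≤ p ^ ((v + 3) * L) := by
    have h1 : m + (v + 3) * L + 1 ≤ (v + 4) * L := by nlinarith
    have h2 : L ≤ 2 ^ L := Nat.lt_two_pow_self.le
    calc 4 * q ^ 2 * (c * (m + (v + 3) * L + 1)) ≤ 4 * q ^ 2 * (c * ((v + 4) * L)) := by gcongr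
      _ = q * q * L * (4 * c * (v + 4)) := by ring
      _ ≤ 2 ^ L * 2 ^ L * 2 ^ L * 2 ^ v := by gcongr
      _ = 2 ^ (3 * L + v) := by ring
      _ ≤ 2 ^ ((v + 3) * L) := Nat.pow_le_pow_right two_pos (by nlinarith)
      _ ≤ p ^ ((v + 3) * L) := Nat.pow_le_pow_left hp _
  have hex : ∃ l, 4 * q ^ 2 * (c * (m + l + 1)) ≤ p ^ l := ⟨_, h0⟩
  refine ⟨Nat.find hex, Nat.find_spec hex, ?_⟩
  have hle : Nat.find hex ≤ (v + 3) * L := Nat.find_min' hex h0
  rcases hl : Nat.find hex with _ | l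
  · have := Nat.find_spec hex
    rw [hl, pow_zero] at this
    have h3 : 1 ≤ q ^ 2 * (c * (m + 0 + 1)) := Nat.succ_le_of_lt (by positivity)
    nlinarith
  · have h3 := not_le.1 (Nat.find_min hex (m := l) (by omega))
    have h4 : m + l + 1 ≤ (v + 4) * L := by nlinarith
    rw [pow_succ']
    refine Nat.mul_le_mul_left _ (h3.le.trans ?_)
    gcongr

theorem log_le {k : ℕ} (hk : 2 ≤ k) : ((Nat.log 2 k + 1 : ℕ) : ℝ) ≤ 3 * Real.log k := by
  have h1 := Real.natLog_le_logb k 2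
  have h2 := Real.log_two_gt_d9
  have h3 : Real.log 2 ≤ Real.log k := Real.log_le_log two_pos (by exact_mod_cast hk)
  rw [Real.logb, Nat.cast_ofNat, le_div_iff₀ (by linarith)] at h1
  have h4 : (0 : ℝ) ≤ Nat.log 2 k := Nat.cast_nonneg _
  push_cast
  nlinarith

theorem core {P Q H A R δ x : ℝ} (hQ : 0 < Q) (hH : 0 < H) (hP : 0 ≤ P) (hA : |A| ≤ 1)
    (hδ : |R| = δ) (hx : x = P * R - Q * A) (h1 : 4 * Q ^ 2 * H ≤ P) (h2 : P < H * x ^ 2) :
    Q < P * δ := by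
  have h3 : (2 * Q) ^ 2 < x ^ 2 := lt_of_mul_lt_mul_left (a := H) (by nlinarith) hH.le
  have h4 : 2 * Q < |x| := by
    rw [← sq_abs x] at h3
    exact lt_of_pow_lt_pow_left₀ 2 (abs_nonneg _) h3
  have h5 : |x| ≤ P * δ + Q * |A| := by
    rw [hx, ← hδ]
    refine (abs_sub _ _).trans (le_of_eq ?_)
    rw [abs_mul, abs_mul, abs_of_nonneg hP, abs_of_pos hQ]
  nlinarith

end FINx

theorem p_FIN :
    S_FIN := by
  intro p c α hp hc h
  have : Fact p.Prime := ⟨hp⟩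
  obtain ⟨v, hv⟩ := FINx.exists_v c
  have hp0 : (0 : ℝ) < p := by exact_mod_cast hp.pos
  have hc0 : (0 : ℝ) < c := by exact_mod_cast hc
  refine ⟨1 / (12 * p * c * (v + 4)), by positivity, fun k hk => ?_⟩
  obtain ⟨q, hq⟩ := pow_padicValNat_dvd (p := p) (n := k)
  set m := padicValNat p k with hm
  have hq1 : 1 ≤ q := Nat.pos_of_ne_zero fun e => by rw [e] at hq; omega
  have hq0 : (0 : ℝ) < q := by exact_mod_cast hq1
  have hkq : (k : ℝ) = p ^ m * q := by exact_mod_cast hq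
  have hn : (k : ℝ) * ((padicNorm p (k : ℚ) : ℚ) : ℝ) = q := by
    rw [padicNorm.eq_zpow_of_nonzero (by exact_mod_cast (by omega : k ≠ 0)), padicValRat.of_nat,
      ← hm, hkq]
    push_cast
    rw [zpow_neg, zpow_natCast]
    field_simp
  have hL := Nat.lt_pow_succ_log_self (b := 2) one_lt_two k
  have hpm : 2 ^ m ≤ p ^ m := Nat.pow_le_pow_left hp.two_le _
  have h2m : 1 ≤ 2 ^ m := Nat.one_le_two_pow
  obtain ⟨l, l1, l2⟩ := FINx.exists_l (m := m) (L := Nat.log 2 k + 1) hp.two_le hc hv hq1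
    (lt_of_le_of_lt (by nlinarith) hL)
    ((Nat.pow_lt_pow_iff_right one_lt_two).1 (lt_of_le_of_lt (by nlinarith) hL))
  obtain ⟨a, ha, hs⟩ := h (m + l)
  have l1' : 4 * (q : ℤ) ^ 2 * ((c * (m + l + 1) : ℕ) : ℤ) ≤ (p : ℤ) ^ l := by exact_mod_cast l1
  have h3 : (p : ℤ) ^ l < ((c * (m + l + 1) : ℕ) : ℤ) * (q * a - round (k * α) * p ^ l) ^ 2 := by
    refine not_le.1 fun e => hs l (Nat.le_add_left _ _) ⟨q, round (k * α), Or.inl (by omega), e, ?_⟩
    have : 0 ≤ ((c * (m + l + 1) : ℕ) : ℤ) * (q : ℤ) ^ 2 := by positivity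
    linarith
  have h4 := FINx.core (P := (p : ℝ) ^ l) (Q := q) (H := ((c * (m + l + 1) : ℕ) : ℝ))
    (x := q * a - round (k * α) * p ^ l) (R := k * α - round (k * α)) hq0
    (by exact_mod_cast (by positivity : 0 < c * (m + l + 1))) (by positivity) ha rfl
    (by rw [hkq]; ring) (by exact_mod_cast l1) (by exact_mod_cast h3)
  have l2' : (p : ℝ) ^ l ≤ p * (4 * q ^ 2 * (c * ((v + 4) * (3 * Real.log k)))) := by
    have h5 : (p : ℝ) ^ l ≤ p * (4 * q ^ 2 * (c * ((v + 4) * (Nat.log 2 k + 1 : ℕ)))) := by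
      exact_mod_cast l2
    refine h5.trans ?_
    have := FINx.log_le hk
    gcongr
  rw [hn, div_le_iff₀ (by positivity)]
  have h6 := h4.trans_le (mul_le_mul_of_nonneg_right l2' (abs_nonneg _))
  refine le_of_mul_le_mul_left ?_ hq0
  linarith

end Pool.Agent.P.MP_246241_nt.BV
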