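import Pool.Agent.P.MP_246241_nt.BV.Iface

/-! Step FRAME. -/

set_option autoImplicit false
set_option linter.unusedSectionVars false

namespace Pool.Agent.P.MP_246241_nt.BV

open Finset
open scoped Classical MatrixGroups

theorem FRAMEx.num {P H q x q' x' : ℤ} (hP : 0 < P) (hH : 0 ≤ H) (e : (x * q' - x' * q) ^ 2 = P ^ 2)
    (h : 4 * (q * q' + x * x') ^ 2 ≤ (q ^ 2 + x ^ 2) * (q' ^ 2 + x' ^ 2))
    (k : ¬(H * x' ^ 2 ≤ P ∧ H * q' ^ 2 ≤ P)) : q ^ 2 ≤ 4 * P * H ∧ x ^ 2 ≤ 4 * P * H := by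
  have h1 : P ≤ H * (q' ^ 2 + x' ^ 2) := by
    have := mul_nonneg hH (sq_nonneg x')
    have := mul_nonneg hH (sq_nonneg q')
    rw [mul_add]
    omega
  have h2 : (q ^ 2 + x ^ 2) * (q' ^ 2 + x' ^ 2) ≤ 4 * P ^ 2 := by nlinarith
  have h3 : P * (q ^ 2 + x ^ 2) ≤ P * (4 * P * H) := by
    nlinarith [mul_le_mul_of_nonneg_left h2 hH,
      mul_le_mul_of_nonneg_right h1 (add_nonneg (sq_nonneg q) (sq_nonneg x))]
  have h4 := le_of_mul_le_mul_left h3 hP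
  constructor <;> nlinarith [sq_nonneg q, sq_nonneg x]

theorem p_FRAME :
    S_FRAME := by
  intro p H l a hp _ hs
  have hP : (0 : ℤ) < p ^ l := by positivity
  obtain ⟨_, ⟨q, q', r, r', hd, rfl⟩, hm⟩ := Int.exists_least_of_bdd
    (P := fun z => ∃ q q' r r' : ℤ, q * r' - q' * r = 1 ∧
      z = q ^ 2 + (q * a - r * p ^ l) ^ 2 + (q' ^ 2 + (q' * a - r' * p ^ l) ^ 2))
    ⟨0, by rintro _ ⟨q, q', r, r', -, rfl⟩; positivity⟩ ⟨_, 1, 0, 0, 1, by norm_num, rfl⟩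
  have h1 := hm _ ⟨q + q', q', r + r', r', by linear_combination hd, rfl⟩
  have h2 := hm _ ⟨q - q', q', r - r', r', by linear_combination hd, rfl⟩
  have h3 := hm _ ⟨q, q' + q, r, r' + r, by linear_combination hd, rfl⟩
  have h4 := hm _ ⟨q, q' - q, r, r' - r, by linear_combination hd, rfl⟩
  have k1 : ¬_ := fun h => hs ⟨q, r, by
    by_contra! k
    simp [k] at hd, h⟩
  have k2 : ¬_ := fun h => hs ⟨q', r', by
    by_contra! k
    simp [k] at hd, h⟩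
  have e : (q * a - r * p ^ l) * q' - (q' * a - r' * p ^ l) * q = p ^ l := by
    linear_combination (p : ℤ) ^ l * hd
  rw [show ∀ x y z w : ℤ, (x + y) * a - (z + w) * p ^ l =
    x * a - z * p ^ l + (y * a - w * p ^ l) from fun _ _ _ _ => by ring] at h1 h3
  rw [show ∀ x y z w : ℤ, (x - y) * a - (z - w) * p ^ l =
    x * a - z * p ^ l - (y * a - w * p ^ l) from fun _ _ _ _ => by ring] at h2 h4
  refine ⟨⟨!![q, q'; r, r'], by rw [Matrix.det_fin_two_of, hd]⟩, Fin.forall_fin_two.2 ?_⟩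
  change (q ^ 2 ≤ _ ∧ (q * a - r * p ^ l) ^ 2 ≤ _) ∧ q' ^ 2 ≤ _ ∧ (q' * a - r' * p ^ l) ^ 2 ≤ _
  generalize q * a - r * p ^ l = x at *
  generalize q' * a - r' * p ^ l = x' at *
  have h5 : 4 * (q * q' + x * x') ^ 2 ≤ (q ^ 2 + x ^ 2) * (q' ^ 2 + x' ^ 2) := by
    nlinarith [mul_nonneg (sub_nonneg.2 h1) (sub_nonneg.2 h4),
      mul_nonneg (sub_nonneg.2 h2) (sub_nonneg.2 h3)]
  exact ⟨FRAMEx.num hP H.cast_nonneg (by rw [e]) h5 k2,
    FRAMEx.num hP H.cast_nonneg (by rw [← e]; ring) (by linarith) k1⟩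

end Pool.Agent.P.MP_246241_nt.BV
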