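import Pool.Agent.P.MP_246241_nt.BV.Iface

/-! Step GAP. -/

set_option autoImplicit false
set_option linter.unusedSectionVars false

namespace Pool.Agent.P.MP_246241_nt.BV

open Finset
open scoped Classical MatrixGroups

namespace GAPx

theorem ex (p M : ℕ) (hp : 2 ≤ p) (hM : 1 ≤ M) : ∃ i, M ≤ p ^ i ∧ p ^ i ≤ p * M := by
  have ex : ∃ i, M ≤ p ^ i := ⟨_, (Nat.lt_pow_self (by omega)).le⟩
  refine ⟨Nat.find ex, Nat.find_spec ex, ?_⟩
  rcases h : Nat.find ex with _ | i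
  · exact Nat.succ_le_of_lt (by positivity)
  · rw [pow_succ']
    exact Nat.mul_le_mul_left _ (not_le.1 (Nat.find_min ex (by omega))).le

theorem num {p q b Y : ℝ} (hY : 1 ≤ Y) (p0 : 0 ≤ p) (q0 : 0 ≤ q) (b0 : 0 ≤ b)
    (hq : q ≤ p * (2 * Y ^ 24) ^ 7) (hb : b ≤ (3 * Y ^ 24) ^ 4) :
    q ^ 3 * b ^ 2 ≤ p ^ 3 * 2 ^ 21 * 3 ^ 8 * Y ^ 700 :=
  calc _ ≤ (p * (2 * Y ^ 24) ^ 7) ^ 3 * ((3 * Y ^ 24) ^ 4) ^ 2 := by gcongr
    _ = p ^ 3 * 2 ^ 21 * 3 ^ 8 * Y ^ 696 := by ring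
    _ ≤ _ := by gcongr; norm_num

theorem fin {x y n g k s b q C D u v : ℝ} (g0 : 0 ≤ g) (y0 : 0 ≤ y) (q0 : 0 ≤ q) (n0 : 0 ≤ n)
    (C0 : 0 ≤ C) (D0 : 0 ≤ D) (u0 : 0 ≤ u) (v0 : 0 ≤ v) (a : x ≤ C * u * n + y) (i : g ≤ q * k)
    (l : k * y ≤ b ^ 2 * s ^ 2) (d : q * b ^ 2 ≤ D * v) :
    x * g ≤ (C + D) * u * (n * g) + (C + D) * v * s ^ 2 := by
  have e1 := mul_le_mul_of_nonneg_right a g0
  have e2 := mul_le_mul_of_nonneg_left i y0
  have e3 := mul_le_mul_of_nonneg_left l q0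
  have e4 := mul_le_mul_of_nonneg_right d (sq_nonneg s)
  have e5 : 0 ≤ D * u * (n * g) := by positivity
  have e6 : 0 ≤ C * v * s ^ 2 := by positivity
  linarith

end GAPx

theorem p_GAP (hNEW : S_NEW) (hORTH : S_ORTH) (hLOW : S_LOW) (hIDX : S_IDX) :
    S_GAP := by
  intro p _
  obtain ⟨C, C0, hC⟩ := hNEW p
  have p2 : 2 ≤ p := two_le
  refine ⟨C + (p : ℝ) ^ 3 * 2 ^ 21 * 3 ^ 8, by positivity, fun j Y F hY hF F0 => ?_⟩
  obtain ⟨i, h1, h2⟩ := GAPx.ex p ((2 * Y ^ 24) ^ 7) p2 (Nat.succ_le_of_lt (by positivity))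
  have a := hORTH (GG p j) (KP p j) (AA p j (Y ^ 24)) Inv (C * (Y : ℝ) ^ 94) i KP_anti
    (fun _ => EE_cv _ _ _) (fun _ _ => Inv.sub)
    (fun _ _ h b y hb => by simp only [EE_apply, mul_assoc, h b _ hb]) (by positivity)
    (fun e f he hf e1 e2 => by
      by_cases h : e + 1 ≤ j
      · exact hC j e Y f hY (h1.trans (Nat.pow_le_pow_right (one_le_two.trans p2) he)) h hf e1 e2
      · rw [KP_bot (Nat.le_of_lt_succ (not_le.1 h)), EE_bot] at e2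
        rw [e2, map_zero, nn_zero, mul_zero]) j F hF (by rw [KP_bot (Nat.le_add_left _ _), EE_bot])
  have c : (#(ball (Y ^ 24)) : ℝ) ≤ (3 * (Y : ℝ) ^ 24) ^ 4 := by
    have := (card_ball (Y ^ 24)).trans (Nat.pow_le_pow_left
      (show 2 * Y ^ 24 + 1 ≤ 3 * Y ^ 24 by have := Nat.one_le_pow 24 Y hY; linarith only [this]) 4)
    exact_mod_cast this
  have d := GAPx.num (q := (p : ℝ) ^ i) (p := p) (Y := Y) (mod_cast hY) (by positivity)
    (by positivity) (by positivity) (mod_cast h2) c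
  rw [← pow_mul, mul_comm i] at d
  exact GAPx.fin oG_pos.le (nn_nonneg _) (by positivity) (nn_nonneg _) C0 (by positivity)
    (by positivity) (by positivity) a ((hIDX p j).1 i)
    (hLOW (GG p j) Ga (KP p j i) (ball (Y ^ 24)) (red p j) F F0) d

end Pool.Agent.P.MP_246241_nt.BV
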