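import Pool.Agent.P.MP_246241_nt.BV.Iface

/-! Step HAR. -/

set_option autoImplicit false
set_option linter.unusedSectionVars false

namespace Pool.Agent.P.MP_246241_nt.BV

open Finset
open scoped Classical MatrixGroups

namespace HARx

theorem pw (l : ℕ) : (l + 1) ^ 4 ≤ 256 * 2 ^ l := by
  induction l with
  | zero => norm_num
  | succ l ih =>
    by_cases h : l < 5
    · interval_cases l <;> norm_num
    · obtain ⟨m, rfl⟩ := Nat.exists_eq_add_of_le (not_lt.1 h)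
      have : (5 + m + 1 + 1) ^ 4 ≤ 2 * (5 + m + 1) ^ 4 := by
        ring_nf
        omega
      rw [pow_succ 2]
      omega

end HARx

theorem p_HAR (hDIV : S_DIV) (hCNT : S_CNT) (hDY : S_DY) :
    S_HAR := by
  obtain ⟨C₀, hC⟩ := hDIV
  refine ⟨2 * (8 * (30 ^ 4 * |C₀| + 12 ^ 4) + 256 * 256), by positivity, fun N T hN hT => ?_⟩
  obtain ⟨d, hd, hd'⟩ := hC N hN
  have hN' : (1 : ℝ) ≤ N := mod_cast hN
  set l := Nat.log 2 N with hl
  have h1 : N < 2 ^ (l + 1) := Nat.lt_pow_succ_log_self (by norm_num) N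
  have h2 : 2 ^ l ≤ N := Nat.pow_log_le_self 2 (by omega)
  have h3 := hDY Ga (3 * (l + 1)) {γ ∈ ball T | Cg N γ} (fun γ => (nm γ : ℝ)) 1 (30 * d + 12)
    one_pos (by positivity) (fun γ hγ => ⟨mod_cast nm_pos γ, by
      have a := mem_ball.1 (mem_filter.1 hγ).1
      have b : N ^ 3 ≤ 2 ^ (3 * (l + 1)) := by
        rw [mul_comm, pow_mul]; exact Nat.pow_le_pow_left h1.le 3
      rw [mul_one]
      exact_mod_cast (a.trans hT).trans b⟩) (fun Z hZ => by
      have hs : {γ ∈ {γ ∈ ball T | Cg N γ} | (nm γ : ℝ) ≤ Z} ⊆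
          {γ ∈ ball (min T ⌊Z⌋₊) | Cg N γ} := by
        intro γ hγ
        simp only [mem_filter, mem_ball] at hγ ⊢
        exact ⟨le_min hγ.1.1 (Nat.le_floor hγ.2), hγ.1.2⟩
      have hZ0 : (0 : ℝ) ≤ Z := by linarith
      rcases Nat.eq_zero_or_pos (min T ⌊Z⌋₊) with h0 | h0
      · have : {γ ∈ ball (min T ⌊Z⌋₊) | Cg N γ} = ∅ := by
          refine eq_empty_of_forall_notMem fun γ hγ => ?_
          have a := mem_ball.1 (mem_filter.1 hγ).1
          have b := nm_pos γ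
          omega
        rw [this] at hs
        rw [subset_empty.1 hs, card_empty, Nat.cast_zero]
        positivity
      · have a := (card_le_card hs).trans (hCNT N d _ hN h0 ((min_le_left _ _).trans hT) hd')
        have b : ((min T ⌊Z⌋₊ : ℕ) : ℝ) ≤ Z :=
          le_trans (mod_cast min_le_right _ _) (Nat.floor_le hZ0)
        calc _ ≤ (((30 * d + 12) * min T ⌊Z⌋₊ : ℕ) : ℝ) := mod_cast a
          _ = (30 * d + 12) * ((min T ⌊Z⌋₊ : ℕ) : ℝ) := by push_cast; rfl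
          _ ≤ _ := mul_le_mul_of_nonneg_left b (by positivity))
  have h4 : (0 : ℝ) ≤ ∑ γ ∈ ball T with Cg N γ, 1 / (nm γ : ℝ) := sum_nonneg fun _ _ => by
    positivity
  have h5 : ((30 : ℝ) * d + 12) ^ 4 ≤ 8 * (30 ^ 4 * |C₀| + 12 ^ 4) * N := by
    have a := add_pow_le (a := (30 : ℝ) * d) (b := 12) (by positivity) (by norm_num) 4
    have b : (d : ℝ) ^ 4 ≤ |C₀| * N :=
      hd.trans (mul_le_mul_of_nonneg_right (le_abs_self _) (by positivity))
    rw [mul_pow] at a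
    norm_num at a ⊢
    nlinarith
  have h6 : (((3 * (l + 1) : ℕ) : ℝ) + 1) ^ 4 ≤ 256 * 256 * N := by
    have a : (3 * (l + 1) + 1) ^ 4 ≤ 256 * 256 * N :=
      calc _ ≤ (4 * (l + 1)) ^ 4 := Nat.pow_le_pow_left (by omega) 4
        _ = 256 * (l + 1) ^ 4 := by ring
        _ ≤ 256 * (256 * 2 ^ l) := Nat.mul_le_mul_left _ (HARx.pw l)
        _ ≤ _ := by omega
    exact_mod_cast a
  refine (pow_le_pow_left₀ h4 h3 2).trans ?_
  generalize ((30 : ℝ) * d + 12) = κ at h5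
  generalize (((3 * (l + 1) : ℕ) : ℝ) + 1) = M at h6
  nlinarith [sq_nonneg (κ ^ 2 - M ^ 2)]

end Pool.Agent.P.MP_246241_nt.BV
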