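import Pool.Agent.P.MP_246241_nt.BV.Iface

/-! Step IDX. -/

set_option autoImplicit false
set_option linter.unusedSectionVars false

namespace Pool.Agent.P.MP_246241_nt.BV

open Finset
open scoped Classical MatrixGroups

namespace IDXx

theorem ent {S : Type} [CommRing S] {g x : SL(2, S)} (h0 : g 0 0 = x 0 0) (h1 : g 1 0 = x 1 0) :
    (g⁻¹ * x) 0 0 = 1 ∧ (g⁻¹ * x) 1 0 = 0 ∧ (g⁻¹ * x) 1 1 = 1 := by
  obtain ⟨a, b, c, d⟩ := inv_ent g
  simp only [mul_ent, a, b, c, d]
  refine ⟨?_, ?_, ?_⟩
  · rw [← h0, ← h1]; linear_combination det_ent g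
  · rw [h0, h1]; ring
  · rw [h0, h1]; linear_combination det_ent x

theorem card_sl (S : Type) [CommRing S] [Finite S] : Nat.card SL(2, S) ≤ Nat.card S ^ 3 := by
  have hex : ∀ c : S × S, ∃ g : SL(2, S), ∀ x : SL(2, S), (x 0 0, x 1 0) = c →
      g 0 0 = x 0 0 ∧ g 1 0 = x 1 0 := fun c => by
    by_cases h : ∃ g : SL(2, S), (g 0 0, g 1 0) = c
    · obtain ⟨g, hg⟩ := h
      exact ⟨g, fun x hx => Prod.ext_iff.1 (hg.trans hx.symm)⟩
    · exact ⟨1, fun x hx => (h ⟨x, hx⟩).elim⟩
  choose g hg using hex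
  have hi : Function.Injective fun x : SL(2, S) =>
      ((x 0 0, x 1 0), ((g (x 0 0, x 1 0))⁻¹ * x) 0 1) := by
    intro x y h
    obtain ⟨h1, h2⟩ := Prod.ext_iff.1 h
    simp only at h1 h2
    rw [← h1] at h2
    obtain ⟨a, b, c⟩ := ent (hg _ x rfl).1 (hg _ x rfl).2
    obtain ⟨a', b', c'⟩ := ent (hg _ y h1.symm).1 (hg _ y h1.symm).2
    exact mul_left_cancel (sl_ext (a.trans a'.symm) h2 (b.trans b'.symm) (c.trans c'.symm))
  have := Nat.card_le_card_of_injective _ hi
  rw [Nat.card_prod, Nat.card_prod] at this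
  calc _ ≤ _ := this
    _ = _ := by ring

theorem card_quot (p j i : ℕ) [hp : Fact p.Prime] :
    Nat.card (RR p j ⧸ Ideal.span {(p : RR p j) ^ i}) ≤ p ^ i := by
  have hs : Function.Surjective fun n : Fin (p ^ i) =>
      Ideal.Quotient.mk (Ideal.span {(p : RR p j) ^ i}) ((n : ℕ) : RR p j) := by
    intro q
    obtain ⟨r, rfl⟩ := Ideal.Quotient.mk_surjective q
    obtain ⟨n, rfl⟩ := ZMod.natCast_zmod_surjective r
    refine ⟨⟨n % p ^ i, Nat.mod_lt _ (pow_pos hp.out.pos _)⟩, ?_⟩
    rw [Ideal.Quotient.eq, Ideal.mem_span_singleton]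
    refine ⟨-((n / p ^ i : ℕ) : RR p j), ?_⟩
    have := congrArg (Nat.cast : ℕ → RR p j) (Nat.mod_add_div n (p ^ i))
    push_cast at this
    linear_combination this
  simpa using Nat.card_le_card_of_surjective _ hs

end IDXx

theorem p_IDX :
    S_IDX := by
  intro p j _
  refine ⟨fun i => ?_, ?_⟩
  · let φ := Matrix.SpecialLinearGroup.map (n := Fin 2)
      (Ideal.Quotient.mk (Ideal.span {(p : RR p j) ^ i}))
    have h1 : Nat.card (GG p j) = Nat.card φ.range * Nat.card φ.ker := by
      rw [Subgroup.card_eq_card_quotient_mul_card_subgroup φ.ker,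
        Nat.card_congr (QuotientGroup.quotientKerEquivRange φ).toEquiv]
    have : Finite (RR p j ⧸ Ideal.span {(p : RR p j) ^ i}) :=
      Finite.of_surjective _ Ideal.Quotient.mk_surjective
    have h2 : Nat.card φ.range ≤ p ^ (3 * i) := by
      refine (Nat.card_le_card_of_injective _ Subtype.val_injective).trans
        ((IDXx.card_sl _).trans ?_)
      rw [pow_mul']
      exact Nat.pow_le_pow_left (IDXx.card_quot p j i) 3
    rw [oG, card_el, ← Nat.card_eq_fintype_card, h1]
    exact_mod_cast Nat.mul_le_mul_right _ h2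
  · have h1 : #{x : GG p j | IsUnit (x 1 1)} ≤ #{y : GG p j | y 1 0 = 0} * p ^ j := by
      refine le_trans ?_ (le_of_eq (show #(({y : GG p j | y 1 0 = 0} : Finset _) ×ˢ
        (univ : Finset (RR p j))) = _ by rw [card_product, card_univ, card_RR]))
      refine card_le_card_of_injOn
        (fun x => (x * LL (-(x 1 0 * Ring.inverse (x 1 1))), x 1 0 * Ring.inverse (x 1 1)))
        (fun x hx => ?_) fun x _ y _ h => ?_
      · simp only [coe_filter, mem_univ, true_and, Set.mem_ofPred_eq] at hx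
        simp only [coe_product, Set.mem_prod, coe_filter, mem_univ, true_and, Set.mem_ofPred_eq,
          coe_univ, Set.mem_univ, and_true, mul_ent, LL_ent]
        linear_combination (-x 1 0) * Ring.mul_inverse_cancel _ hx
      · obtain ⟨h1, h2⟩ := Prod.ext_iff.1 h
        simp only at h1 h2
        rw [h2] at h1
        exact mul_right_cancel h1
    have h2 : #{x : GG p j | IsUnit (x 1 0)} ≤ #{x : GG p j | IsUnit (x 1 1)} := by
      refine card_le_card_of_injOn (fun x => x * WW _) (fun x hx => ?_)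
        fun x _ y _ h => mul_right_cancel h
      simp only [coe_filter, mem_univ, true_and, Set.mem_ofPred_eq] at hx ⊢
      simpa [mul_ent, WW_ent] using hx
    have h3 : Fintype.card (GG p j) ≤
        #{x : GG p j | IsUnit (x 1 1)} + #{x : GG p j | IsUnit (x 1 0)} := by
      refine le_trans (card_le_card fun x _ => ?_) (card_union_le _ _)
      simpa using unit_or_unit x
    have h4 : Fintype.card (GG p j) ≤ 2 * p ^ j * #{y : GG p j | y 1 0 = 0} := by
      nlinarith
    rw [oG, oB]
    exact_mod_cast h4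

end Pool.Agent.P.MP_246241_nt.BV
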