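import Pool.Agent.P.MP_246241_nt.BV.Iface

/-! Step LEV. -/

set_option autoImplicit false
set_option linter.unusedSectionVars false

namespace Pool.Agent.P.MP_246241_nt.BV

open Finset
open scoped Classical MatrixGroups

namespace LEVx

lemma level {p s d e : ℝ} (hp : 2 ≤ p) (hs : 0 < s) (hs1 : s ≤ 1) (hd : 0 ≤ d) (hd1 : d ≤ 1)
    (he : 0 < e) : ∃ τ : ℕ, d ≤ 1 / p ^ τ ∧ 1 / (p ^ s) ^ τ ≤ p * d ^ s + e := by
  have hp0 : 0 < p := by linarith
  have hp1 : 1 < p := by linarith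
  rcases hd.eq_or_lt with rfl | hd0
  · have h1 : 1 / p ^ s < 1 := (div_lt_one (by positivity)).2 (Real.one_lt_rpow hp1 hs)
    obtain ⟨τ, hτ⟩ := exists_pow_lt_of_lt_one he h1
    refine ⟨τ, by positivity, ?_⟩
    rw [Real.zero_rpow hs.ne', mul_zero, zero_add, ← one_div_pow]
    exact hτ.le
  · obtain ⟨τ, h1, h2⟩ := exists_nat_pow_near_of_lt_one hd0 hd1 (y := 1 / p) (by positivity)
      ((div_lt_one hp0).2 hp1)
    refine ⟨τ, by rwa [one_div_pow] at h2, ?_⟩
    have h3 : (1 / p) ^ τ ≤ p * d := by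
      rw [pow_succ, mul_one_div, div_lt_iff₀ hp0] at h1
      linarith
    have h4 : 1 / (p ^ s) ^ τ = ((1 / p) ^ τ) ^ s := by
      rw [← Real.rpow_pow_comm (by positivity), Real.div_rpow zero_le_one hp0.le, Real.one_rpow,
        one_div_pow]
    have h5 : p ^ s ≤ p := by
      simpa using Real.rpow_le_rpow_of_exponent_le hp1.le hs1
    have h6 := Real.rpow_le_rpow (by positivity) h3 hs.le
    rw [Real.mul_rpow hp0.le hd] at h6
    have h7 := mul_le_mul_of_nonneg_right h5 (Real.rpow_nonneg hd s)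
    linarith

lemma cover {M : Set ℝ} {s c : ℝ} (hs : 0 < s) (hc : 0 < c)
    (h : MeasureTheory.Measure.hausdorffMeasure s M = 0) :
    ∃ t : ℕ → Set ℝ, M ⊆ ⋃ n, t n ∧ (∀ n, Metric.ediam (t n) ≤ 1) ∧
      ∀ F : Finset ℕ, ∑ n ∈ F, Metric.diam (t n) ^ s ≤ c := by
  rw [MeasureTheory.Measure.hausdorffMeasure_apply] at h
  have h1 := (le_iSup₂_of_le (1 : ENNReal) one_pos le_rfl).trans_lt
    (h.trans_lt (ENNReal.ofReal_pos.2 hc))
  simp only [iInf_lt_iff] at h1
  obtain ⟨t, h2, h3, h4⟩ := h1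
  refine ⟨t, h2, h3, fun F => ?_⟩
  rw [← ENNReal.ofReal_le_ofReal_iff hc.le,
    ENNReal.ofReal_sum_of_nonneg fun n _ => Real.rpow_nonneg Metric.diam_nonneg s]
  refine (sum_le_sum fun n _ => ?_).trans ((ENNReal.sum_le_tsum F).trans h4.le)
  rcases (t n).eq_empty_or_nonempty with e | e
  · simp [e, Real.zero_rpow hs.ne']
  · rw [iSup_pos e, ← ENNReal.ofReal_rpow_of_nonneg Metric.diam_nonneg hs.le, Metric.diam,
      ENNReal.ofReal_toReal ((h3 n).trans_lt ENNReal.one_lt_top).ne]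

end LEVx

theorem p_LEV :
    S_LEV := by
  intro p M s η hp hs hs1 hη h
  have hp' : (2 : ℝ) ≤ p := by exact_mod_cast hp
  have hp0 : (0 : ℝ) < p := by linarith
  obtain ⟨t, h1, h2, h3⟩ := LEVx.cover (c := η / (2 * p)) hs (by positivity) h
  have hd : ∀ n, Metric.diam (t n) ≤ 1 := fun n =>
    ENNReal.toReal_le_of_le_ofReal zero_le_one (by simpa using h2 n)
  choose τ h4 h5 using fun n => LEVx.level (e := η / 2 / 2 / 2 ^ n) hp' hs hs1
    Metric.diam_nonneg (hd n) (by positivity)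
  refine ⟨fun n => if h : (t n).Nonempty then h.some else 0, τ, fun α hα => ?_, fun F => ?_⟩
  · obtain ⟨n, hn⟩ := Set.mem_iUnion.1 (h1 hα)
    refine ⟨n, le_trans ?_ (h4 n)⟩
    have hne : (t n).Nonempty := ⟨α, hn⟩
    simp only [dif_pos hne]
    exact Metric.dist_le_diam_of_mem' ((h2 n).trans_lt ENNReal.one_lt_top).ne hn hne.some_mem
  · refine (sum_le_sum fun n _ => h5 n).trans ?_
    rw [sum_add_distrib, ← mul_sum]
    have h6 := mul_le_mul_of_nonneg_left (h3 F) hp0.le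
    have h7 : (p : ℝ) * (η / (2 * p)) = η / 2 := by field_simp
    have h8 := sum_le_hasSum F (fun n _ => by positivity) (hasSum_geometric_two' (η / 2))
    linarith

end Pool.Agent.P.MP_246241_nt.BV
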