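import Pool.Agent.P.MP_246241_nt.BV.Iface

/-! Step LIM. -/

set_option autoImplicit false
set_option linter.unusedSectionVars false

namespace Pool.Agent.P.MP_246241_nt.BV

open Finset
open scoped Classical MatrixGroups

theorem p_LIM :
    S_LIM := by
  intro p C hp hC
  have hp0 : (0 : ℝ) < p := by
    have : (2 : ℝ) ≤ p := by exact_mod_cast hp
    linarith
  let T : ℕ → Set ℝ := fun t =>
    ⋃ a ∈ C t, Set.Icc ((a : ℝ) / (p : ℝ) ^ t) (((a : ℝ) + 1) / (p : ℝ) ^ t)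
  have hcomp : ∀ t, IsCompact (T t) := fun t =>
    (C t).isCompact_biUnion fun _ _ => isCompact_Icc
  have hne : ∀ t, (T t).Nonempty := fun t => by
    obtain ⟨a, ha⟩ := (hC t).1
    refine ⟨(a : ℝ) / (p : ℝ) ^ t, Set.mem_biUnion ha ⟨le_rfl, ?_⟩⟩
    gcongr
    linarith
  have hsub : ∀ t, T (t + 1) ⊆ T t := fun t x hx => by
    obtain ⟨a, ha, h1, h2⟩ := Set.mem_iUnion₂.1 hx
    have hpt : (0 : ℝ) < (p : ℝ) ^ t := pow_pos hp0 t
    have e1 : ((a / p : ℕ) : ℝ) * p ≤ a := by exact_mod_cast Nat.div_mul_le_self a p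
    have e2 : (a : ℝ) + 1 ≤ (((a / p : ℕ) : ℝ) + 1) * p := by
      have := Nat.lt_div_mul_add (a := a) (b := p) (by omega)
      have h3 : a + 1 ≤ (a / p + 1) * p := by
        rw [add_mul, one_mul]
        omega
      exact_mod_cast h3
    rw [div_le_iff₀ (pow_pos hp0 _), pow_succ] at h1
    rw [le_div_iff₀ (pow_pos hp0 _), pow_succ] at h2
    refine Set.mem_biUnion ((hC t).2 a ha) ⟨?_, ?_⟩
    · rw [div_le_iff₀ hpt]
      refine le_of_mul_le_mul_right ?_ hp0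
      linarith
    · rw [le_div_iff₀ hpt]
      refine le_of_mul_le_mul_right ?_ hp0
      linarith
  obtain ⟨α, hα⟩ := IsCompact.nonempty_iInter_of_sequence_nonempty_isCompact_isClosed T hsub hne
    (hcomp 0) fun t => (hcomp t).isClosed
  refine ⟨α, fun t => ?_⟩
  obtain ⟨a, ha, h1, h2⟩ := Set.mem_iUnion₂.1 (Set.mem_iInter.1 hα t)
  have hpt : (0 : ℝ) < (p : ℝ) ^ t := pow_pos hp0 t
  rw [div_le_iff₀ hpt] at h1
  rw [le_div_iff₀ hpt] at h2
  exact ⟨a, ha, abs_le.2 ⟨by linarith, by linarith⟩⟩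

end Pool.Agent.P.MP_246241_nt.BV
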