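import Pool.Agent.P.MP_246241_nt.BV.Iface

/-! Step LINE. -/

set_option autoImplicit false
set_option linter.unusedSectionVars false

namespace Pool.Agent.P.MP_246241_nt.BV

open Finset
open scoped Classical MatrixGroups

theorem p_LINE :
    S_LINE := by
  intro p j _ e f he hf h0 z y
  have h1 : EE (KP p j e) (cv univ (fun s => LL ((p : RR p j) ^ e * s) * z) f) = 0 := by
    rw [← Module.End.mul_apply, (EE_cv _ _ _).eq, Module.End.mul_apply, h0, map_zero]
  have h2 : ∀ κ ∈ el (KP p j e), cv univ (fun s => LL ((p : RR p j) ^ e * s) * z) f (LL y * κ) =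
      ∑ s, f (LL (y + (p : RR p j) ^ e * s) * z) := by
    intro κ hκ
    obtain ⟨⟨a, ha⟩, ⟨b, hb⟩, ⟨c, hc⟩, ⟨d, hd⟩⟩ := mem_KK.1 (mem_el.1 hκ)
    obtain ⟨e, rfl⟩ := Nat.exists_eq_add_of_le' he
    obtain ⟨u, hu⟩ := (unit_one_add ((p : RR p j) ^ e * (y * b + d))).exists_left_inv
    have k : (LL y * κ) 1 0 =
        (y + (p : RR p j) ^ (e + 1) * ((y * a + c - y * (y * b + d)) * u)) * (LL y * κ) 1 1 := by
      simp only [mul_ent, LL_ent, hb, hc, eq_add_of_sub_eq ha, eq_add_of_sub_eq hd]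
      linear_combination -((p : RR p j) ^ (e + 1) * (y * a + c - y * (y * b + d))) * hu
    generalize (y * a + c - y * (y * b + d)) * u = τ at k
    rw [cv_apply]
    refine Fintype.sum_equiv (Equiv.addLeft τ) _ _ fun s => ?_
    rw [hf.cell _ k, ← mul_assoc, LL_mul, Equiv.coe_addLeft, mul_add, add_assoc]
  have h3 := congrFun h1 (LL y)
  rwa [EE_apply, sum_congr rfl h2, sum_const, nsmul_eq_mul,
    inv_mul_cancel_left₀ (card_el_pos _).ne'] at h3

end Pool.Agent.P.MP_246241_nt.BV
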