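import Pool.Agent.P.MP_246241_nt.BV.Iface

/-! Step LOGC. -/

set_option autoImplicit false
set_option linter.unusedSectionVars false

namespace Pool.Agent.P.MP_246241_nt.BV

open Finset
open scoped Classical MatrixGroups

theorem p_LOGC :
    S_LOGC := by
  intro ι _ A f B k hA hk hB
  obtain ⟨m, hm⟩ : ∃ m : ℕ → ℝ, ∀ i, m i = nn ((A ^ i) f) := ⟨_, fun _ => rfl⟩
  have h0 : ∀ i, 0 ≤ m i := fun i => hm i ▸ nn_nonneg _
  have h1 : ∀ i, m (i + 1) ^ 2 ≤ m i * m (i + 1 + 1) := fun i => by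
    rw [hm, hm, hm, nn_eq, pow_succ' A (i + 1), Module.End.mul_apply]
    refine le_trans (le_of_eq ?_) (ip_sq_le _ _)
    rw [← hA, pow_succ' A i, Module.End.mul_apply]
  have h2 : ∀ i, m 1 * m i ≤ m 0 * m (i + 1) := fun i => by
    induction i with
    | zero => exact (mul_comm _ _).le
    | succ i ih =>
      rcases (h0 i).eq_or_lt with h | h
      · have := h1 i
        rw [← h, zero_mul] at this
        rw [pow_eq_zero_iff two_ne_zero |>.1 (this.antisymm (sq_nonneg _)), mul_zero]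
        exact mul_nonneg (h0 _) (h0 _)
      · refine le_of_mul_le_mul_left ?_ h
        nlinarith [mul_le_mul_of_nonneg_left (h1 i) (h0 0), mul_le_mul_of_nonneg_left ih (h0 (i + 1))]
  have h3 : ∀ i, m 1 ^ (i + 1) ≤ m (i + 1) * m 0 ^ i := fun i => by
    induction i with
    | zero => simp
    | succ i ih =>
      calc _ = m 1 * m 1 ^ (i + 1) := by ring
        _ ≤ m 1 * (m (i + 1) * m 0 ^ i) := mul_le_mul_of_nonneg_left ih (h0 1)
        _ = m 1 * m (i + 1) * m 0 ^ i := by ring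
        _ ≤ m 0 * m (i + 1 + 1) * m 0 ^ i :=
          mul_le_mul_of_nonneg_right (h2 _) (pow_nonneg (h0 0) _)
        _ = _ := by ring
  obtain ⟨i, rfl⟩ : ∃ i, k = i + 1 := ⟨k - 1, by omega⟩
  have h4 := h3 i
  rw [hm, hm, hm, pow_one, pow_zero, Module.End.one_apply] at h4
  calc _ ≤ _ := h4
    _ ≤ B * nn f * nn f ^ i := mul_le_mul_of_nonneg_right hB (pow_nonneg (nn_nonneg _) _)
    _ = _ := by ring

end Pool.Agent.P.MP_246241_nt.BV
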