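import Pool.Agent.P.MP_246241_nt.BV.Iface

/-! Step LOW. -/

set_option autoImplicit false
set_option linter.unusedSectionVars false

namespace Pool.Agent.P.MP_246241_nt.BV

open Finset
open scoped Classical MatrixGroups

theorem p_LOW :
    S_LOW := by
  intro G ι _ _ K s π F hF
  have hK := card_el_pos K
  have h0 : ∀ y, 0 ≤ EE K F y := fun y => by
    rw [EE_apply]
    exact mul_nonneg (inv_nonneg.2 hK.le) (sum_nonneg fun _ _ => hF _)
  have h1 : ∀ y, (#(el K) : ℝ) * EE K F y ≤ ∑ y, F y := fun y => by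
    rw [EE_apply, mul_inv_cancel_left₀ hK.ne', ← sum_mul_left F y]
    exact sum_le_univ_sum_of_nonneg fun _ => hF _
  have h2 : ∑ y, EE K F y = ∑ y, F y := by
    simp only [EE_apply, ← mul_sum]
    rw [sum_comm]
    simp only [sum_mul_right F, sum_const, nsmul_eq_mul]
    exact inv_mul_cancel_left₀ hK.ne' _
  have h3 : (#(el K) : ℝ) * nn (EE K F) ≤ (∑ y, F y) ^ 2 := by
    rw [nn, mul_sum, sq (∑ y, F y)]
    nth_rewrite 2 [← h2]
    rw [mul_sum]
    refine sum_le_sum fun y _ => ?_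
    rw [sq, ← mul_assoc]
    exact mul_le_mul_of_nonneg_right (h1 y) (h0 y)
  have h4 : nn (cv s π (EE K F)) ≤ (#s : ℝ) ^ 2 * nn (EE K F) := by
    calc nn (cv s π (EE K F)) ≤ ∑ y, (#s : ℝ) * ∑ i ∈ s, EE K F (y * π i) ^ 2 :=
          sum_le_sum fun y _ => by
            rw [cv_apply]
            exact sq_sum_le_card_mul_sum_sq
      _ = (#s : ℝ) ^ 2 * nn (EE K F) := by
          rw [← mul_sum, sum_comm]
          simp only [sum_mul_right fun y => EE K F y ^ 2, sum_const, nsmul_eq_mul, nn]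
          ring
  calc (#(el K) : ℝ) * nn (cv s π (EE K F)) ≤ #(el K) * ((#s : ℝ) ^ 2 * nn (EE K F)) :=
        mul_le_mul_of_nonneg_left h4 hK.le
    _ = (#s : ℝ) ^ 2 * (#(el K) * nn (EE K F)) := by ring
    _ ≤ _ := mul_le_mul_of_nonneg_left h3 (sq_nonneg _)

end Pool.Agent.P.MP_246241_nt.BV
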