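import Pool.Agent.P.MP_246241_nt.BV.Iface

/-! Step NEW. -/

set_option autoImplicit false
set_option linter.unusedSectionVars false

namespace Pool.Agent.P.MP_246241_nt.BV

open Finset
open scoped Classical MatrixGroups

namespace NEWx

theorem ar {κ G c Z q P o F : ℝ} (k0 : 0 < κ) (G0 : 0 ≤ G) (Z0 : 0 ≤ Z) (q0 : 0 < q) (P0 : 0 ≤ P)
    (F0 : 0 ≤ F) (h1 : κ * G ^ 2 ≤ Z * c) (h2 : q * c ≤ 4 * P ^ 2 * o * F * G)
    (h3 : o ≤ (q * P) ^ 3 * κ) : G ≤ 4 * P ^ 3 * (q * P) ^ 2 * Z * F := by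
  rcases G0.eq_or_lt with rfl | G1
  · positivity
  refine le_of_mul_le_mul_left ?_ (mul_pos q0 (mul_pos k0 G1))
  calc q * (κ * G) * G = q * (κ * G ^ 2) := by ring
    _ ≤ q * (Z * c) := by gcongr
    _ = Z * (q * c) := by ring
    _ ≤ Z * (4 * P ^ 2 * o * F * G) := by gcongr
    _ ≤ Z * (4 * P ^ 2 * ((q * P) ^ 3 * κ) * F * G) := by gcongr
    _ = _ := by ring

end NEWx

theorem p_NEW (hCS : S_CS) (hSCH : S_SCH) (hLINE : S_LINE) (hIDX : S_IDX) (hZB : S_ZB) (hHAR : S_HAR) (hNUM : S_NUM) (hLOGC : S_LOGC) :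
    S_NEW := by
  intro p hp
  obtain ⟨C₂, c2, H2⟩ := hHAR
  obtain ⟨C, c0, H1⟩ := hNUM (4 * (p : ℝ) ^ 3) C₂ (by positivity) c2
  refine ⟨C, c0, fun j e Y f hY he hj hf h1 h0 => ?_⟩
  have p0 : 0 < p := hp.out.pos
  have e1 : 1 ≤ e := Nat.pos_of_ne_zero (by
    rintro rfl
    have := (Nat.pow_le_pow_left (Nat.mul_le_mul_left 2 (Nat.one_le_pow 24 Y hY)) 7).trans he
    norm_num at this)
  obtain ⟨k, k1, k2, k3⟩ := H1 (p ^ (e + 1)) Y hY (he.trans (Nat.pow_le_pow_right p0 e.le_succ))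
  have hg : Inv ((AA p j (Y ^ 24) ^ k) f) := hf.pow _ _ k
  have a1 := hCS _ (KP p j (e + 1)) (AA p j (Y ^ 24)) f ((AA p j (Y ^ 24) ^ k) f) k (ip_AA _)
    (lt_cv _ _) h1
  rw [← nn_eq] at a1
  have a2 := hSCH p j e f _ (by omega) hf hg (hLINE p j e f e1 hf h0)
  have a3 := (hIDX p j).1 (e + 1)
  rw [mul_comm 3, pow_mul, pow_succ (p : ℝ) e] at a3
  obtain ⟨z0, z1⟩ := hZB p j (e + 1) Y (2 * k) hj hY
  have a4 := NEWx.ar (card_el_pos _) (nn_nonneg _) z0 (by positivity) (Nat.cast_nonneg p)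
    (nn_nonneg f) a1 a2 a3
  have a5 := k3 _ (sum_nonneg fun _ _ => by positivity)
    (H2 (p ^ (e + 1)) _ (Nat.one_le_pow _ _ p0) k2)
  rw [Nat.cast_pow, pow_succ (p : ℝ) e] at a5
  have a6 := hLOGC _ (AA p j (Y ^ 24)) f ((C * (Y : ℝ) ^ 94) ^ k) k (ip_AA _) k1
    (a4.trans (mul_le_mul_of_nonneg_right
      ((mul_le_mul_of_nonneg_left z1 (by positivity)).trans a5) (nn_nonneg f)))
  rw [← mul_pow] at a6
  exact le_of_pow_le_pow_left₀ (by omega) (mul_nonneg (by positivity) (nn_nonneg f)) a6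

end Pool.Agent.P.MP_246241_nt.BV
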