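import Pool.Agent.P.MP_246241_nt.BV.Iface

/-! Step NUM. -/

set_option autoImplicit false
set_option linter.unusedSectionVars false

namespace Pool.Agent.P.MP_246241_nt.BV

open Finset
open scoped Classical MatrixGroups

theorem p_NUM :
    S_NUM := by
  intro C₁ C₂ h1 h2
  have hx : 0 ≤ C₁ ^ 2 * C₂ := by positivity
  refine ⟨(1 + C₁ ^ 2 * C₂) * 4 * 15000 ^ 2, by positivity, fun N Y hY hN => ?_⟩
  have hX : 2 ≤ 2 * Y ^ 24 := Nat.le_mul_of_pos_right _ (by positivity)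
  have hb : 1 < (2 * Y ^ 24) ^ 2 := Nat.one_lt_pow two_ne_zero hX
  have hN0 : N ^ 3 ≠ 0 := pow_ne_zero _ (by
    have : 0 < (2 * Y ^ 24) ^ 7 := by positivity
    omega)
  have a1 := Nat.pow_log_le_self ((2 * Y ^ 24) ^ 2) hN0
  have a2 := Nat.lt_pow_succ_log_self hb (N ^ 3)
  have a3 : 10 ≤ Nat.log ((2 * Y ^ 24) ^ 2) (N ^ 3) := by
    refine Nat.le_log_of_pow_le hb (le_trans ?_ (Nat.pow_le_pow_left hN 3))
    rw [← pow_mul, ← pow_mul]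
    exact Nat.pow_le_pow_right (by omega) (by norm_num)
  generalize Nat.log ((2 * Y ^ 24) ^ 2) (N ^ 3) = k at a1 a2 a3
  refine ⟨k, by omega, by rwa [pow_mul], fun σ h0 hσ => ?_⟩
  have a4 : N ^ 15 ≤ (4 * Y ^ 44) ^ (k * 6) :=
    calc N ^ 15 = (N ^ 3) ^ 5 := by ring
      _ ≤ (((2 * Y ^ 24) ^ 2) ^ (k + 1)) ^ 5 := Nat.pow_le_pow_left a2.le 5
      _ = (2 * Y ^ 24) ^ (10 * k + 10) := by rw [← pow_mul, ← pow_mul]; congr 1; ring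
      _ ≤ (2 * Y ^ 24) ^ (11 * k) := Nat.pow_le_pow_right (by omega) (by omega)
      _ = (2 ^ 11 * Y ^ 264) ^ k := by rw [pow_mul]; congr 1; ring
      _ ≤ (2 ^ 12 * Y ^ 264) ^ k :=
        Nat.pow_le_pow_left (Nat.mul_le_mul_right _ (by norm_num)) k
      _ = (4 * Y ^ 44) ^ (k * 6) := by rw [mul_comm k, pow_mul]; congr 1; ring
  have a5 : (N : ℝ) ^ 15 ≤ (4 * (Y : ℝ) ^ 44) ^ (k * 6) := by exact_mod_cast a4
  have a6 : (C₁ ^ 2 * C₂) ^ 3 ≤ (1 + C₁ ^ 2 * C₂) ^ (k * 6) :=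
    (pow_le_pow_left₀ hx (by linarith) 3).trans (pow_le_pow_right₀ (by linarith) (by omega))
  have a7 : C₁ * (N : ℝ) ^ 2 * σ ≤ ((1 + C₁ ^ 2 * C₂) * (4 * (Y : ℝ) ^ 44)) ^ k := by
    refine le_of_pow_le_pow_left₀ (n := 6) (by norm_num) (by positivity) ?_
    calc (C₁ * (N : ℝ) ^ 2 * σ) ^ 6 = C₁ ^ 6 * N ^ 12 * (σ ^ 2) ^ 3 := by ring
      _ ≤ C₁ ^ 6 * N ^ 12 * (C₂ * N) ^ 3 := by gcongr
      _ = (C₁ ^ 2 * C₂) ^ 3 * N ^ 15 := by ring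
      _ ≤ (1 + C₁ ^ 2 * C₂) ^ (k * 6) * (4 * (Y : ℝ) ^ 44) ^ (k * 6) := by gcongr
      _ = _ := by rw [← mul_pow, pow_mul]
  calc C₁ * (N : ℝ) ^ 2 * ((15000 * (Y : ℝ) ^ 25) ^ (2 * k) * σ)
      = C₁ * (N : ℝ) ^ 2 * σ * ((15000 * (Y : ℝ) ^ 25) ^ 2) ^ k := by rw [pow_mul]; ring
    _ ≤ ((1 + C₁ ^ 2 * C₂) * (4 * (Y : ℝ) ^ 44)) ^ k * ((15000 * (Y : ℝ) ^ 25) ^ 2) ^ k := by
      gcongr
    _ = _ := by rw [← mul_pow]; congr 1; ring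

end Pool.Agent.P.MP_246241_nt.BV
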