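import Pool.Agent.P.MP_246241_nt.BV.Iface

/-! Step REC. -/

set_option autoImplicit false
set_option linter.unusedSectionVars false

namespace Pool.Agent.P.MP_246241_nt.BV

open Finset
open scoped Classical MatrixGroups

namespace RECx

theorem step_le {A Q J : ℝ} (e : ℕ) (hA : 0 ≤ A) (hQ : 2 ≤ Q) :
    (2 * A + 2 * J / Q ^ e) / Q + A ≤ 2 * A + 2 * J / Q ^ (e + 1) := by
  have h0 : 0 < Q := by linarith
  have h1 : 2 * A / Q ≤ A := by
    rw [div_le_iff₀ h0]
    nlinarith
  have h2 : (2 * A + 2 * J / Q ^ e) / Q = 2 * A / Q + 2 * J / Q ^ (e + 1) := by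
    rw [add_div, div_div, pow_succ]
  rw [h2]
  linarith

theorem last_le {P : ℝ} (hP : 2 ≤ P) {h j e : ℕ} (hh : 1 ≤ h) (hj : j ≤ 196 * h * (e + 1)) :
    2 * P ^ (138000 * h) + 2 * P ^ j / (P ^ (196 * h)) ^ e ≤ P ^ (139000 * h) := by
  have h1 : 1 ≤ P := by linarith
  have h0 : 0 < P := by linarith
  have a1 : P ^ j ≤ P ^ (196 * h) * (P ^ (196 * h)) ^ e := by
    rw [← pow_succ', ← pow_mul]
    exact pow_le_pow_right₀ h1 hj
  have a2 : P ^ (196 * h) ≤ P ^ (138000 * h) := pow_le_pow_right₀ h1 (by omega)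
  have a3 : 2 * P ^ j / (P ^ (196 * h)) ^ e ≤ 2 * P ^ (196 * h) := by
    rw [div_le_iff₀ (by positivity)]
    linarith
  have a4 : P ^ (139000 * h) = P ^ (138000 * h) * P ^ (1000 * h) := by
    rw [← pow_add]
    congr 1
    omega
  have a5 : 4 ≤ P ^ (1000 * h) := by
    have : P ^ 2 ≤ P ^ (1000 * h) := pow_le_pow_right₀ h1 (by omega)
    nlinarith
  have a6 : 0 ≤ P ^ (138000 * h) := by positivity
  rw [a4]
  generalize P ^ (138000 * h) = A at *
  generalize P ^ (1000 * h) = B at *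
  nlinarith

end RECx

theorem p_REC (hBLK : S_BLK) (hFFB : S_FFB) (hIDX : S_IDX) :
    S_REC := by
  intro p hp
  obtain ⟨h₀, hh₀, hB⟩ := hBLK p
  refine ⟨h₀, hh₀, fun h j m t C hh hC hm S hS hN => ?_⟩
  have h1 : 1 ≤ h := hh₀.trans hh
  have hP : (2 : ℝ) ≤ p := by exact_mod_cast hp.out.two_le
  have hQ : (2 : ℝ) ≤ (p : ℝ) ^ (196 * h) :=
    hP.trans (le_self_pow₀ (by linarith) (by omega))
  have key : ∀ e u, u ≤ t → m + 9408 * h * e ≤ u → ∀ S ⊆ C u,
      (∀ a ∈ S, ¬ Short p (p ^ h) (u - m) a) →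
      nn (FF p j (p ^ h) (u - m) S) * oG p j ≤
        (2 * (p : ℝ) ^ (138000 * h) + 2 * (p : ℝ) ^ j / ((p : ℝ) ^ (196 * h)) ^ e) *
          (oB p j * #(C u)) ^ 2 := by
    intro e
    induction e with
    | zero =>
      intro u _ _ S hS _
      have b1 := (hFFB p j (p ^ h) (u - m) S).2.2
      have b2 := (hIDX p j).2
      have b3 : (#S : ℝ) ≤ #(C u) := by exact_mod_cast card_le_card hS
      have b4 : (0 : ℝ) < oB p j := oB_pos
      have b5 : (0 : ℝ) < oG p j := oG_pos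
      have b6 : (#S : ℝ) ^ 2 ≤ (#(C u) : ℝ) ^ 2 := by gcongr
      calc nn (FF p j (p ^ h) (u - m) S) * oG p j
          ≤ (oB p j * (#(C u) : ℝ) ^ 2) * (2 * (p : ℝ) ^ j * oB p j) := by
            refine mul_le_mul (b1.trans ?_) b2 b5.le (by positivity)
            gcongr
        _ = (0 + 2 * (p : ℝ) ^ j / ((p : ℝ) ^ (196 * h)) ^ 0) * (oB p j * #(C u)) ^ 2 := by
            rw [pow_zero, div_one]
            ring
        _ ≤ _ := by
            gcongr
            positivity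
    | succ e ih =>
      intro u hu hm S hS hN
      have c1 : m + 9408 * h * e + 9408 * h ≤ u := by
        rw [mul_add, mul_one] at hm
        omega
      obtain ⟨u', rfl⟩ : ∃ u', u = u' + 9408 * h := ⟨u - 9408 * h, by omega⟩
      refine (hB h j m t u' C _ hh hC (by omega) hu (by positivity)
        (ih u' (by omega) (by omega)) S hS hN).trans ?_
      exact mul_le_mul_of_nonneg_right (RECx.step_le e (by positivity) hQ) (sq_nonneg _)
  have hpos : 0 < 9408 * h := by omega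
  have d1 : 9408 * h * ((t - m) / (9408 * h)) ≤ t - m := Nat.mul_div_le _ _
  have d2 : t - m < 9408 * h * ((t - m) / (9408 * h) + 1) := Nat.lt_mul_div_succ _ hpos
  refine (key ((t - m) / (9408 * h)) t le_rfl (by omega) S hS hN).trans ?_
  refine mul_le_mul_of_nonneg_right (RECx.last_le hP h1 ?_) (sq_nonneg _)
  generalize (t - m) / (9408 * h) + 1 = e at *
  have d3 : 9408 * h * e = 48 * (196 * h * e) := by ring
  omega

end Pool.Agent.P.MP_246241_nt.BV
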