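import Pool.Agent.P.MP_246241_nt.BV.Iface

/-! Step SCH. -/

set_option autoImplicit false
set_option linter.unusedSectionVars false

namespace Pool.Agent.P.MP_246241_nt.BV

open Finset
open scoped Classical MatrixGroups

namespace SCHx

variable {p j : ℕ} [Fact p.Prime]

theorem sq_le {M : ℝ} (hM : ∀ h : GG p j → ℝ, Inv h →
      ∑ x ∈ univ.filter (fun x : GG p j => IsUnit (x 1 1)), h x = M * ∑ u, h (LL u))
    {f : GG p j → ℝ} (hf : Inv f) (y : GG p j) : M * nn (fun u => f (LL u * y)) ≤ nn f := by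
  have h := hM (fun x => f (x * y) ^ 2) fun b x hb => by simp only [mul_assoc, hf b _ hb]
  rw [nn, ← h, nn, ← sum_mul_right (fun x => f x ^ 2) y]
  exact sum_le_univ_sum_of_nonneg fun _ => sq_nonneg _

theorem cell (hCH : S_CH) (hAFF : S_AFF) (e : ℕ) (f g : GG p j → ℝ) (he : e ≤ j) (hf : Inv f)
    (hg : Inv g) (h0 : ∀ z y, ∑ s, f (LL (y + (p : RR p j) ^ e * s) * z) = 0)
    (hs : ∀ x, ¬ IsUnit (x 1 1) → g x = 0) :
    (p : ℝ) ^ e * nn (fun y => ∑ x, f (x * y) * g x) ≤ (p : ℝ) ^ 2 * oG p j * nn f * nn g := by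
  obtain ⟨M, hM0, hM⟩ := hCH p j
  have hc : ∀ w, ∑ x, f (x * w) * g x = M * ∑ u, f (LL u * w) * g (LL u) := fun w => by
    rw [← hM (fun x => f (x * w) * g x) fun b x hb => by simp only [mul_assoc, hf b _ hb, hg b _ hb]]
    exact (sum_subset (filter_subset _ _) fun x _ hx => by
      rw [hs x fun h => hx (mem_filter.2 ⟨mem_univ _, h⟩), mul_zero]).symm
  have h1 : ∀ t b : RR p j, nn (fun y => ∑ x, f (x * y) * g x) =
      ∑ y, M ^ 2 * (∑ u, f (LL ((1 + p * (2 * t)) ^ 2 * u + b) * y) * g (LL u)) ^ 2 := fun t b => by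
    rw [nn, ← sum_mul_left (fun y => (∑ x, f (x * y) * g x) ^ 2)
      (DD (unit_one_add (2 * t)).unit * LL b)]
    refine sum_congr rfl fun y _ => ?_
    rw [hc, mul_pow]
    congr 2
    refine sum_congr rfl fun u _ => ?_
    rw [← mul_assoc, ← mul_assoc, LL_DD, mul_assoc (DD _), LL_mul, mul_assoc, hf _ _ rfl,
      IsUnit.unit_spec]
  have hN : (0 : ℝ) < ((p : ℝ) ^ j) ^ 2 := by
    have := two_le' (p := p)
    positivity
  have h2 : ((p : ℝ) ^ j) ^ 2 * nn (fun y => ∑ x, f (x * y) * g x) = ∑ y, M ^ 2 * ∑ t : RR p j, ∑ b,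
      (∑ u, f (LL ((1 + p * (2 * t)) ^ 2 * u + b) * y) * g (LL u)) ^ 2 := by
    have : ((p : ℝ) ^ j) ^ 2 * nn (fun y => ∑ x, f (x * y) * g x) =
        ∑ _t : RR p j, ∑ _b : RR p j, nn (fun y => ∑ x, f (x * y) * g x) := by
      simp only [sum_const, card_univ, card_RR, nsmul_eq_mul, Nat.cast_pow]
      ring
    rw [this, sum_congr rfl fun t _ => sum_congr rfl fun b _ => h1 t b]
    simp only [mul_sum _ _ (M ^ 2)]
    rw [sum_comm_cycle]
  refine le_of_mul_le_mul_left ?_ hN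
  rw [mul_left_comm, h2, mul_sum]
  have h3 : M * nn (fun u => g (LL u)) ≤ nn g := by simpa using sq_le hM hg 1
  refine (sum_le_card_nsmul _ _ ((p : ℝ) ^ 2 * ((p : ℝ) ^ j) ^ 2 * (nn f * nn g))
    fun y _ => ?_).trans_eq (by rw [nsmul_eq_mul, card_univ, oG]; ring)
  have h4 := hAFF p j e (fun u => f (LL u * y)) (fun u => g (LL u)) he (h0 y)
  have h5 := mul_le_mul (sq_le hM hf y) h3 (mul_nonneg hM0 (nn_nonneg _)) (nn_nonneg _)
  calc _ = M ^ 2 * ((p : ℝ) ^ e * ∑ t : RR p j, ∑ b,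
        (∑ u, f (LL ((1 + p * (2 * t)) ^ 2 * u + b) * y) * g (LL u)) ^ 2) := by ring
    _ ≤ M ^ 2 * ((p : ℝ) ^ 2 * ((p : ℝ) ^ j) ^ 2 * nn (fun u => f (LL u * y)) *
        nn (fun u => g (LL u))) := mul_le_mul_of_nonneg_left h4 (sq_nonneg _)
    _ = (p : ℝ) ^ 2 * ((p : ℝ) ^ j) ^ 2 * (M * nn (fun u => f (LL u * y)) *
        (M * nn (fun u => g (LL u)))) := by ring
    _ ≤ _ := mul_le_mul_of_nonneg_left h5 (by positivity)

theorem unit_iff (b x : GG p j) (hb : b 1 0 = 0) : IsUnit ((b * x) 1 1) ↔ IsUnit (x 1 1) := by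
  have h := det_ent b
  rw [hb, mul_zero, sub_zero] at h
  rw [mul_ent, hb, zero_mul, zero_add, IsUnit.mul_iff]
  exact and_iff_right (IsUnit.of_mul_eq_one_right _ h)

end SCHx

theorem p_SCH (hCH : S_CH) (hAFF : S_AFF) :
    S_SCH := by
  intro p j _ e f g he hf hg h0
  let g1 : GG p j → ℝ := fun x => if IsUnit (x 1 1) then g x else 0
  let g2 : GG p j → ℝ := fun x => if IsUnit (x 1 1) then 0 else g x
  have i1 : Inv g1 := fun b x hb => by simp only [g1, SCHx.unit_iff b x hb, hg b x hb]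
  have i2 : Inv g2 := fun b x hb => by simp only [g2, SCHx.unit_iff b x hb, hg b x hb]
  have a1 := SCHx.cell hCH hAFF e f g1 he hf i1 h0 fun x hx => if_neg hx
  have a2 := SCHx.cell hCH hAFF e f (fun x => g2 (x * WW _)) he hf
    (fun b x hb => by simp only [mul_assoc, i2 b _ hb]) h0 fun x hx => by
      refine if_pos ?_
      rw [mul_ent, WW_ent.2.1, WW_ent.2.2.2, mul_zero, add_zero, mul_neg, mul_one]
      exact ((unit_or_unit x).resolve_left hx).neg
  have n1 : nn g1 ≤ nn g := sum_le_sum fun x _ => by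
    simp only [g1]
    split_ifs
    · exact le_rfl
    · rw [zero_pow two_ne_zero]; exact sq_nonneg _
  have n2 : nn (fun x => g2 (x * WW _)) ≤ nn g := by
    rw [nn, sum_mul_right (fun x => g2 x ^ 2)]
    refine sum_le_sum fun x _ => ?_
    simp only [g2]
    split_ifs
    · rw [zero_pow two_ne_zero]; exact sq_nonneg _
    · exact le_rfl
  have e2 : nn (fun y => ∑ x, f (x * y) * g2 (x * WW _)) = nn (fun y => ∑ x, f (x * y) * g2 x) := by
    rw [nn, nn, ← sum_mul_left (fun y => (∑ x, f (x * y) * g2 (x * WW _)) ^ 2) (WW _)]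
    refine sum_congr rfl fun y _ => ?_
    rw [← sum_mul_right (fun x => f (x * y) * g2 x) (WW _)]
    simp only [mul_assoc]
  rw [e2] at a2
  have s : nn (fun y => ∑ x, f (x * y) * g x) ≤
      2 * nn (fun y => ∑ x, f (x * y) * g1 x) + 2 * nn (fun y => ∑ x, f (x * y) * g2 x) := by
    simp only [nn, mul_sum _ _ (2 : ℝ), ← sum_add_distrib]
    refine sum_le_sum fun y _ => ?_
    have : ∑ x, f (x * y) * g x = ∑ x, f (x * y) * g1 x + ∑ x, f (x * y) * g2 x := by
      rw [← sum_add_distrib]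
      refine sum_congr rfl fun x _ => ?_
      simp only [g1, g2]
      split_ifs <;> ring
    rw [this]
    nlinarith [sq_nonneg (∑ x, f (x * y) * g1 x - ∑ x, f (x * y) * g2 x)]
  have hp : (0 : ℝ) ≤ (p : ℝ) ^ 2 * oG p j * nn f :=
    mul_nonneg (mul_nonneg (sq_nonneg _) oG_pos.le) (nn_nonneg _)
  have b1 := mul_le_mul_of_nonneg_left n1 hp
  have b2 := mul_le_mul_of_nonneg_left n2 hp
  have b3 := mul_le_mul_of_nonneg_left s (by positivity : (0 : ℝ) ≤ (p : ℝ) ^ e)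
  linarith

end Pool.Agent.P.MP_246241_nt.BV
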