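import Pool.Agent.P.MP_246241_nt.BV.Iface

/-! Step STEP. -/

set_option autoImplicit false
set_option linter.unusedSectionVars false

namespace Pool.Agent.P.MP_246241_nt.BV

open Finset
open scoped Classical MatrixGroups

namespace STEPx

theorem key {P B H D q r q' r' a : ℤ} (P0 : 0 < P) (B0 : 0 < B) (H0 : 0 ≤ H) (D0 : 0 ≤ D)
    (D1 : D < B ^ 2) (h1 : q ^ 2 ≤ 4 * P * H) (h2 : (q * a - r * P) ^ 2 ≤ 4 * P * H)
    (h3 : q' ^ 2 ≤ 4 * (P * B ^ 2) * H)
    (h4 : (q' * (B ^ 2 * a + D) - r' * (P * B ^ 2)) ^ 2 ≤ 4 * (P * B ^ 2) * H) :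
    |q * r' - q' * r| ≤ 8 * H * B := by
  have m : ∀ {x y : ℤ}, x ^ 2 ≤ 4 * P * H → y ^ 2 ≤ 4 * (P * B ^ 2) * H →
      |x * y| ≤ 4 * P * H * B := fun {x y} hx hy => abs_le_of_sq_le_sq' (by
    calc (x * y) ^ 2 = x ^ 2 * y ^ 2 := by ring
      _ ≤ _ := mul_le_mul hx hy (sq_nonneg _) (by positivity)
      _ = _ := by ring) (by positivity) |> abs_le.2
  have a1 := abs_le.1 (m h2 h3)
  have a2 := abs_le.1 (m h1 h4)
  have a3 := abs_le.1 (m h1 h3)
  have b1 := mul_le_mul_of_nonneg_left a1.1 (sq_nonneg B)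
  have b2 := mul_le_mul_of_nonneg_left a1.2 (sq_nonneg B)
  have b3 := mul_le_mul_of_nonneg_left a3.1 D0
  have b4 := mul_le_mul_of_nonneg_left a3.2 D0
  have b5 := mul_le_mul_of_nonneg_left (show D + 1 ≤ B ^ 2 from D1)
    (show 0 ≤ 4 * P * H * B by positivity)
  have c : 0 < B ^ 2 * P := by positivity
  exact abs_le.2 ⟨le_of_mul_le_mul_left (by linarith) c, le_of_mul_le_mul_left (by linarith) c⟩

end STEPx

theorem p_STEP :
    S_STEP := by
  intro p H l b a g g' hp h h'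
  have e : (a : ℤ) = ((p : ℤ) ^ b) ^ 2 * (a / p ^ (2 * b) : ℕ) + (a % p ^ (2 * b) : ℕ) := by
    rw [← pow_mul, mul_comm b]
    exact_mod_cast (Nat.div_add_mod a _).symm
  have k : ∀ c c' : Fin 2, |g 0 c * g' 1 c' - g' 0 c' * g 1 c| ≤ 8 * H * (p : ℤ) ^ b := by
    intro c c'
    have h3 := h' c'
    have h4 := h c
    have h5 : ((a % p ^ (2 * b) : ℕ) : ℤ) < ((p : ℤ) ^ b) ^ 2 := by
      rw [← pow_mul, mul_comm b]
      exact_mod_cast Nat.mod_lt _ (by positivity)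
    rw [e, pow_add, mul_comm 2 b, pow_mul (p : ℤ), mul_comm b 2] at h3
    exact STEPx.key (P := (p : ℤ) ^ l) (B := (p : ℤ) ^ b) (by positivity) (by positivity)
      (Nat.cast_nonneg H) (Nat.cast_nonneg _) h5 h4.1 h4.2 h3.1 h3.2
  refine nm_le.2 fun r c => ?_
  rw [mul_ent]
  push_cast
  fin_cases r
  · convert k c 1 using 2
    simp only [Fin.zero_eta, inv_ent]; ring
  · rw [← abs_neg]
    convert k c 0 using 2
    simp only [Fin.mk_one, inv_ent]; ring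

end Pool.Agent.P.MP_246241_nt.BV
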