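import Pool.Agent.P.MP_246241_nt.BV.Iface

/-! Step STRIP. -/

set_option autoImplicit false
set_option linter.unusedSectionVars false

namespace Pool.Agent.P.MP_246241_nt.BV

open Finset
open scoped Classical MatrixGroups

namespace STRIPx

theorem alg {p q r s p' q' r' s' e : ℤ} (he : e * e = 1) (h : p * s - r * q = e)
    (h' : p' * s' - r' * q' = e) (hm : p * q' - q * p' = 0) :
    ∃ t : ℤ, (t = 1 ∨ t = -1) ∧ p' = t * p ∧ q' = t * q := by
  refine ⟨e * (p' * s - r * q'), ?_, ?_, ?_⟩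
  · have a1 : p' = e * (p' * s - r * q') * p := by
      linear_combination (-p') * he - e * p' * h + e * r * hm
    have a2 : q' = e * (p' * s - r * q') * q := by
      linear_combination (-q') * he - e * q' * h + e * s * hm
    refine Int.eq_one_or_neg_one_of_mul_eq_one (v := e * (p * s' - r' * q)) ?_
    linear_combination he + e * h' - e * s' * a1 + e * r' * a2
  · linear_combination (-p') * he - e * p' * h + e * r * hm
  · linear_combination (-q') * he - e * q' * h + e * s * hm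

theorem alg2 {p q r s r' s' e : ℤ} (he : e * e = 1) (h : p * s - r * q = e)
    (h' : p * s' - r' * q = e) : ∃ n : ℤ, r' = r + n * p ∧ s' = s + n * q := by
  refine ⟨e * ((r' - r) * s - (s' - s) * r), ?_, ?_⟩
  · linear_combination (r - r') * he + e * (r - r') * h + e * r * (h' - h)
  · linear_combination (s - s') * he + e * (s - s') * h + e * s * (h' - h)

theorem core {ι : Type} (S : Finset ι) (p q r s : ι → ℤ) (e : ℤ) (a b c d : ℝ) (he : e * e = 1)
    (hD : a * d - b * c ≠ 0) (hdet : ∀ i ∈ S, p i * s i - r i * q i = e)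
    (hinj : ∀ i ∈ S, ∀ j ∈ S, p i = p j → q i = q j → r i = r j → s i = s j → i = j)
    (h0 : ∀ i ∈ S, |a * p i + b * q i| ≤ 1)
    (h1 : ∀ i ∈ S, |c * p i + d * q i| ≤ |a * p i + b * q i|)
    (h2 : ∀ i ∈ S, |a * r i + b * s i| ≤ |a * p i + b * q i|)
    (h3 : ∀ i ∈ S, |c * r i + d * s i| ≤ |a * p i + b * q i|) :
    (#S : ℝ) * |a * d - b * c| ≤ 36 := by
  rcases S.eq_empty_or_nonempty with rfl | ⟨i₀, hi₀⟩
  · simp
  set D := |a * d - b * c| with hDd
  have hD0 : 0 < D := abs_pos.2 hD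
  have he1 : |(e : ℝ)| = 1 := by
    rcases Int.eq_one_or_neg_one_of_mul_eq_one he with h | h <;> simp [h]
  have hb : ∀ i ∈ S, D ≤ 2 * |a * p i + b * q i| ^ 2 := fun i hi => by
    have e1 : ((p i : ℝ) * s i - r i * q i) = e := by exact_mod_cast hdet i hi
    have e2 : (a * d - b * c) * e = (a * p i + b * q i) * (c * r i + d * s i) -
        (a * r i + b * s i) * (c * p i + d * q i) := by rw [← e1]; ring
    have e3 : D = |(a * d - b * c) * e| := by rw [abs_mul, he1, mul_one]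
    rw [e3, e2]
    refine (abs_sub _ _).trans ?_
    rw [abs_mul, abs_mul]
    have := mul_le_mul_of_nonneg_left (h3 i hi) (abs_nonneg (a * p i + b * q i))
    have := mul_le_mul (h2 i hi) (h1 i hi) (abs_nonneg _) (abs_nonneg _)
    nlinarith
  have hx : ∀ i ∈ S, a * p i + b * q i ≠ 0 := fun i hi h => by
    have := hb i hi
    rw [h] at this
    simp at this
    linarith
  have hD2 : D ≤ 2 := by
    have := hb i₀ hi₀
    have := pow_le_one₀ (n := 2) (abs_nonneg _) (h0 i₀ hi₀)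
    linarith
  have hq : ∀ x y : ℝ, x ≠ 0 → |y| ≤ |x| → -1 ≤ y / x ∧ y / x ≤ 1 := fun x y hx h => by
    rw [← abs_le, abs_div]
    exact (div_le_one (abs_pos.2 hx)).2 h
  have hc := card_le_card_of_injOn (s := S)
    (t := Icc ⌊-1 / D⌋ ⌊1 / D⌋ ×ˢ Icc (-1 : ℤ) 1 ×ˢ (univ : Finset Bool))
    (fun i => (⌊(c * p i + d * q i) / (a * p i + b * q i) / D⌋,
      ⌊(a * r i + b * s i) / (a * p i + b * q i)⌋, decide (0 < a * p i + b * q i))) ?_ ?_
  · rw [card_product, card_product, Int.card_Icc, Int.card_Icc, card_univ, Fintype.card_bool] at hc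
    have hk : ⌊-1 / D⌋ ≤ ⌊1 / D⌋ :=
      Int.floor_mono (div_le_div_of_nonneg_right (by norm_num) hD0.le)
    have hn : (((⌊1 / D⌋ + 1 - ⌊-1 / D⌋).toNat : ℕ) : ℝ) = (⌊1 / D⌋ : ℝ) + 1 - ⌊-1 / D⌋ := by
      have : (((⌊1 / D⌋ + 1 - ⌊-1 / D⌋).toNat : ℕ) : ℤ) = ⌊1 / D⌋ + 1 - ⌊-1 / D⌋ :=
        Int.toNat_of_nonneg (by omega)
      exact_mod_cast this
    have hc' : (#S : ℝ) ≤ ((⌊1 / D⌋ + 1 - ⌊-1 / D⌋).toNat : ℕ) * 6 := by exact_mod_cast hc
    rw [hn] at hc'
    have f1 := Int.floor_le (1 / D)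
    have f2 := Int.lt_floor_add_one (-1 / D)
    have f3 : (#S : ℝ) ≤ (2 / D + 2) * 6 := by
      have : 2 / D = 1 / D - -1 / D := by ring
      linarith
    have f4 := mul_le_mul_of_nonneg_right f3 hD0.le
    have f5 : (2 / D + 2) * 6 * D = 12 + 12 * D := by field_simp; ring
    linarith
  · intro i hi
    have a1 := hq _ _ (hx i hi) (h1 i hi)
    have a2 := hq _ _ (hx i hi) (h2 i hi)
    simp only [coe_product, Set.mem_prod, mem_coe, mem_Icc, mem_univ, and_true]
    refine ⟨⟨Int.floor_mono (div_le_div_of_nonneg_right a1.1 hD0.le),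
      Int.floor_mono (div_le_div_of_nonneg_right a1.2 hD0.le)⟩, ?_, ?_⟩
    · exact Int.le_floor.2 (by exact_mod_cast a2.1)
    · exact Int.floor_le_iff.2 (by push_cast; linarith [a2.2])
  · intro i hi j hj hij
    simp only [Prod.mk.injEq, decide_eq_decide] at hij
    obtain ⟨k1, k2, k3⟩ := hij
    have xi := hx i hi
    have xj := hx j hj
    have m0 : p i * q j - q i * p j = 0 := by
      have a1 := Int.abs_sub_lt_one_of_floor_eq_floor k1
      have a2 : (c * p i + d * q i) / (a * p i + b * q i) / D -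
          (c * p j + d * q j) / (a * p j + b * q j) / D =
          -((a * d - b * c) * ((p i : ℝ) * q j - q i * p j)) /
            ((a * p i + b * q i) * (a * p j + b * q j) * D) := by
        rw [← sub_div, div_sub_div _ _ xi xj, div_div]
        exact congrArg (· / _) (by ring)
      rw [a2, abs_div, abs_neg, abs_mul, abs_mul, abs_mul, abs_of_pos hD0, ← hDd,
        div_lt_one (mul_pos (mul_pos (abs_pos.2 xi) (abs_pos.2 xj)) hD0)] at a1
      have a3 := mul_le_one₀ (h0 i hi) (abs_nonneg _) (h0 j hj)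
      have a4 : |(p i : ℝ) * q j - q i * p j| < 1 := by
        by_contra hn
        nlinarith [not_lt.1 hn]
      have a5 : |p i * q j - q i * p j| < 1 := by exact_mod_cast a4
      exact Int.abs_lt_one_iff.1 a5
    obtain ⟨t, ht, t1, t2⟩ := alg he (hdet i hi) (hdet j hj) m0
    rcases ht with rfl | rfl
    · rw [one_mul] at t1 t2
      have hj' := hdet j hj
      rw [t1, t2] at hj' k2
      obtain ⟨n, n1, n2⟩ := alg2 he (hdet i hi) hj'
      have a1 : (a * r j + b * s j) / (a * p i + b * q i) =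
          (a * r i + b * s i) / (a * p i + b * q i) + n := by
        rw [n1, n2, div_add' _ _ _ xi]
        exact congrArg (· / _) (by push_cast; ring)
      rw [a1, Int.floor_add_intCast] at k2
      obtain rfl : n = 0 := by omega
      exact hinj i hi j hj t1.symm t2.symm (by rw [n1]; ring) (by rw [n2]; ring)
    · exfalso
      have a1 : a * p j + b * q j = -(a * p i + b * q i) := by rw [t1, t2]; push_cast; ring
      rw [a1] at k3
      rcases lt_or_gt_of_ne xi with h | h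
      · linarith [k3.2 (by linarith)]
      · linarith [k3.1 h]

end STRIPx

theorem p_STRIP :
    S_STRIP := by
  intro a b c d S hD h
  let y : Ga → Fin 2 → Fin 2 → ℝ := fun γ r k =>
    if r = 0 then |a * γ 0 k + b * γ 1 k| else |c * γ 0 k + d * γ 1 k|
  let T : Fin 2 → Fin 2 → Finset Ga := fun r k => {γ ∈ S | ∀ r' k', y γ r' k' ≤ y γ r k}
  have hD' : c * b - d * a ≠ 0 := fun e => hD (by linarith)
  have hab : |c * b - d * a| = |a * d - b * c| := by
    rw [← abs_neg]; exact congrArg _ (by ring)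
  have d1 : ∀ γ : Ga, γ 0 1 * γ 1 0 - γ 0 0 * γ 1 1 = -1 := fun γ => by linarith [det_ent γ]
  have hS : ∀ {r k γ}, γ ∈ T r k → γ ∈ S := fun hγ => (mem_filter.1 hγ).1
  have hy : ∀ {r k γ}, γ ∈ T r k → ∀ r' k', y γ r' k' ≤ y γ r k := fun hγ => (mem_filter.1 hγ).2
  have c00 := STRIPx.core (T 0 0) (· 0 0) (· 1 0) (· 0 1) (· 1 1) 1 a b c d (by norm_num) hD
    (fun γ _ => det_ent γ) (fun _ _ _ _ e1 e2 e3 e4 => sl_ext e1 e3 e2 e4)
    (fun γ hγ => (h γ (hS hγ) 0).1) (fun γ hγ => hy hγ 1 0) (fun γ hγ => hy hγ 0 1)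
    (fun γ hγ => hy hγ 1 1)
  have c01 := STRIPx.core (T 0 1) (· 0 1) (· 1 1) (· 0 0) (· 1 0) (-1) a b c d (by norm_num) hD
    (fun γ _ => d1 γ) (fun _ _ _ _ e1 e2 e3 e4 => sl_ext e3 e1 e4 e2)
    (fun γ hγ => (h γ (hS hγ) 1).1) (fun γ hγ => hy hγ 1 1) (fun γ hγ => hy hγ 0 0)
    (fun γ hγ => hy hγ 1 0)
  have c10 := STRIPx.core (T 1 0) (· 0 0) (· 1 0) (· 0 1) (· 1 1) 1 c d a b (by norm_num) hD'
    (fun γ _ => det_ent γ) (fun _ _ _ _ e1 e2 e3 e4 => sl_ext e1 e3 e2 e4)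
    (fun γ hγ => (h γ (hS hγ) 0).2) (fun γ hγ => hy hγ 0 0) (fun γ hγ => hy hγ 1 1)
    (fun γ hγ => hy hγ 0 1)
  have c11 := STRIPx.core (T 1 1) (· 0 1) (· 1 1) (· 0 0) (· 1 0) (-1) c d a b (by norm_num) hD'
    (fun γ _ => d1 γ) (fun _ _ _ _ e1 e2 e3 e4 => sl_ext e3 e1 e4 e2)
    (fun γ hγ => (h γ (hS hγ) 1).2) (fun γ hγ => hy hγ 0 1) (fun γ hγ => hy hγ 1 0)
    (fun γ hγ => hy hγ 0 0)
  rw [hab] at c10 c11
  have hsub : S ⊆ (T 0 0 ∪ T 0 1) ∪ (T 1 0 ∪ T 1 1) := fun γ hγ => by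
    obtain ⟨⟨r, k⟩, -, hm⟩ := exists_max_image (univ : Finset (Fin 2 × Fin 2))
      (fun z => y γ z.1 z.2) univ_nonempty
    have : γ ∈ T r k := mem_filter.2 ⟨hγ, fun r' k' => hm (r', k') (mem_univ _)⟩
    simp only [mem_union]
    fin_cases r <;> fin_cases k
    exacts [Or.inl (Or.inl this), Or.inl (Or.inr this), Or.inr (Or.inl this), Or.inr (Or.inr this)]
  have hc : #S ≤ #(T 0 0) + #(T 0 1) + (#(T 1 0) + #(T 1 1)) :=
    (card_le_card hsub).trans ((card_union_le _ _).trans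
      (add_le_add (card_union_le _ _) (card_union_le _ _)))
  have hc' : (#S : ℝ) ≤ #(T 0 0) + #(T 0 1) + (#(T 1 0) + #(T 1 1)) := by exact_mod_cast hc
  have := mul_le_mul_of_nonneg_right hc' (abs_nonneg (a * d - b * c))
  linarith

end Pool.Agent.P.MP_246241_nt.BV
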