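import Pool.Agent.P.MP_246241_nt.BV.Iface

/-! Step SUPER. -/

set_option autoImplicit false
set_option linter.unusedSectionVars false

namespace Pool.Agent.P.MP_246241_nt.BV

open Finset
open scoped Classical MatrixGroups

namespace SUPERx

theorem count (hSTRIP : S_STRIP) (X : ℕ) (hX : 0 < X) (g : Ga) (Z : ℝ) (hZ : 0 < Z) :
    (#{γ ∈ ball X | (nm (g * γ) : ℝ) ≤ Z} : ℝ) ≤ 144 * X / nm g * Z := by
  obtain ⟨r, c, e⟩ := exists_nm g
  have hX' : (0 : ℝ) < X := mod_cast hX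
  have hn : (0 : ℝ) < nm g := mod_cast nm_pos g
  have e' : |(g r c : ℝ)| = nm g := mod_cast e
  have h1 : ∀ γ ∈ {γ ∈ ball X | (nm (g * γ) : ℝ) ≤ Z}, ∀ k : Fin 2,
      |(g r 0 : ℝ) / Z * γ 0 k + g r 1 / Z * γ 1 k| ≤ 1 := fun γ hγ k => by
    have a : |(((g * γ) r k : ℤ) : ℝ)| ≤ nm (g * γ) := mod_cast le_nm (g * γ) r k
    rw [mul_ent] at a
    push_cast at a
    rw [div_mul_eq_mul_div, div_mul_eq_mul_div, ← add_div, abs_div, abs_of_pos hZ, div_le_one hZ]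
    exact a.trans (mem_filter.1 hγ).2
  have h2 : ∀ γ ∈ {γ ∈ ball X | (nm (g * γ) : ℝ) ≤ Z}, ∀ i k : Fin 2,
      |1 / (X : ℝ) * γ i k| ≤ 1 := fun γ hγ i k => by
    rw [one_div_mul_eq_div, abs_div, abs_of_pos hX', div_le_one hX']
    exact mod_cast nm_le.1 (mem_ball.1 (mem_filter.1 hγ).1) i k
  have key : ∀ c' d' : ℝ, |(g r 0 : ℝ) / Z * d' - g r 1 / Z * c'| = nm g / (Z * X) →
      (∀ γ ∈ {γ ∈ ball X | (nm (g * γ) : ℝ) ≤ Z}, ∀ k : Fin 2, |c' * γ 0 k + d' * γ 1 k| ≤ 1) →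
      (#{γ ∈ ball X | (nm (g * γ) : ℝ) ≤ Z} : ℝ) ≤ 144 * X / nm g * Z := fun c' d' a b => by
    have := hSTRIP _ _ c' d' _ (abs_pos.1 (a ▸ by positivity)) fun γ hγ k => ⟨h1 γ hγ k, b γ hγ k⟩
    rw [a, ← mul_div_assoc, div_le_iff₀ (by positivity)] at this
    rw [div_mul_eq_mul_div, le_div_iff₀ hn]
    linarith
  fin_cases c
  · refine key 0 (1 / X) ?_ fun γ hγ k => by simpa using h2 γ hγ 1 k
    rw [mul_zero, sub_zero, div_mul_div_comm, mul_one, abs_div, ← e', abs_of_pos (mul_pos hZ hX')]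
    rfl
  · refine key (1 / X) 0 ?_ fun γ hγ k => by simpa using h2 γ hγ 0 k
    rw [mul_zero, zero_sub, abs_neg, div_mul_div_comm, mul_one, abs_div, ← e',
      abs_of_pos (mul_pos hZ hX')]
    rfl

end SUPERx

theorem p_SUPER (hSTRIP : S_STRIP) (hDY : S_DY) :
    S_SUPER := by
  intro Y g hY
  have hX : 0 < Y ^ 24 := by positivity
  have hL : 4 * (Y ^ 24) ^ 2 ≤ 2 ^ (48 * Y + 2) := by
    rw [← pow_mul, pow_add, mul_comm 48 Y, pow_mul 2 Y, mul_comm]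
    exact Nat.mul_le_mul_right _ (Nat.pow_le_pow_left Nat.lt_two_pow_self.le _)
  have e : (Y : ℝ) ^ 25 = Y * (Y ^ 24 : ℕ) := by push_cast; ring
  rw [e]
  generalize Y ^ 24 = X at hX hL
  have hX' : (0 : ℝ) < X := mod_cast hX
  have hn : (0 : ℝ) < nm g := mod_cast nm_pos g
  have hY' : (1 : ℝ) ≤ Y := mod_cast hY
  have h0 : (0 : ℝ) < nm g / (2 * X) := by positivity
  refine (hDY Ga (48 * Y + 2) (ball X) (fun γ => nm (g * γ)) _ (144 * X / nm g) h0 (by positivity)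
    (fun γ hγ => ⟨?_, ?_⟩) fun Z hZ => SUPERx.count hSTRIP X hX g Z (h0.trans_le hZ)).trans ?_
  · have a := nm_mul (g * γ) γ⁻¹
    rw [mul_inv_cancel_right, nm_inv] at a
    have b : nm g ≤ nm (g * γ) * (2 * X) := by nlinarith [mem_ball.1 hγ]
    rw [div_le_iff₀ (by positivity)]
    exact mod_cast b
  · have a := (nm_mul g γ).trans (Nat.mul_le_mul_left _ (mem_ball.1 hγ))
    have b : nm (g * γ) * (2 * X) ≤ 2 ^ (48 * Y + 2) * nm g := by
      nlinarith [Nat.mul_le_mul_right (nm g) hL, Nat.mul_le_mul_right (2 * X) a]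
    rw [← mul_div_assoc, le_div_iff₀ (by positivity)]
    exact mod_cast b
  · have a : 0 ≤ X / (nm g : ℝ) := by positivity
    rw [mul_div_assoc, mul_one_div, mul_div_assoc, mul_div_assoc]
    push_cast
    nlinarith [mul_le_mul_of_nonneg_right hY' a]

end Pool.Agent.P.MP_246241_nt.BV
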