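import Pool.Agent.P.MP_246241_nt.BV.Iface

/-! Step VEC. -/

set_option autoImplicit false
set_option linter.unusedSectionVars false

namespace Pool.Agent.P.MP_246241_nt.BV

open Finset
open scoped Classical MatrixGroups

namespace VECx

theorem one {P T H H₀ g x q y w : ℤ} (hP : 0 < P) (hH : 0 ≤ H) (e : P * w = g * x - q * y)
    (h1 : H * x ^ 2 ≤ P * T) (h2 : H * q ^ 2 ≤ P * T) (h3 : g ^ 2 ≤ 4 * P * H₀)
    (h4 : y ^ 2 ≤ 4 * P * H₀) : H * w ^ 2 ≤ 16 * H₀ * T := by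
  have h0 : 0 ≤ 4 * P * H₀ := (sq_nonneg _).trans h3
  have a := mul_le_mul h3 h1 (by positivity) h0
  have b := mul_le_mul h4 h2 (by positivity) h0
  have c : (P * w) ^ 2 ≤ 2 * ((g * x) ^ 2 + (q * y) ^ 2) := by
    rw [e]; nlinarith [sq_nonneg (g * x + q * y)]
  have d := mul_le_mul_of_nonneg_left c hH
  refine le_of_mul_le_mul_left ?_ (show 0 < P ^ 2 by positivity)
  nlinarith

theorem cancel {p H w T : ℤ} (hp : 1 ≤ p) (hH : 0 ≤ H) (h : H * (p * w) ^ 2 ≤ T * p) :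
    H * w ^ 2 ≤ T := by
  have a : p * (H * w ^ 2) ≤ T := le_of_mul_le_mul_right (by nlinarith) (show 0 < p by omega)
  exact (le_mul_of_one_le_left (by positivity) hp).trans a

theorem desc {p H₀ H : ℕ} (hp : 1 ≤ p) (hH : 16 * H₀ < H) (u v : ℤ) (i : ℕ) : ∀ w₀ w₁ : ℤ,
    (w₀ ≠ 0 ∨ w₁ ≠ 0) → H * w₀ ^ 2 ≤ 16 * H₀ * p ^ i → H * w₁ ^ 2 ≤ 16 * H₀ * p ^ i →
    (p : ℤ) ^ i ∣ u * w₀ + v * w₁ →
    ∃ (i' : ℕ) (w₀ w₁ : ℤ), 1 ≤ i' ∧ i' ≤ i ∧ ¬ ((p : ℤ) ∣ w₀ ∧ (p : ℤ) ∣ w₁) ∧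
      H * w₀ ^ 2 ≤ 16 * H₀ * p ^ i' ∧ H * w₁ ^ 2 ≤ 16 * H₀ * p ^ i' ∧
      (p : ℤ) ^ i' ∣ u * w₀ + v * w₁ := by
  have hp' : (1 : ℤ) ≤ p := mod_cast hp
  induction i with
  | zero =>
    intro w₀ w₁ h0 h1 h2 _
    have hH' : (16 * H₀ : ℤ) < H := mod_cast hH
    have key : ∀ w : ℤ, w ≠ 0 → ¬ H * w ^ 2 ≤ 16 * H₀ * (p : ℤ) ^ 0 := fun w hw h => by
      have := mul_le_mul_of_nonneg_left (Int.add_one_le_of_lt (sq_pos_of_ne_zero hw))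
        (Nat.cast_nonneg (α := ℤ) H)
      linarith
    exact (h0.elim (key _ · h1) (key _ · h2)).elim
  | succ i ih =>
    intro w₀ w₁ h0 h1 h2 h3
    by_cases h : (p : ℤ) ∣ w₀ ∧ (p : ℤ) ∣ w₁
    · obtain ⟨⟨a, rfl⟩, b, rfl⟩ := h
      rw [pow_succ _ i, ← mul_assoc] at h1 h2
      obtain ⟨i', c, d, e1, e2, e3⟩ := ih a b
        (h0.imp right_ne_zero_of_mul right_ne_zero_of_mul)
        (cancel hp' (Nat.cast_nonneg _) h1) (cancel hp' (Nat.cast_nonneg _) h2)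
        ((mul_dvd_mul_iff_left (show (p : ℤ) ≠ 0 by omega)).1 (by
          rw [← pow_succ', mul_add, mul_left_comm _ u, mul_left_comm _ v]; exact h3))
      exact ⟨i', c, d, e1, by omega, e3⟩
    · exact ⟨i + 1, w₀, w₁, by omega, le_rfl, h, h1, h2, h3⟩

end VECx

theorem p_VEC :
    S_VEC := by
  rintro p H₀ H l i a g hp hH hF ⟨q, r, h0, h1, h2⟩
  have hP : (0 : ℤ) < p ^ l := pow_pos (mod_cast hp.pos) _
  have hd := det_ent g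
  rw [pow_add] at h1 h2
  have e1 : g 1 0 * (g 1 1 * q - g 0 1 * (p ^ i * r)) + g 1 1 * (g 0 0 * (p ^ i * r) - g 1 0 * q)
      = p ^ i * r := by linear_combination (p ^ i * r) * hd
  have e0 : g 0 0 * (g 1 1 * q - g 0 1 * (p ^ i * r)) + g 0 1 * (g 0 0 * (p ^ i * r) - g 1 0 * q)
      = q := by linear_combination q * hd
  refine VECx.desc hp.one_le hH _ _ i (g 1 1 * q - g 0 1 * (p ^ i * r))
    (g 0 0 * (p ^ i * r) - g 1 0 * q) ?_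
    (VECx.one hP (Nat.cast_nonneg _) (by ring) h1 h2 (hF 1).1 (hF 1).2)
    (neg_sq (g 0 0 * (p ^ i * r) - g 1 0 * q) ▸
      VECx.one hP (Nat.cast_nonneg _) (by ring) h1 h2 (hF 0).1 (hF 0).2)
    (e1.symm ▸ dvd_mul_right _ _)
  by_contra h
  rw [not_or, not_not, not_not] at h
  rw [h.1, h.2, mul_zero, mul_zero, add_zero] at e0 e1
  exact h0.elim (· e0.symm) fun hr =>
    mul_ne_zero (pow_ne_zero _ (mod_cast hp.ne_zero)) hr e1.symm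

end Pool.Agent.P.MP_246241_nt.BV
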