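import Pool.Agent.P.MP_246241_nt.BV.Iface

/-! Step WIN. -/

set_option autoImplicit false
set_option linter.unusedSectionVars false

namespace Pool.Agent.P.MP_246241_nt.BV

open Finset
open scoped Classical MatrixGroups

theorem p_WIN (hFRAME : S_FRAME) (hVEC : S_VEC) (hESET : S_ESET) (hFFB : S_FFB) :
    S_WIN := by
  intro p j hp H₀ H l S h0 hH hS
  obtain ⟨E, hE, hmem⟩ := hESET p j H₀ H (by omega)
  have hsupp : ∀ y, FF p j H₀ l S y ≠ 0 → y ∈ E := by
    intro y hy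
    have hc : #{a ∈ S | (y * (red p j (fr p H₀ l a))⁻¹) 1 0 = 0} ≠ 0 := by
      intro h
      apply hy
      rw [FF, h, Nat.cast_zero]
    obtain ⟨a, ha⟩ := card_ne_zero.1 hc
    obtain ⟨haS, hb⟩ := mem_filter.1 ha
    obtain ⟨hn, i, hi, hs⟩ := hS a haS
    have hf := fr_spec (hFRAME p H₀ l a hp.out.pos h0 hn)
    obtain ⟨i', w₀, w₁, h1, h2, h3, h4, h5, h6⟩ := hVEC p H₀ H l i a _ hp.out hH hf hs
    refine hmem y i' w₀ w₁ h1 (h2.trans hi) h3 h4 h5 ?_
    set g := fr p H₀ l a with hg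
    set b := y * (red p j g)⁻¹ with hbd
    have hy2 : y = b * red p j g := by rw [hbd, inv_mul_cancel_right]
    have e : ∀ c, y 1 c = b 1 1 * (g 1 c : RR p j) := fun c => by
      rw [hy2, mul_ent, hb, zero_mul, zero_add, red_ent]
    have h7 := (int_dvd_iff (h2.trans hi) _).2 h6
    rw [e 0, e 1]
    have h8 := h7.mul_left (b 1 1)
    push_cast at h8
    convert h8 using 1
    ring
  obtain ⟨-, hsum, -⟩ := hFFB p j H₀ l S
  have h1 : ∑ y, FF p j H₀ l S y = ∑ y ∈ E, FF p j H₀ l S y :=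
    (sum_subset (subset_univ E) fun y _ hy => by
      by_contra h
      exact hy (hsupp y h)).symm
  have h2 : (∑ y ∈ E, FF p j H₀ l S y) ^ 2 ≤ #E * ∑ y ∈ E, FF p j H₀ l S y ^ 2 :=
    sq_sum_le_card_mul_sum_sq
  have h3 : ∑ y ∈ E, FF p j H₀ l S y ^ 2 ≤ nn (FF p j H₀ l S) :=
    sum_le_sum_of_subset_of_nonneg (subset_univ E) fun _ _ _ => sq_nonneg _
  have h4 : (oB p j * #S) ^ 2 ≤ #E * nn (FF p j H₀ l S) := by
    rw [← hsum, h1]
    exact h2.trans (mul_le_mul_of_nonneg_left h3 (Nat.cast_nonneg _))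
  calc (H : ℝ) * (oB p j * #S) ^ 2 ≤ H * (#E * nn (FF p j H₀ l S)) :=
        mul_le_mul_of_nonneg_left h4 (Nat.cast_nonneg _)
    _ = (H * #E) * nn (FF p j H₀ l S) := by ring
    _ ≤ (144 * j * H₀ * oG p j) * nn (FF p j H₀ l S) :=
        mul_le_mul_of_nonneg_right hE (nn_nonneg _)
    _ = _ := by ring

end Pool.Agent.P.MP_246241_nt.BV
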