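import Pool.Agent.P.MP_246241_nt.BV.Iface

/-! Step ZB. -/

set_option autoImplicit false
set_option linter.unusedSectionVars false

namespace Pool.Agent.P.MP_246241_nt.BV

open Finset
open scoped Classical MatrixGroups

namespace ZBx

theorem nonneg {p j : ℕ} [Fact p.Prime] (X : ℕ) (K : Subgroup (GG p j)) (m : ℕ) :
    ∀ y, 0 ≤ (AA p j X ^ m) (ind K) y := by
  induction m with
  | zero =>
    intro y
    show 0 ≤ ind K y
    unfold ind
    split_ifs <;> norm_num
  | succ m ih =>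
    intro y
    rw [pow_succ', Module.End.mul_apply, AA_apply]
    exact sum_nonneg fun _ _ => ih _

end ZBx

theorem p_ZB (hSUPER : S_SUPER) :
    S_ZB := by
  intro p j _ i Y n hij hY
  refine ⟨ZBx.nonneg _ _ _ _, ?_⟩
  set S := {γ ∈ ball ((2 * Y ^ 24) ^ n) | Cg (p ^ i) γ} with hS
  have hρ : (0 : ℝ) ≤ 15000 * (Y : ℝ) ^ 25 := by positivity
  have hsup : ∀ g : Ga, ∑ γ ∈ ball (Y ^ 24), ∑ g0 ∈ S, 1 / (nm (g0⁻¹ * (g * γ)) : ℝ) ≤
      15000 * (Y : ℝ) ^ 25 * ∑ g0 ∈ S, 1 / (nm (g0⁻¹ * g) : ℝ) := fun g => by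
    rw [sum_comm, mul_sum]
    refine sum_le_sum fun g0 _ => ?_
    simp only [← mul_assoc]
    simpa only [← mul_assoc] using hSUPER Y (g0⁻¹ * g) hY
  have key : ∀ m : ℕ, ∀ g : Ga, nm g * (2 * Y ^ 24) ^ m ≤ (2 * Y ^ 24) ^ n →
      (AA p j (Y ^ 24) ^ m) (ind (KP p j i)) (red p j g) ≤
        (15000 * (Y : ℝ) ^ 25) ^ m * ∑ g0 ∈ S, 1 / (nm (g0⁻¹ * g) : ℝ) := by
    intro m
    induction m with
    | zero =>
      intro g hg
      rw [pow_zero, mul_one] at hg
      rw [pow_zero, pow_zero, one_mul]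
      show ind (KP p j i) (red p j g) ≤ _
      unfold ind
      split_ifs with h
      · have hm : g ∈ S := mem_filter.2 ⟨mem_ball.2 hg, (red_mem hij g).1 h⟩
        have := single_le_sum (f := fun g0 : Ga => 1 / (nm (g0⁻¹ * g) : ℝ))
          (fun _ _ => by positivity) hm
        simpa [nm_one] using this
      · exact sum_nonneg fun _ _ => by positivity
    | succ m ih =>
      intro g hg
      rw [pow_succ', Module.End.mul_apply, AA_apply, pow_succ (15000 * (Y : ℝ) ^ 25), mul_assoc]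
      refine le_trans ?_ (mul_le_mul_of_nonneg_left (hsup g) (pow_nonneg hρ m))
      rw [mul_sum]
      refine sum_le_sum fun γ hγ => ?_
      rw [← map_mul]
      refine ih _ (le_trans ?_ hg)
      calc nm (g * γ) * (2 * Y ^ 24) ^ m ≤ 2 * nm g * Y ^ 24 * (2 * Y ^ 24) ^ m :=
            Nat.mul_le_mul_right _ ((nm_mul g γ).trans (Nat.mul_le_mul_left _ (mem_ball.1 hγ)))
        _ = _ := by ring
  have := key n 1 (by rw [nm_one, one_mul])
  simpa only [map_one, mul_one, nm_inv] using this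

end Pool.Agent.P.MP_246241_nt.BV
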