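import Pool.Agent.P.MP_246241_nt.BV.TORTH
import Pool.Agent.P.MP_246241_nt.BV.TLOGC
import Pool.Agent.P.MP_246241_nt.BV.TCS
import Pool.Agent.P.MP_246241_nt.BV.TLOW
import Pool.Agent.P.MP_246241_nt.BV.TIDX
import Pool.Agent.P.MP_246241_nt.BV.TCH
import Pool.Agent.P.MP_246241_nt.BV.TAFF
import Pool.Agent.P.MP_246241_nt.BV.TSCH
import Pool.Agent.P.MP_246241_nt.BV.TLINE
import Pool.Agent.P.MP_246241_nt.BV.TSTRIP
import Pool.Agent.P.MP_246241_nt.BV.TDY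
import Pool.Agent.P.MP_246241_nt.BV.TSUPER
import Pool.Agent.P.MP_246241_nt.BV.TDIV
import Pool.Agent.P.MP_246241_nt.BV.TCNT
import Pool.Agent.P.MP_246241_nt.BV.THAR
import Pool.Agent.P.MP_246241_nt.BV.TZB
import Pool.Agent.P.MP_246241_nt.BV.TNUM
import Pool.Agent.P.MP_246241_nt.BV.TNEW
import Pool.Agent.P.MP_246241_nt.BV.TGAP
import Pool.Agent.P.MP_246241_nt.BV.TFRAME
import Pool.Agent.P.MP_246241_nt.BV.TSTEP
import Pool.Agent.P.MP_246241_nt.BV.TMULT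
import Pool.Agent.P.MP_246241_nt.BV.TFFB
import Pool.Agent.P.MP_246241_nt.BV.TDOM
import Pool.Agent.P.MP_246241_nt.BV.TEDEN
import Pool.Agent.P.MP_246241_nt.BV.TVEC
import Pool.Agent.P.MP_246241_nt.BV.TESET
import Pool.Agent.P.MP_246241_nt.BV.TWIN
import Pool.Agent.P.MP_246241_nt.BV.TCRU1
import Pool.Agent.P.MP_246241_nt.BV.TCRU
import Pool.Agent.P.MP_246241_nt.BV.TBLK
import Pool.Agent.P.MP_246241_nt.BV.TREC
import Pool.Agent.P.MP_246241_nt.BV.TWK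
import Pool.Agent.P.MP_246241_nt.BV.TCOV
import Pool.Agent.P.MP_246241_nt.BV.TCORE
import Pool.Agent.P.MP_246241_nt.BV.TBUILD
import Pool.Agent.P.MP_246241_nt.BV.TLIM
import Pool.Agent.P.MP_246241_nt.BV.TFIN
import Pool.Agent.P.MP_246241_nt.BV.TLEV
import Pool.Agent.P.MP_246241_nt.BV.TDIM

/-! Assembly. -/

set_option autoImplicit false

namespace Pool.Agent.P.MP_246241_nt.BV

theorem f_ORTH : S_ORTH := p_ORTH
theorem f_LOGC : S_LOGC := p_LOGC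
theorem f_CS : S_CS := p_CS
theorem f_LOW : S_LOW := p_LOW
theorem f_IDX : S_IDX := p_IDX
theorem f_CH : S_CH := p_CH
theorem f_AFF : S_AFF := p_AFF
theorem f_SCH : S_SCH := p_SCH f_CH f_AFF
theorem f_LINE : S_LINE := p_LINE
theorem f_STRIP : S_STRIP := p_STRIP
theorem f_DY : S_DY := p_DY
theorem f_SUPER : S_SUPER := p_SUPER f_STRIP f_DY
theorem f_DIV : S_DIV := p_DIV
theorem f_CNT : S_CNT := p_CNT
theorem f_HAR : S_HAR := p_HAR f_DIV f_CNT f_DY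
theorem f_ZB : S_ZB := p_ZB f_SUPER
theorem f_NUM : S_NUM := p_NUM
theorem f_NEW : S_NEW := p_NEW f_CS f_SCH f_LINE f_IDX f_ZB f_HAR f_NUM f_LOGC
theorem f_GAP : S_GAP := p_GAP f_NEW f_ORTH f_LOW f_IDX
theorem f_FRAME : S_FRAME := p_FRAME
theorem f_STEP : S_STEP := p_STEP
theorem f_MULT : S_MULT := p_MULT
theorem f_FFB : S_FFB := p_FFB
theorem f_DOM : S_DOM := p_DOM f_FRAME f_STEP f_MULT
theorem f_EDEN : S_EDEN := p_EDEN
theorem f_VEC : S_VEC := p_VEC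
theorem f_ESET : S_ESET := p_ESET f_EDEN
theorem f_WIN : S_WIN := p_WIN f_FRAME f_VEC f_ESET f_FFB
theorem f_CRU1 : S_CRU1 := p_CRU1
theorem f_CRU : S_CRU := p_CRU f_CRU1
theorem f_BLK : S_BLK := p_BLK f_GAP f_DOM f_FFB
theorem f_REC : S_REC := p_REC f_BLK f_FFB f_IDX
theorem f_WK : S_WK := p_WK f_REC f_WIN
theorem f_COV : S_COV := p_COV
theorem f_CORE : S_CORE := p_CORE f_COV f_CRU f_WK
theorem f_BUILD : S_BUILD := p_BUILD
theorem f_LIM : S_LIM := p_LIM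
theorem f_FIN : S_FIN := p_FIN
theorem f_LEV : S_LEV := p_LEV
theorem f_DIM : S_DIM := p_DIM f_LEV

theorem final (p : ℕ) (hp : p.Prime) : dimH (Mad p) = 1 :=
  assemble f_CORE f_BUILD f_LIM f_FIN f_DIM p hp

end Pool.Agent.P.MP_246241_nt.BV
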