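import Pool.Agent.P.MP_246241_nt.BV.Iface

/-! Step DY. -/

set_option autoImplicit false
set_option linter.unusedSectionVars false

namespace Pool.Agent.P.MP_246241_nt.BV

open Finset
open scoped Classical MatrixGroups

namespace DYx

lemma shell {ι : Type} (s : Finset ι) (y : ι → ℝ) {a κ : ℝ} (ha : 0 < a) (h : ∀ i ∈ s, a ≤ y i)
    (hc : (#s : ℝ) ≤ κ * (2 * a)) : ∑ i ∈ s, 1 / y i ≤ 2 * κ := by
  refine (sum_le_card_nsmul s _ (1 / a) fun i hi => one_div_le_one_div_of_le ha (h i hi)).trans ?_
  rw [nsmul_eq_mul, mul_one_div, div_le_iff₀ ha]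
  linarith

end DYx

theorem p_DY :
    S_DY := by
  intro ι L s y y₀ κ h0 hκ
  induction L generalizing s with
  | zero =>
    intro h hc
    have h1 := hc y₀ le_rfl
    rw [filter_true_of_mem fun i hi => by simpa using (h i hi).2] at h1
    simpa using DYx.shell s y h0 (fun i hi => (h i hi).1) (by nlinarith [mul_nonneg hκ h0.le])
  | succ L ih =>
    intro h hc
    have h2 : (1 : ℝ) ≤ 2 ^ L := one_le_pow₀ one_le_two
    have h3 := ih (s.filter fun i => y i ≤ 2 ^ L * y₀)
      (fun i hi => ⟨(h i (mem_filter.1 hi).1).1, (mem_filter.1 hi).2⟩) fun Z hZ =>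
        (Nat.cast_le.2 (card_le_card (filter_subset_filter _ (filter_subset _ _)))).trans (hc Z hZ)
    have h4 := DYx.shell (s.filter fun i => ¬ y i ≤ 2 ^ L * y₀) y (a := 2 ^ L * y₀) (κ := κ)
      (by positivity) (fun i hi => (not_le.1 (mem_filter.1 hi).2).le) (by
        refine le_trans (Nat.cast_le.2 (card_le_card fun i hi => mem_filter.2
          ⟨(mem_filter.1 hi).1, ?_⟩)) (hc _ (by nlinarith))
        have := (h i (mem_filter.1 hi).1).2
        rw [pow_succ] at this
        linarith)
    rw [← sum_filter_add_sum_filter_not s fun i => y i ≤ 2 ^ L * y₀]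
    push_cast
    linarith

end Pool.Agent.P.MP_246241_nt.BV
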