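import Pool.Agent.P.MP_246241_nt.BV.Iface

/-! Step MULT. -/

set_option autoImplicit false
set_option linter.unusedSectionVars false

namespace Pool.Agent.P.MP_246241_nt.BV

open Finset
open scoped Classical MatrixGroups

namespace MULTx

theorem near {p H l a a' : ℕ} {g : Ga} (hp : 0 < p) (h : Frame p H l a g) (h' : Frame p H l a' g) :
    a' ≤ a + 8 * H := by
  have P0 : (0 : ℤ) < p ^ l := by positivity
  have e : (p : ℤ) ^ l * (a' - a) = (g 0 0 * a - g 1 0 * p ^ l) * (g 0 1 * a' - g 1 1 * p ^ l) -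
      (g 0 1 * a - g 1 1 * p ^ l) * (g 0 0 * a' - g 1 0 * p ^ l) := by
    linear_combination ((p : ℤ) ^ l * (a - a')) * det_ent g
  have : (p : ℤ) ^ l * (a' - a) ≤ p ^ l * (8 * H) := by
    rw [e]
    linarith [(h 0).2, (h 1).2, (h' 0).2, (h' 1).2,
      two_mul_le_add_sq (g 0 0 * a - g 1 0 * p ^ l) (g 0 1 * a' - g 1 1 * p ^ l),
      sq_nonneg ((g 0 1 * a - g 1 1 * p ^ l) + (g 0 0 * a' - g 1 0 * p ^ l))]
  have := le_of_mul_le_mul_left this P0
  omega

end MULTx

theorem p_MULT :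
    S_MULT := by
  intro p H l g S hp hH h
  rcases S.eq_empty_or_nonempty with rfl | ⟨a, ha⟩
  · simp
  have : S ⊆ Icc (a - 8 * H) (a + 8 * H) := fun b hb => mem_Icc.2
    ⟨by have := MULTx.near hp (h b hb) (h a ha); omega, MULTx.near hp (h a ha) (h b hb)⟩
  have := card_le_card this
  rw [Nat.card_Icc] at this
  omega

end Pool.Agent.P.MP_246241_nt.BV
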