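import Pool.Agent.P.MP_246241_nt.BV.Iface

/-! Step ORTH. -/

set_option autoImplicit false
set_option linter.unusedSectionVars false

namespace Pool.Agent.P.MP_246241_nt.BV

open Finset
open scoped Classical MatrixGroups

namespace ORTHx

variable {G : Type} [Group G] [Fintype G]

theorem pyth (K : Subgroup G) (f : G → ℝ) : nn f = nn (EE K f) + nn (f - EE K f) := by
  have h := nn_add (EE K f) (f - EE K f)
  rw [add_sub_cancel, ip_EE, map_sub, EE_EE le_rfl, sub_self, ip_zero] at h
  linarith

end ORTHx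

theorem p_ORTH :
    S_ORTH := by
  intro G _ _ K A P lam i₀ hK hA hsub hE hlam hstep n
  induction n with
  | zero =>
    intro f _ hf
    rw [Nat.add_zero] at hf
    rw [hf]
    exact le_add_of_nonneg_left (mul_nonneg hlam (nn_nonneg f))
  | succ n ih =>
    intro f hP hf
    have hc : EE (K (i₀ + n)) (A f) = A (EE (K (i₀ + n)) f) := LinearMap.congr_fun (hA _).eq f
    have h1 := ih _ (hE (i₀ + n) f hP) (EE_EE le_rfl f)
    have h2 := hstep (i₀ + n) (f - EE (K (i₀ + n)) f) (Nat.le_add_right _ _)
      (hsub _ _ hP (hE _ f hP))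
      (by rw [map_sub, EE_EE (hK (Nat.le_succ _))]; exact congrArg (· - _) hf)
      (by rw [map_sub, EE_EE le_rfl, sub_self])
    have h3 := ORTHx.pyth (K (i₀ + n)) (A f)
    rw [EE_EE' (hK (Nat.le_add_right _ _))] at h1
    rw [hc, ← map_sub] at h3
    rw [h3, ORTHx.pyth (K (i₀ + n)) f, mul_add]
    linarith

end Pool.Agent.P.MP_246241_nt.BV
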