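import Pool.Agent.P.MP_246241_nt.BV.Iface

/-! Step WK. -/

set_option autoImplicit false
set_option linter.unusedSectionVars false

namespace Pool.Agent.P.MP_246241_nt.BV

open Finset
open scoped Classical MatrixGroups

theorem p_WK (hREC : S_REC) (hWIN : S_WIN) :
    S_WK := by
  intro p _
  obtain ⟨h₀, h1, hR⟩ := hREC p
  refine ⟨h₀, fun h j m t H C hh hj hC hm S hS hs => ?_⟩
  have hp : (2 : ℝ) ≤ p := two_le'
  have hP : (2 : ℝ) ≤ (p : ℝ) ^ h :=
    hp.trans (le_self_pow₀ (by linarith) (by omega))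
  have e2 : (p : ℝ) ^ (140000 * h) = ((p : ℝ) ^ h) ^ 999 * (p : ℝ) ^ h * (p : ℝ) ^ (139000 * h) := by
    rw [← pow_succ, ← pow_mul, ← pow_add]
    congr 1
    omega
  have h144 : (144 : ℝ) ≤ ((p : ℝ) ^ h) ^ 999 :=
    calc (144 : ℝ) ≤ 2 ^ 8 := by norm_num
      _ ≤ ((p : ℝ) ^ h) ^ 8 := pow_le_pow_left₀ (by norm_num) hP 8
      _ ≤ _ := pow_le_pow_right₀ (by linarith) (by norm_num)
  have hQ : (1 : ℝ) ≤ (p : ℝ) ^ (139000 * h) := one_le_pow₀ (by linarith)
  have hj' : (1 : ℝ) ≤ j := mod_cast hj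
  rw [e2]
  clear e2
  by_cases hH : 16 * p ^ h < H
  · have a := hWIN p j (p ^ h) H (t - m) S (Nat.one_le_pow _ _ (by have := two_le (p := p); omega))
      hH hs
    have b := hR h j m t C hh hC hm S hS fun a ha => (hs a ha).1
    have hB := oB_pos (p := p) (j := j)
    push_cast at a
    generalize (p : ℝ) ^ (139000 * h) = Q at *
    generalize ((p : ℝ) ^ h) ^ 999 = R at *
    generalize (p : ℝ) ^ h = P at *
    refine le_of_mul_le_mul_left ?_ (pow_pos hB 2)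
    calc oB p j ^ 2 * ((H : ℝ) * (#S : ℝ) ^ 2) = H * (oB p j * #S) ^ 2 := by ring
      _ ≤ 144 * j * P * (Q * (oB p j * #(C t)) ^ 2) := a.trans (by gcongr)
      _ ≤ R * j * P * (Q * (oB p j * #(C t)) ^ 2) := by gcongr
      _ = _ := by ring
  · have a : (H : ℝ) ≤ 16 * (p : ℝ) ^ h := mod_cast not_lt.1 hH
    have b : (#S : ℝ) ≤ #(C t) := mod_cast card_le_card hS
    generalize (p : ℝ) ^ (139000 * h) = Q at *
    generalize ((p : ℝ) ^ h) ^ 999 = R at *
    generalize (p : ℝ) ^ h = P at *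
    have c : (H : ℝ) ≤ j * (R * P * Q) :=
      calc (H : ℝ) ≤ 1 * (16 * P * 1) := by linarith
        _ ≤ _ := by gcongr; linarith
    gcongr

end Pool.Agent.P.MP_246241_nt.BV
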